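import Pool.Agent.V11311.GT.B
import Pool.Agent.H426R3.CL.Lam

/-! Generic trajectories, part M: the Liouville and the Möbius functions. The proof of `blockU` is that of
`Pool.Agent.H426R3.CL.block` with a uniform hypothesis on the number of changes. -/

set_option autoImplicit false

namespace Pool.Agent.V11311.GT

open Finset Pool.Agent.H376R2.MR Pool.Agent.H970R2.X Pool.Agent.H426R3.CL

set_option maxHeartbeats 2000000 in
open scoped Classical in
theorem blockU {g : ℕ → ℤ} (hg : SmallAvg g) {ε : ℝ} (hε : 0 < ε) : ∃ δ' : ℝ, 0 < δ' ∧ ∃ N₁ : ℕ, ∀ N : ℕ, N₁ ≤ N →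
    ∀ f : ℕ → ℝ, (∀ n, |f n| ≤ 1) → (chg f (4 * N) : ℝ) ≤ δ' * N →
    |∑ m ∈ Ioc (N / 2) N, (g m : ℝ) * f m| ≤ ε * N := by
  obtain ⟨hgb, hgs⟩ := hg
  set η : ℝ := ε / 4 with hη
  have hη0 : 0 < η := by positivity
  obtain ⟨h, hh, Y₀, hY₀⟩ := hgs ((η / 8) ^ 2) (by positivity)
  set D : ℕ := ⌈128000 * h / η⌉₊ + 2 with hDd
  have hD2 : 2 ≤ D := by omega
  have hDr : 128000 * h / η ≤ D := by
    refine (Nat.le_ceil _).trans ?_
    rw [hDd]
    push_cast
    linarith
  have hD0 : (0 : ℝ) < D := by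
    have : 0 < D := by omega
    exact_mod_cast this
  obtain ⟨δ, hδ, huc⟩ := phi_uc (ε := η / 128) (by positivity)
  set T : ℝ := max (max Y₀ (2 * h)) (max (max (D / δ) D) (max 0 (48 * (5 * D + 3) / η + 1)))
    with hT
  refine ⟨η / (250 * (2 * D + 1)), by positivity, ⌈T⌉₊ + 1, fun N hN f hf hz => ?_⟩
  have hNT : T ≤ N := by
    refine (Nat.le_ceil _).trans ?_
    have : ⌈T⌉₊ ≤ N := by omega
    exact_mod_cast this
  have t1 : Y₀ ≤ N := ((le_max_left _ _).trans (le_max_left _ _)).trans hNT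
  have t2 : 2 * h ≤ N := ((le_max_right _ _).trans (le_max_left _ _)).trans hNT
  have t3 : D / δ ≤ N :=
    (((le_max_left _ _).trans (le_max_left _ _)).trans (le_max_right _ _)).trans hNT
  have t4 : (D : ℝ) ≤ N :=
    (((le_max_right _ _).trans (le_max_left _ _)).trans (le_max_right _ _)).trans hNT
  have t6 : 48 * (5 * D + 3) / η + 1 ≤ N :=
    (((le_max_right _ _).trans (le_max_right _ _)).trans (le_max_right _ _)).trans hNT
  have hN0 : (0 : ℝ) < N := by linarith
  have hNpos : 0 < N := by exact_mod_cast hN0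
  have hDN : D ≤ N := by exact_mod_cast t4
  have hh0 : 0 < h := by linarith
  -- the number `K`
  set K : ℕ := ⌊(N : ℝ) / h⌋₊ with hKd
  have hK2 : (N : ℝ) / (2 * h) ≤ K := by
    have h1 : (N : ℝ) / h < K + 1 := Nat.lt_floor_add_one _
    have h2 : 1 ≤ (N : ℝ) / (2 * h) := by
      rw [le_div_iff₀ (by positivity)]
      linarith
    have h3 : (N : ℝ) / h = 2 * ((N : ℝ) / (2 * h)) := by field_simp
    linarith
  have hK1 : 1 ≤ K := by
    have h2 : 1 ≤ (N : ℝ) / (2 * h) := by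
      rw [le_div_iff₀ (by positivity)]
      linarith
    have : (1 : ℝ) ≤ K := h2.trans hK2
    exact_mod_cast this
  have hK0 : (0 : ℝ) < K := by exact_mod_cast hK1
  -- the exceptional set
  set E : Finset ℕ := (Icc 1 (3 * N)).filter (fun m : ℕ => ∃ j : ℕ, |(j : ℝ) - m| ≤ D ∧ f j ≠ f m)
    ∪ (Icc (N / 2 - D) (N / 2 + D + 1) ∪ Icc (N - D) (N + D)) with hE
  have hEcard : (E.card : ℝ) ≤ (5 * D + 3) + η / 250 * N := by
    have h1 : E.card ≤ (D + (2 * D + 1) *
        ((Icc 1 (3 * N + D)).filter (fun i => f i ≠ f (i + 1))).card) +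
        ((2 * D + 2) + (2 * D + 1)) := by
      refine (card_union_le _ _).trans (Nat.add_le_add (exc_card f (3 * N) D) ?_)
      refine (card_union_le _ _).trans (Nat.add_le_add ?_ ?_)
      · rw [Nat.card_Icc]; omega
      · rw [Nat.card_Icc]; omega
    have h2 : (((Icc 1 (3 * N + D)).filter (fun i => f i ≠ f (i + 1))).card : ℝ) ≤ chg f (4 * N) := by
      unfold chg
      exact_mod_cast card_le_card (filter_subset_filter _ (Icc_subset_Icc_right (by omega)))
    have h3 : (E.card : ℝ) ≤ (D + (2 * D + 1) *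
        (((Icc 1 (3 * N + D)).filter (fun i => f i ≠ f (i + 1))).card : ℝ)) +
        ((2 * D + 2) + (2 * D + 1)) := by exact_mod_cast h1
    have h4 : (2 * (D : ℝ) + 1) *
        (((Icc 1 (3 * N + D)).filter (fun i => f i ≠ f (i + 1))).card : ℝ) ≤ η / 250 * N := by
      calc (2 * (D : ℝ) + 1) *
        (((Icc 1 (3 * N + D)).filter (fun i => f i ≠ f (i + 1))).card : ℝ)
          ≤ (2 * (D : ℝ) + 1) * (η / (250 * (2 * D + 1)) * N) := by
            apply mul_le_mul_of_nonneg_left (h2.trans hz) (by positivity)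
        _ = η / 250 * N := by field_simp
    linarith
  set β : ℕ → ℝ := fun m => if m ∈ Ioc (N / 2) N then f m * phi ((m : ℝ) / N) else 0 with hβd
  have hrange : ∀ m ∈ Ioc (N / 2) N, 1 / 2 ≤ (m : ℝ) / N ∧ (m : ℝ) / N ≤ 1 := by
    intro m hm
    rw [mem_Ioc] at hm
    constructor
    · rw [div_le_div_iff₀ (by norm_num) hN0]
      have : N ≤ m * 2 := by omega
      have h1 : (N : ℝ) ≤ m * 2 := by exact_mod_cast this
      linarith
    · rw [div_le_one hN0]
      exact_mod_cast hm.2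
  have hβ1 : ∀ m, |β m| ≤ 1 := by
    intro m
    simp only [hβd]
    split_ifs with hm
    · obtain ⟨r1, r2⟩ := hrange m hm
      rw [abs_mul]
      calc |f m| * |phi ((m : ℝ) / N)| ≤ 1 * 1 :=
            mul_le_mul (hf m) (phi_abs r1 r2) (abs_nonneg _) (by norm_num)
        _ = 1 := one_mul 1
    · simp
  have he : Real.exp 1 < 3 := by
    have := Real.exp_one_lt_d9
    linarith
  have he1 : 1 < Real.exp 1 := by
    have := Real.exp_one_gt_d9
    linarith
  have hkey := key g hgb hK1 (Y := (N : ℝ)) (lam := η / 8) (by exact_mod_cast hNpos)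
    (by positivity) (hY₀ N t1) β hβ1 hD2 t4 (ε := η / 128) (by positivity) E (by
      intro m hm hmE j hj
      rw [WN, mem_Icc] at hm
      have hm3 : m ≤ 3 * N := by
        have h1 : (m : ℝ) ≤ Real.exp 1 * N := (Nat.le_floor_iff (by positivity)).1 hm.2
        have h2 : (m : ℝ) ≤ ((3 * N : ℕ) : ℝ) := by
          push_cast
          nlinarith
        exact_mod_cast h2
      rw [hE, mem_union, mem_union, not_or, not_or, mem_filter, mem_Icc, mem_Icc, mem_Icc] at hmE
      obtain ⟨e1, e2, e3⟩ := hmE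
      have hfj : f j = f m := by
        by_contra hne
        exact e1 ⟨⟨hm.1, hm3⟩, j, hj, hne⟩
      have hj1 : j ≤ m + D := by
        have := (abs_le.1 hj).2
        have h3 : (j : ℝ) ≤ ((m + D : ℕ) : ℝ) := by push_cast; linarith
        exact_mod_cast h3
      have hj2 : m ≤ j + D := by
        have := (abs_le.1 hj).1
        have h3 : (m : ℝ) ≤ ((j + D : ℕ) : ℝ) := by push_cast; linarith
        exact_mod_cast h3
      have hiff : m ∈ Ioc (N / 2) N ↔ j ∈ Ioc (N / 2) N := by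
        rw [mem_Ioc, mem_Ioc]
        omega
      simp only [hβd]
      by_cases hm4 : m ∈ Ioc (N / 2) N
      · have hj4 := hiff.1 hm4
        rw [if_pos hm4, if_pos hj4, hfj, ← mul_sub, abs_mul]
        obtain ⟨r1, r2⟩ := hrange m hm4
        obtain ⟨r3, r4⟩ := hrange j hj4
        have h5 : |(j : ℝ) / N - (m : ℝ) / N| ≤ δ := by
          rw [← sub_div, abs_div, abs_of_pos hN0, div_le_iff₀ hN0]
          refine hj.trans ?_
          rw [div_le_iff₀ hδ] at t3
          linarith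
        have h6 := huc _ _ r3 r4 r1 r2 h5
        calc |f m| * |phi ((j : ℝ) / N) - phi ((m : ℝ) / N)|
            ≤ 1 * |phi ((j : ℝ) / N) - phi ((m : ℝ) / N)| := by gcongr; exact hf m
          _ ≤ η / 128 := by rw [one_mul]; exact h6
      · have hj4 : j ∉ Ioc (N / 2) N := fun h => hm4 (hiff.2 h)
        rw [if_neg hm4, if_neg hj4]
        simp only [sub_zero, abs_zero]
        positivity)
  -- the identity
  have hid : ∑ m ∈ WN (N : ℝ), (g m : ℝ) * bw (N : ℝ) m * β m =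
      (∑ m ∈ Ioc (N / 2) N, (g m : ℝ) * f m) / (4 * N) := by
    have hsub : Ioc (N / 2) N ⊆ WN (N : ℝ) := by
      intro m hm
      rw [mem_Ioc] at hm
      rw [WN, mem_Icc]
      refine ⟨by omega, Nat.le_floor ?_⟩
      have h1 : (m : ℝ) ≤ N := by exact_mod_cast hm.2
      nlinarith
    rw [← sum_subset hsub (f := fun m => (g m : ℝ) * bw (N : ℝ) m * β m)]
    · rw [sum_div]
      refine sum_congr rfl fun m hm => ?_
      obtain ⟨r1, r2⟩ := hrange m hm
      have hm' := hm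
      rw [mem_Ioc] at hm'
      have hm0 : (0 : ℝ) < m := by
        have : 0 < m := by omega
        exact_mod_cast this
      simp only [hβd, if_pos hm]
      have hl1 := log_half r1
      have hl2 : Real.log ((m : ℝ) / N) ≤ 0 := Real.log_nonpos (by positivity) r2
      have hlog : Real.log m - Real.log N = Real.log ((m : ℝ) / N) :=
        (Real.log_div hm0.ne' hN0.ne').symm
      unfold bw w phi
      rw [hlog, abs_of_nonpos hl2, max_eq_right (by linarith)]
      have h7 : 1 + Real.log ((m : ℝ) / N) ≠ 0 := by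
        have : 0 < 1 + Real.log ((m : ℝ) / N) := by linarith
        exact this.ne'
      have h8 : 1 - -Real.log ((m : ℝ) / N) = 1 + Real.log ((m : ℝ) / N) := by ring
      rw [h8]
      generalize 1 + Real.log ((m : ℝ) / N) = q at h7
      field_simp
    · intro m _ hm
      simp only [hβd, if_neg hm, mul_zero]
  rw [hid, abs_div, abs_of_pos (by positivity : (0 : ℝ) < 4 * N), div_le_iff₀ (by positivity)]
    at hkey
  have hb1 : 8000 * (N : ℝ) / (K * D) ≤ η / 8 := by
    rw [div_le_iff₀ (by positivity)]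
    have h1 : 128000 * h ≤ D * η := by
      rw [div_le_iff₀ hη0] at hDr
      exact hDr
    have h2 : (N : ℝ) ≤ 2 * h * K := by
      rw [div_le_iff₀ (by positivity)] at hK2
      linarith
    calc 8000 * (N : ℝ) ≤ 8000 * (2 * h * K) := by gcongr
      _ = (1 / 8) * (128000 * h) * K := by ring
      _ ≤ (1 / 8) * (D * η) * K := by gcongr
      _ = η / 8 * (K * D) := by ring
  have hb2 : 6 * (E.card : ℝ) / N ≤ η / 4 := by
    rw [div_le_iff₀ hN0]
    have h1 : 48 * (5 * (D : ℝ) + 3) ≤ η * N := by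
      have h2 : 48 * (5 * (D : ℝ) + 3) / η ≤ N := by linarith
      rw [div_le_iff₀ hη0] at h2
      linarith
    nlinarith
  have hb3 : η / 8 + 8 * (η / 128) + 8000 * (N : ℝ) / (K * D) + 6 * (E.card : ℝ) / N ≤ η := by
    linarith
  calc |∑ m ∈ Ioc (N / 2) N, (g m : ℝ) * f m|
      ≤ (η / 8 + 8 * (η / 128) + 8000 * (N : ℝ) / (K * D) + 6 * (E.card : ℝ) / N) * (4 * N) :=
        hkey
    _ ≤ η * (4 * N) := by gcongr
    _ = ε * N := by rw [hη]; ring


theorem chg_trunc (f : ℕ → ℝ) (N K : ℕ) : chg (fun n => f (min n N)) K ≤ chg f N := by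
  classical
  unfold chg
  apply card_le_card
  intro i hi
  rw [mem_filter, mem_Icc] at hi ⊢
  obtain ⟨⟨h1, h2⟩, h3⟩ := hi
  have h4 : i < N := by
    by_contra h
    apply h3
    simp only
    rw [min_eq_right (by omega), min_eq_right (by omega)]
  refine ⟨⟨h1, h4.le⟩, ?_⟩
  simp only at h3
  rwa [min_eq_left h4.le, min_eq_left (by omega)] at h3

theorem orthU {g : ℕ → ℤ} (hg : SmallAvg g) {ε : ℝ} (hε : 0 < ε) : ∃ δ : ℝ, 0 < δ ∧ ∃ N0 : ℕ, ∀ N : ℕ, N0 ≤ N →
    ∀ f : ℕ → ℝ, (∀ n, |f n| ≤ 1) → (chg f N : ℝ) ≤ δ * N → |∑ m ∈ Icc 1 N, (g m : ℝ) * f m| ≤ ε * N := by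
  obtain ⟨δ', hδ', N₁, hN₁⟩ := blockU hg (ε := ε / 4) (by positivity)
  obtain ⟨I, hI⟩ := exists_pow_lt_of_lt_one (show 0 < ε / 2 by positivity) (show (1 / 2 : ℝ) < 1 by norm_num)
  refine ⟨δ' / 2 ^ (I + 1), by positivity, (N₁ + 1) * 2 ^ (I + 1), fun N hN f hf hc => ?_⟩
  set f' : ℕ → ℝ := fun n => f (min n N) with hf'
  have hf1 : ∀ n, |f' n| ≤ 1 := fun n => hf _
  have hsum : ∀ M ≤ N, ∑ m ∈ Icc 1 M, (g m : ℝ) * f' m = ∑ m ∈ Icc 1 M, (g m : ℝ) * f m := by
    intro M hM
    apply sum_congr rfl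
    intro m hm
    rw [mem_Icc] at hm
    simp only [hf']
    rw [min_eq_left (hm.2.trans hM)]
  rw [← hsum N le_rfl]
  have hgb := hg.1
  have htriv : ∀ N : ℕ, |∑ m ∈ Icc 1 N, (g m : ℝ) * f' m| ≤ N := by
    intro N
    refine (abs_sum_le_sum_abs _ _).trans ?_
    calc ∑ m ∈ Icc 1 N, |(g m : ℝ) * f' m| ≤ ∑ _m ∈ Icc 1 N, (1 : ℝ) := by
          refine sum_le_sum fun m _ => ?_
          rw [abs_mul]
          have h1 : |(g m : ℝ)| ≤ 1 := by exact_mod_cast hgb m
          calc |(g m : ℝ)| * |f' m| ≤ 1 * 1 := mul_le_mul h1 (hf1 m) (abs_nonneg _) (by norm_num)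
            _ = 1 := one_mul 1
      _ = N := by simp
  have hblock : ∀ j ≤ I, |∑ m ∈ Ioc (N / 2 ^ j / 2) (N / 2 ^ j), (g m : ℝ) * f' m| ≤ ε / 4 * ((N / 2 ^ j : ℕ) : ℝ) := by
    intro j hj
    have h2j : 2 ^ j ≤ 2 ^ I := Nat.pow_le_pow_right (by norm_num) hj
    have h1 : N₁ + 1 ≤ N / 2 ^ j := by
      rw [Nat.le_div_iff_mul_le (by positivity)]
      calc (N₁ + 1) * 2 ^ j ≤ (N₁ + 1) * 2 ^ (I + 1) := by
            apply Nat.mul_le_mul_left
            exact Nat.pow_le_pow_right (by norm_num) (by omega)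
        _ ≤ N := hN
    apply hN₁ _ (by omega) f' hf1
    have h3 : (chg f' (4 * (N / 2 ^ j)) : ℝ) ≤ chg f N := by exact_mod_cast chg_trunc f N _
    refine h3.trans (hc.trans ?_)
    have h4 : (N : ℝ) ≤ 2 ^ (I + 1) * ((N / 2 ^ j : ℕ) : ℝ) := by
      have h5 : N < 2 ^ j * (N / 2 ^ j + 1) := Nat.lt_mul_div_succ N (by positivity)
      have h6 : N ≤ 2 ^ (I + 1) * (N / 2 ^ j) := by
        calc N ≤ 2 ^ j * (N / 2 ^ j + 1) := h5.le
          _ ≤ 2 ^ I * (2 * (N / 2 ^ j)) := by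
            apply Nat.mul_le_mul h2j
            omega
          _ = 2 ^ (I + 1) * (N / 2 ^ j) := by ring
      exact_mod_cast h6
    calc δ' / 2 ^ (I + 1) * (N : ℝ) ≤ δ' / 2 ^ (I + 1) * (2 ^ (I + 1) * ((N / 2 ^ j : ℕ) : ℝ)) :=
          mul_le_mul_of_nonneg_left h4 (by positivity)
      _ = δ' * ((N / 2 ^ j : ℕ) : ℝ) := by field_simp
  have hmain : ∀ d ≤ I, |∑ m ∈ Icc 1 (N / 2 ^ (I - d)), (g m : ℝ) * f' m| ≤
      ε / 2 * ((N / 2 ^ (I - d) : ℕ) : ℝ) + ((N / 2 ^ I : ℕ) : ℝ) := by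
    intro d
    induction d with
    | zero =>
      intro _
      have := htriv (N / 2 ^ (I - 0))
      have h2 : 0 ≤ ε / 2 * ((N / 2 ^ (I - 0) : ℕ) : ℝ) := by positivity
      rw [Nat.sub_zero] at this h2 ⊢
      linarith
    | succ d ih =>
      intro hd
      have h1 := ih (by omega)
      set M := N / 2 ^ (I - (d + 1)) with hM
      have e1 : N / 2 ^ (I - d) = M / 2 := by
        rw [hM, Nat.div_div_eq_div_mul, ← pow_succ]
        congr 2
        omega
      rw [e1] at h1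
      have h2 := hblock (I - (d + 1)) (by omega)
      rw [← hM] at h2
      have h3 : ∑ m ∈ Icc 1 M, (g m : ℝ) * f' m = ∑ m ∈ Icc 1 (M / 2), (g m : ℝ) * f' m +
          ∑ m ∈ Ioc (M / 2) M, (g m : ℝ) * f' m := by
        rw [← sum_union]
        · congr 1
          ext m
          rw [mem_union, mem_Icc, mem_Icc, mem_Ioc]
          omega
        · rw [Finset.disjoint_left]
          intro m hm hm'
          rw [mem_Icc] at hm
          rw [mem_Ioc] at hm'
          omega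
      rw [h3]
      refine (abs_add_le _ _).trans ?_
      have h4 : ((M / 2 : ℕ) : ℝ) ≤ M / 2 := by
        have := @Nat.cast_div_le ℝ _ _ _ M 2
        simpa using this
      have h5 : ε / 2 * ((M / 2 : ℕ) : ℝ) ≤ ε / 2 * (M / 2) := by gcongr
      linarith
  have h1 := hmain I le_rfl
  rw [Nat.sub_self, pow_zero, Nat.div_one] at h1
  refine h1.trans ?_
  have h2 : ((N / 2 ^ I : ℕ) : ℝ) ≤ ε / 2 * N := by
    have h3 : ((N / 2 ^ I : ℕ) : ℝ) ≤ N / 2 ^ I := by
      have := @Nat.cast_div_le ℝ _ _ _ N (2 ^ I)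
      simpa using this
    refine h3.trans ?_
    rw [div_eq_mul_inv, mul_comm]
    apply mul_le_mul_of_nonneg_right _ (Nat.cast_nonneg N)
    have : ((2 : ℝ) ^ I)⁻¹ = (1 / 2) ^ I := by rw [one_div, inv_pow]
    rw [this]
    exact hI.le
  linarith

end Pool.Agent.V11311.GT
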