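import Pool.Agent.V11311.GT.H
import Pool.Agent.V11311.GT.M

/-! Generic trajectories, part S: Liouville, Möbius, the squarefree integers and sets of density zero. -/

set_option autoImplicit false

namespace Pool.Agent.V11311.GT

open Finset Filter Topology Pool.Agent.V11311.PD Pool.Agent.V11311.PL Pool.Agent.V11311.FP
open Pool.Agent.H426R3.CL (SmallAvg gl gm gl_small gm_small)
open Pool.Agent.H376R2.MR (lam)

theorem nul_class {g : ℕ → ℤ} (hg : ∀ q a : ℕ, 0 < q → SmallAvg (fun n => if n % q = a % q then g n else 0)) {M : ℕ}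
    (hM : 0 < M) (r : ℕ) : Nul (fun n => if n % M = r then (g n : ℝ) else 0) := by
  intro m a hm ha h3 ε hε
  by_cases hex : ∃ n0, n0 % 3 ^ m = a ∧ n0 % M = r
  · obtain ⟨n0, e1, e2⟩ := hex
    have hl : 0 < Nat.lcm (3 ^ m) M := Nat.lcm_pos (by positivity) hM
    obtain ⟨δ, hδ, N0, hN0⟩ := orthU (hg _ n0 hl) hε
    refine ⟨δ, hδ, N0, fun N hN Φ hΦ hc => ?_⟩
    have h1 := hN0 N hN Φ hΦ hc
    have e : cs (fun n => if n % M = r then (g n : ℝ) else 0) Φ m a N =
        ∑ n ∈ Icc 1 N, ((if n % Nat.lcm (3 ^ m) M = n0 % Nat.lcm (3 ^ m) M then g n else 0 : ℤ) : ℝ) * Φ n := by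
      unfold cs
      apply sum_congr rfl
      intro n _
      have := class_inter e1 e2 n
      show (if n % 3 ^ m = a then (if n % M = r then (g n : ℝ) else 0) * Φ n else 0) = _
      by_cases c : n % Nat.lcm (3 ^ m) M = n0 % Nat.lcm (3 ^ m) M
      · obtain ⟨c1, c2⟩ := this.2 c
        rw [if_pos c1, if_pos c2, if_pos c]
      · rw [if_neg c, Int.cast_zero, zero_mul]
        by_cases c1 : n % 3 ^ m = a
        · have c2 : ¬ n % M = r := fun h => c (this.1 ⟨c1, h⟩)
          rw [if_pos c1, if_neg c2, zero_mul]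
        · rw [if_neg c1]
    rw [e]
    exact h1
  · refine ⟨1, one_pos, 0, fun N _ Φ _ _ => ?_⟩
    have e : cs (fun n => if n % M = r then (g n : ℝ) else 0) Φ m a N = 0 := by
      unfold cs
      apply sum_eq_zero
      intro n _
      show (if n % 3 ^ m = a then (if n % M = r then (g n : ℝ) else 0) * Φ n else 0) = _
      by_cases c1 : n % 3 ^ m = a
      · have c2 : ¬ n % M = r := fun h => hex ⟨n, c1, h⟩
        rw [if_pos c1, if_neg c2, zero_mul]
      · rw [if_neg c1]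
    rw [e, abs_zero]
    positivity

theorem nul_lam {M : ℕ} (hM : 0 < M) (r : ℕ) : Nul (fun n => if n % M = r then (lam n : ℝ) else 0) :=
  nul_class (fun _ a hq => gl_small hq a) hM r

theorem nul_moeb {M : ℕ} (hM : 0 < M) (r : ℕ) :
    Nul (fun n => if n % M = r then ((ArithmeticFunction.moebius n : ℤ) : ℝ) else 0) :=
  nul_class (fun _ a hq => gm_small hq a) hM r

/-- approximation in the mean -/
theorem nul_approx {f : ℕ → ℝ} (h : ∀ ε : ℝ, 0 < ε → ∃ g, Nul g ∧ ∃ N1 : ℕ, ∀ N : ℕ, N1 ≤ N →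
    ∑ n ∈ (Icc 1 N).filter (fun n => ¬ 3 ∣ n), |f n - g n| ≤ ε * N) : Nul f := by
  intro m a hm ha h3 ε hε
  obtain ⟨g, hg, N1, h1⟩ := h (ε / 2) (by positivity)
  obtain ⟨δ, hδ, N0, hN0⟩ := hg m a hm ha h3 (ε / 2) (by positivity)
  refine ⟨δ, hδ, max N0 N1, fun N hN Φ hΦ hc => ?_⟩
  have h2 := hN0 N ((le_max_left _ _).trans hN) Φ hΦ hc
  have h4 := h1 N ((le_max_right _ _).trans hN)
  have h5 : |cs f Φ m a N - cs g Φ m a N| ≤ ∑ n ∈ (Icc 1 N).filter (fun n => ¬ 3 ∣ n), |f n - g n| := by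
    unfold cs
    rw [← sum_sub_distrib, sum_filter]
    refine (abs_sum_le_sum_abs _ _).trans (sum_le_sum fun n _ => ?_)
    by_cases c1 : n % 3 ^ m = a
    · rw [if_pos c1, if_pos c1]
      have c2 : ¬ 3 ∣ n := by
        intro h
        apply h3
        rw [← c1]
        exact (Nat.dvd_mod_iff (dvd_pow_self 3 (by omega))).2 h
      rw [if_pos c2, ← sub_mul, abs_mul]
      calc |f n - g n| * |Φ n| ≤ |f n - g n| * 1 := mul_le_mul_of_nonneg_left (hΦ n) (abs_nonneg _)
        _ = _ := mul_one _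
    · rw [if_neg c1, if_neg c1, sub_zero, abs_zero]
      by_cases c2 : ¬ 3 ∣ n
      · rw [if_pos c2]
        exact abs_nonneg (f n - g n)
      · rw [if_neg c2]
  have h6 := abs_add_le (cs f Φ m a N - cs g Φ m a N) (cs g Φ m a N)
  rw [sub_add_cancel] at h6
  linarith

theorem nul_zero : Nul (fun _ => 0) := by
  intro m a _ _ _ ε hε
  refine ⟨1, one_pos, 0, fun N _ Φ _ _ => ?_⟩
  unfold cs
  simp only [zero_mul, ite_self, sum_const_zero, abs_zero]
  positivity

/-- sets of density zero -/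
theorem nul_dens {f : ℕ → ℝ} {A : Set ℕ} (hf : ∀ n, |f n| ≤ 1) (hA : ∀ n, n ∉ A → f n = 0)
    (h : ∀ ε : ℝ, 0 < ε → ∀ᶠ N : ℕ in atTop, (cN (fun n => n ∈ A) N : ℝ) ≤ ε * N) : Nul f := by
  classical
  apply nul_approx
  intro ε hε
  obtain ⟨N1, hN1⟩ := eventually_atTop.1 (h ε hε)
  refine ⟨_, nul_zero, N1, fun N hN => le_trans ?_ (hN1 N hN)⟩
  unfold cN
  rw [card_filter, Nat.cast_sum]
  calc ∑ n ∈ (Icc 1 N).filter (fun n => ¬ 3 ∣ n), |f n - 0| ≤ ∑ n ∈ Icc 1 N, |f n - 0| :=
        sum_le_sum_of_subset_of_nonneg (filter_subset _ _) fun _ _ _ => abs_nonneg _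
    _ ≤ _ := by
        apply sum_le_sum
        intro n _
        rw [sub_zero]
        split_ifs with c
        · simpa using hf n
        · rw [hA n c]
          simp

open scoped Classical in
theorem tail_sq' (P N : ℕ) (hP : 1 ≤ P) :
    (((Icc 1 N).filter (fun n : ℕ => ∃ d, P < d ∧ d ^ 2 ∣ n)).card : ℝ) ≤ N / P := by
  have hP0 : (0 : ℝ) < P := by exact_mod_cast hP
  by_cases hPN : P ≤ N
  · have hsub : (Icc 1 N).filter (fun n : ℕ => ∃ d, P < d ∧ d ^ 2 ∣ n) ⊆
        (Ioc P N).biUnion (fun d => (Icc 1 N).filter (fun n => d ^ 2 ∣ n)) := by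
      intro n hn
      rw [mem_filter, mem_Icc] at hn
      obtain ⟨⟨h1, h2⟩, d, hd, hdn⟩ := hn
      rw [mem_biUnion]
      refine ⟨d, ?_, ?_⟩
      · rw [mem_Ioc]
        refine ⟨hd, ?_⟩
        have h3 := Nat.le_of_dvd (by omega) hdn
        have h4 : d ≤ d ^ 2 := Nat.le_self_pow (by norm_num) d
        omega
      · rw [mem_filter, mem_Icc]
        exact ⟨⟨h1, h2⟩, hdn⟩
    have hcard : ∀ d : ℕ, 0 < d → ((((Icc 1 N).filter (fun n => d ^ 2 ∣ n)).card : ℕ) : ℝ) ≤
        N * ((d : ℝ) ^ 2)⁻¹ := by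
      intro d hd
      have h1 : ((Icc 1 N).filter (fun n => d ^ 2 ∣ n)).card = N / d ^ 2 := by
        have h2 : Icc 1 N = Ioc 0 N := by ext x; simp [Nat.succ_le_iff]
        rw [h2]
        exact Nat.Ioc_filter_dvd_card_eq_div N (d ^ 2)
      rw [h1]
      have h3 := @Nat.cast_div_le ℝ _ _ _ N (d ^ 2)
      rw [← div_eq_mul_inv]
      push_cast at h3
      exact h3
    have h1 : (((Icc 1 N).filter (fun n : ℕ => ∃ d, P < d ∧ d ^ 2 ∣ n)).card : ℝ) ≤
        ∑ d ∈ Ioc P N, (N * ((d : ℝ) ^ 2)⁻¹) := by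
      have h2 := (card_le_card hsub).trans card_biUnion_le
      calc (((Icc 1 N).filter (fun n : ℕ => ∃ d, P < d ∧ d ^ 2 ∣ n)).card : ℝ)
          ≤ ((∑ d ∈ Ioc P N, ((Icc 1 N).filter (fun n => d ^ 2 ∣ n)).card : ℕ) : ℝ) := by
            exact_mod_cast h2
        _ = ∑ d ∈ Ioc P N, ((((Icc 1 N).filter (fun n => d ^ 2 ∣ n)).card : ℕ) : ℝ) := by
            push_cast; rfl
        _ ≤ _ := by
            refine sum_le_sum fun d hd => hcard d ?_
            rw [mem_Ioc] at hd
            omega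
    refine h1.trans ?_
    rw [← mul_sum, div_eq_mul_inv]
    apply mul_le_mul_of_nonneg_left _ (by positivity)
    refine (sum_Ioc_inv_sq_le_sub (by omega) hPN).trans ?_
    have : 0 ≤ ((N : ℝ))⁻¹ := by positivity
    linarith
  · push Not at hPN
    have h0 : (Icc 1 N).filter (fun n : ℕ => ∃ d, P < d ∧ d ^ 2 ∣ n) = ∅ := by
      apply filter_eq_empty_iff.2
      intro n hn
      rw [mem_Icc] at hn
      rintro ⟨d, hd, hdn⟩
      have h3 := Nat.le_of_dvd (by omega) hdn
      have h4 : d ≤ d ^ 2 := Nat.le_self_pow (by norm_num) d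
      omega
    rw [h0]
    simp only [card_empty, Nat.cast_zero]
    positivity

/-- indicator of the integers without square factors `p ^ 2`, `p ∈ S` -/
noncomputable def Gs (S : Finset ℕ) (n : ℕ) : ℝ := ∏ p ∈ S, if p ^ 2 ∣ n then 0 else 1

/-- sum over a class -/
noncomputable def Ws (S : Finset ℕ) (q a x k : ℕ) : ℝ := ∑ n ∈ Ioc x (x + k), if n % q = a then Gs S n else 0

theorem Ws_add (S : Finset ℕ) (q a x k l : ℕ) : Ws S q a x (k + l) = Ws S q a x k + Ws S q a (x + k) l := by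
  unfold Ws
  rw [← sum_union]
  · congr 1
    ext n
    rw [mem_union, mem_Ioc, mem_Ioc, mem_Ioc]
    omega
  · rw [disjoint_left]
    intro n h1 h2
    rw [mem_Ioc] at h1 h2
    omega

theorem Ws_blocks {S : Finset ℕ} {q a L : ℕ} {c : ℝ} (h : ∀ x, Ws S q a x L = c) (x k : ℕ) :
    Ws S q a x (L * k) = k * c := by
  induction k with
  | zero => simp [Ws]
  | succ k ih =>
    rw [Nat.mul_succ, Ws_add, ih, h]
    push_cast
    ring

theorem Ws_one {q a : ℕ} (ha : a < q) (x : ℕ) : Ws ∅ q a x q = 1 := by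
  unfold Ws Gs
  simp only [prod_empty]
  rw [← sum_filter, sum_const, nsmul_eq_mul, mul_one]
  have h1 : (Ioc x (x + q)) = Ico (x + 1) (x + 1 + q) := by
    ext n
    rw [mem_Ioc, mem_Ico]
    omega
  have h2 : Function.Periodic (fun n => n % q = a) q := by
    intro n
    simp only [Nat.add_mod_right]
  rw [h1, Nat.filter_Ico_card_eq_of_periodic _ _ _ h2]
  have h3 : Nat.count (fun n => n % q = a) q = 1 := by
    rw [Nat.count_eq_card_filter_range]
    have : (range q).filter (fun n => n % q = a) = {a} := by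
      ext n
      rw [mem_filter, mem_range, mem_singleton]
      constructor
      · rintro ⟨h, h'⟩
        rwa [Nat.mod_eq_of_lt h] at h'
      · rintro rfl
        exact ⟨ha, Nat.mod_eq_of_lt ha⟩
    rw [this, card_singleton]
  rw [h3]
  norm_num

theorem Ws_full (S : Finset ℕ) (hS : ∀ p ∈ S, p.Prime) : ∀ q a x : ℕ, (∀ p ∈ S, ¬ p ∣ q) → a < q →
    Ws S q a x (q * ∏ p ∈ S, p ^ 2) = ∏ p ∈ S, ((p : ℝ) ^ 2 - 1) := by
  classical
  induction S using Finset.induction_on with
  | empty =>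
    intro q a x _ ha
    rw [prod_empty, prod_empty, mul_one]
    exact Ws_one ha x
  | insert p S hp ih =>
    intro q a x hq ha
    have hpp : p.Prime := hS p (mem_insert_self _ _)
    have hS' : ∀ p ∈ S, p.Prime := fun p' h => hS p' (mem_insert_of_mem h)
    have ih' := ih hS'
    rw [prod_insert hp, prod_insert hp]
    have hcop : Nat.Coprime q (p ^ 2) := by
      apply Nat.Coprime.pow_right
      rw [Nat.coprime_comm, Nat.Prime.coprime_iff_not_dvd hpp]
      exact hq p (mem_insert_self _ _)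
    obtain ⟨n0, hn1, hn2⟩ := Nat.chineseRemainder hcop a 0
    have hp2 : 0 < p ^ 2 := pow_pos hpp.pos 2
    have hq0 : 0 < q := by omega
    have e1 : ∀ n, (if n % q = a then Gs (insert p S) n else 0) =
        (if n % q = a then Gs S n else 0) - (if n % (q * p ^ 2) = n0 % (q * p ^ 2) then Gs S n else 0) := by
      intro n
      have hG : Gs (insert p S) n = (if p ^ 2 ∣ n then 0 else 1) * Gs S n := by
        unfold Gs
        rw [prod_insert hp]
      have hiff : n % (q * p ^ 2) = n0 % (q * p ^ 2) ↔ (n % q = a ∧ p ^ 2 ∣ n) := by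
        constructor
        · intro h
          have h1 : n ≡ n0 [MOD q * p ^ 2] := h
          constructor
          · have h2 := (h1.of_dvd (Dvd.intro _ rfl) : n ≡ n0 [MOD q]).trans hn1
            have h3 : n % q = a % q := h2
            rwa [Nat.mod_eq_of_lt ha] at h3
          · have h2 := (h1.of_dvd (Dvd.intro_left _ rfl) : n ≡ n0 [MOD p ^ 2]).trans hn2
            exact (Nat.modEq_zero_iff_dvd).1 h2
        · rintro ⟨h1, h2⟩
          have h3 : n ≡ n0 [MOD q] := by
            refine Nat.ModEq.trans ?_ hn1.symm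
            show n % q = a % q
            rw [Nat.mod_eq_of_lt ha, h1]
          have h4 : n ≡ n0 [MOD p ^ 2] := ((Nat.modEq_zero_iff_dvd).2 h2).trans hn2.symm
          exact (Nat.modEq_and_modEq_iff_modEq_mul hcop).1 ⟨h3, h4⟩
      by_cases c1 : n % q = a
      · by_cases c2 : p ^ 2 ∣ n
        · rw [if_pos c1, if_pos c1, if_pos (hiff.2 ⟨c1, c2⟩), hG, if_pos c2]
          ring
        · rw [if_pos c1, if_pos c1, if_neg (fun h => c2 (hiff.1 h).2), hG, if_neg c2]
          ring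
      · rw [if_neg c1, if_neg c1, if_neg (fun h => c1 (hiff.1 h).1)]
        ring
    have e2 : Ws (insert p S) q a x (q * (p ^ 2 * ∏ x ∈ S, x ^ 2)) =
        Ws S q a x (q * (∏ x ∈ S, x ^ 2) * p ^ 2) - Ws S (q * p ^ 2) (n0 % (q * p ^ 2)) x (q * p ^ 2 * ∏ x ∈ S, x ^ 2) := by
      have l1 : q * (p ^ 2 * ∏ x ∈ S, x ^ 2) = q * (∏ x ∈ S, x ^ 2) * p ^ 2 := by ring
      have l2 : q * p ^ 2 * ∏ x ∈ S, x ^ 2 = q * (∏ x ∈ S, x ^ 2) * p ^ 2 := by ring
      rw [l1, l2]
      unfold Ws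
      rw [← sum_sub_distrib]
      exact sum_congr rfl fun n _ => e1 n
    rw [e2]
    have hq' : ∀ p' ∈ S, ¬ p' ∣ q := fun p' h => hq p' (mem_insert_of_mem h)
    rw [Ws_blocks (c := ∏ p ∈ S, ((p : ℝ) ^ 2 - 1)) (fun x => ih' q a x hq' ha), ih']
    · push_cast
      ring
    · intro p' hp' hdvd
      rcases (hS' p' hp').dvd_mul.1 hdvd with h | h
      · exact hq' p' hp' h
      · have h1 := (hS' p' hp').dvd_of_dvd_pow h
        have h2 := (Nat.prime_dvd_prime_iff_eq (hS' p' hp') hpp).1 h1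
        exact hp (h2 ▸ hp')
    · exact Nat.mod_lt _ (by positivity)

/-- the density of the integers free of the squares of the primes in `S` -/
noncomputable def dS (S : Finset ℕ) : ℝ := ∏ p ∈ S, (1 - ((p : ℝ) ^ 2)⁻¹)

theorem dS_mul {S : Finset ℕ} (hS : ∀ p ∈ S, p.Prime) : dS S * ((∏ p ∈ S, p ^ 2 : ℕ) : ℝ) = ∏ p ∈ S, ((p : ℝ) ^ 2 - 1) := by
  unfold dS
  push_cast
  rw [← prod_mul_distrib]
  apply prod_congr rfl
  intro p hp
  have : (p : ℝ) ≠ 0 := by exact_mod_cast (hS p hp).ne_zero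
  field_simp

theorem Gs_01 (S : Finset ℕ) (n : ℕ) : 0 ≤ Gs S n ∧ Gs S n ≤ 1 := by
  unfold Gs
  constructor
  · apply prod_nonneg
    intro p _
    split_ifs <;> norm_num
  · apply prod_le_one
    · intro p _
      split_ifs <;> norm_num
    · intro p _
      split_ifs <;> norm_num

theorem dS_01 {S : Finset ℕ} (hS : ∀ p ∈ S, p.Prime) : 0 ≤ dS S ∧ dS S ≤ 1 := by
  have h : ∀ p ∈ S, (0 : ℝ) ≤ 1 - ((p : ℝ) ^ 2)⁻¹ ∧ 1 - ((p : ℝ) ^ 2)⁻¹ ≤ 1 := by
    intro p hp
    have h1 : (1 : ℝ) ≤ p := by exact_mod_cast (hS p hp).one_lt.le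
    have h2 : ((p : ℝ) ^ 2)⁻¹ ≤ 1 := inv_le_one_of_one_le₀ (one_le_pow₀ h1)
    have h3 : 0 ≤ ((p : ℝ) ^ 2)⁻¹ := by positivity
    constructor <;> linarith
  unfold dS
  exact ⟨prod_nonneg fun p hp => (h p hp).1, prod_le_one (fun p hp => (h p hp).1) fun p hp => (h p hp).2⟩

theorem nul_Gs {S : Finset ℕ} (hS : ∀ p ∈ S, p.Prime) (h3S : ∀ p ∈ S, p ≠ 3) : Nul (fun n => Gs S n - dS S) := by
  apply nul_of_short
  · intro n
    have h1 := Gs_01 S n
    have h2 := dS_01 hS
    rw [abs_le]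
    constructor <;> linarith [h1.1, h1.2, h2.1, h2.2]
  intro m a hm ha h3 ε hε
  have hQ : 0 < ∏ p ∈ S, p ^ 2 := prod_pos fun p hp => pow_pos (hS p hp).pos 2
  refine ⟨3 ^ m * ∏ p ∈ S, p ^ 2, Nat.mul_pos (by positivity) hQ, Eventually.of_forall fun N => ?_⟩
  have hall : ∀ x, shs (fun n => if n % 3 ^ m = a then Gs S n - dS S else 0) (3 ^ m * ∏ p ∈ S, p ^ 2) x = 0 := by
    intro x
    have e : shs (fun n => if n % 3 ^ m = a then Gs S n - dS S else 0) (3 ^ m * ∏ p ∈ S, p ^ 2) x =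
        Ws S (3 ^ m) a x (3 ^ m * ∏ p ∈ S, p ^ 2) - dS S * Ws ∅ (3 ^ m) a x (3 ^ m * ∏ p ∈ S, p ^ 2) := by
      unfold shs Ws
      rw [mul_sum, ← sum_sub_distrib]
      apply sum_congr rfl
      intro n _
      have : Gs ∅ n = 1 := by unfold Gs; rw [prod_empty]
      rw [this]
      show (if n % 3 ^ m = a then Gs S n - dS S else 0) = _
      by_cases c : n % 3 ^ m = a
      · rw [if_pos c, if_pos c, if_pos c]
        ring
      · rw [if_neg c, if_neg c, if_neg c]
        ring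
    have hcop : ∀ p ∈ S, ¬ p ∣ 3 ^ m := by
      intro p hp hdvd
      have h1 := (hS p hp).dvd_of_dvd_pow hdvd
      exact h3S p hp ((Nat.prime_dvd_prime_iff_eq (hS p hp) Nat.prime_three).1 h1)
    rw [e, Ws_full S hS _ _ _ hcop ha, Ws_blocks (fun x => Ws_one ha x), mul_one, dS_mul hS, sub_self]
  have e4 : cN (fun x => ε * ((3 ^ m * ∏ p ∈ S, p ^ 2 : ℕ) : ℝ) <
      |shs (fun n => if n % 3 ^ m = a then Gs S n - dS S else 0) (3 ^ m * ∏ p ∈ S, p ^ 2) x|) N = 0 := by
    unfold cN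
    rw [card_eq_zero, filter_eq_empty_iff]
    intro x _
    rw [hall x, abs_zero]
    exact not_lt.2 (by positivity)
  rw [e4, Nat.cast_zero]
  positivity

/-- the primes below `n` except three -/
noncomputable def pS (n : ℕ) : Finset ℕ := (Nat.primesBelow n).erase 3

theorem pS_lim : Tendsto (fun n : ℕ => dS (pS n)) atTop (𝓝 (27 / (4 * Real.pi ^ 2))) := by
  have h1 := riemannZeta_eulerProduct (s := 2) (by norm_num)
  rw [riemannZeta_two] at h1
  have h2 : Tendsto (fun n : ℕ => ∏ p ∈ Nat.primesBelow n, (1 - ((p : ℝ) ^ 2)⁻¹)⁻¹) atTop (𝓝 (Real.pi ^ 2 / 6)) := by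
    have h3 := (Complex.continuous_re.tendsto _).comp h1
    have e : ((Real.pi : ℂ) ^ 2 / 6).re = Real.pi ^ 2 / 6 := by
      have : ((Real.pi : ℂ) ^ 2 / 6) = ((Real.pi ^ 2 / 6 : ℝ) : ℂ) := by push_cast; rfl
      rw [this, Complex.ofReal_re]
    rw [e] at h3
    refine h3.congr fun n => ?_
    simp only [Function.comp]
    have : ∏ p ∈ Nat.primesBelow n, (1 - (p : ℂ) ^ (-2 : ℂ))⁻¹ =
        ((∏ p ∈ Nat.primesBelow n, (1 - ((p : ℝ) ^ 2)⁻¹)⁻¹ : ℝ) : ℂ) := by
      push_cast
      apply prod_congr rfl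
      intro p _
      congr 2
      rw [Complex.cpow_neg]
      congr 1
      exact_mod_cast Complex.cpow_natCast (p : ℂ) 2
    rw [this, Complex.ofReal_re]
  have h3 := (h2.inv₀ (by positivity)).mul_const (9 / 8)
  have e : (Real.pi ^ 2 / 6)⁻¹ * (9 / 8) = 27 / (4 * Real.pi ^ 2) := by
    field_simp
    norm_num
  rw [e] at h3
  refine h3.congr' ?_
  filter_upwards [eventually_ge_atTop 4] with n hn
  have h4 : 3 ∈ Nat.primesBelow n := by
    rw [Nat.mem_primesBelow]
    exact ⟨by omega, Nat.prime_three⟩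
  unfold dS pS
  rw [← prod_inv_distrib]
  simp only [inv_inv]
  rw [← mul_prod_erase _ _ h4]
  norm_num
  ring

theorem nul_sqf : Nul (fun n => (if Squarefree n then 1 else 0) - 27 / (4 * Real.pi ^ 2)) := by
  classical
  apply nul_approx
  intro ε hε
  obtain ⟨P0, hP0⟩ := Metric.tendsto_atTop.1 pS_lim (ε / 2) (by positivity)
  set P : ℕ := max P0 ⌈2 / ε⌉₊ + 1 with hP
  have hPr : 2 / ε ≤ P := by
    refine (Nat.le_ceil _).trans (Nat.cast_le.2 ?_)
    have := le_max_right P0 ⌈2 / ε⌉₊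
    omega
  have hPpos : (0 : ℝ) < P := lt_of_lt_of_le (by positivity) hPr
  have hd := hP0 (P + 1) (by have := le_max_left P0 ⌈2 / ε⌉₊; omega)
  rw [Real.dist_eq] at hd
  have hprime : ∀ p ∈ pS (P + 1), p.Prime := by
    intro p hp
    unfold pS at hp
    exact (Nat.mem_primesBelow.1 (mem_of_mem_erase hp)).2
  refine ⟨_, nul_Gs hprime (fun p hp => ne_of_mem_erase hp), 0, fun N _ => ?_⟩
  have h1 : ∀ n ∈ (Icc 1 N).filter (fun n => ¬ 3 ∣ n),
      |((if Squarefree n then 1 else 0) - 27 / (4 * Real.pi ^ 2)) - (Gs (pS (P + 1)) n - dS (pS (P + 1)))| ≤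
      ε / 2 + (if (∃ d, P < d ∧ d ^ 2 ∣ n) then 1 else 0) := by
    intro n hn
    rw [mem_filter, mem_Icc] at hn
    have hG01 := Gs_01 (pS (P + 1)) n
    by_cases c : ∃ d, P < d ∧ d ^ 2 ∣ n
    · rw [if_pos c]
      have e : |((if Squarefree n then 1 else 0) - 27 / (4 * Real.pi ^ 2)) - (Gs (pS (P + 1)) n - dS (pS (P + 1)))| ≤
          |dS (pS (P + 1)) - 27 / (4 * Real.pi ^ 2)| + |(if Squarefree n then (1 : ℝ) else 0) - Gs (pS (P + 1)) n| := by
        have := abs_add_le (dS (pS (P + 1)) - 27 / (4 * Real.pi ^ 2)) ((if Squarefree n then (1 : ℝ) else 0) - Gs (pS (P + 1)) n)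
        refine le_trans (le_of_eq ?_) this
        congr 1
        ring
      have e2 : |(if Squarefree n then (1 : ℝ) else 0) - Gs (pS (P + 1)) n| ≤ 1 := by
        rw [abs_le]
        split_ifs <;> constructor <;> linarith [hG01.1, hG01.2]
      linarith
    · rw [if_neg c, add_zero]
      have e3 : Gs (pS (P + 1)) n = if Squarefree n then 1 else 0 := by
        unfold Gs
        by_cases hs : Squarefree n
        · rw [if_pos hs]
          apply prod_eq_one
          intro p hp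
          have hpp := hprime p hp
          rw [if_neg]
          intro h
          rw [sq] at h
          have := hs p h
          exact hpp.one_lt.ne' (Nat.isUnit_iff.1 this)
        · rw [if_neg hs]
          rw [Nat.squarefree_iff_prime_squarefree] at hs
          push Not at hs
          obtain ⟨p, hp, hdvd⟩ := hs
          apply prod_eq_zero (i := p)
          · unfold pS
            rw [mem_erase, Nat.mem_primesBelow]
            refine ⟨?_, ?_, hp⟩
            · rintro rfl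
              apply hn.2
              exact dvd_trans (Dvd.intro _ rfl) hdvd
            · by_contra hlt
              apply c
              refine ⟨p, by omega, ?_⟩
              rw [sq]
              exact hdvd
          · rw [if_pos]
            rw [sq]
            exact hdvd
      rw [e3]
      have e4 : ((if Squarefree n then (1 : ℝ) else 0) - 27 / (4 * Real.pi ^ 2)) - ((if Squarefree n then (1 : ℝ) else 0) - dS (pS (P + 1)))
          = dS (pS (P + 1)) - 27 / (4 * Real.pi ^ 2) := by ring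
      rw [e4]
      exact hd.le
  refine (sum_le_sum h1).trans ?_
  rw [sum_add_distrib, sum_const, nsmul_eq_mul]
  have h2 : (((Icc 1 N).filter (fun n => ¬ 3 ∣ n)).card : ℝ) ≤ N := by
    have := card_filter_le (Icc 1 N) (fun n => ¬ 3 ∣ n)
    rw [Nat.card_Icc, Nat.add_sub_cancel] at this
    exact_mod_cast this
  have h3 : ∑ n ∈ (Icc 1 N).filter (fun n => ¬ 3 ∣ n), (if (∃ d, P < d ∧ d ^ 2 ∣ n) then (1 : ℝ) else 0) ≤ N / P := by
    refine le_trans ?_ (tail_sq' P N (by omega))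
    rw [card_filter, Nat.cast_sum]
    calc ∑ n ∈ (Icc 1 N).filter (fun n => ¬ 3 ∣ n), (if (∃ d, P < d ∧ d ^ 2 ∣ n) then (1 : ℝ) else 0)
        ≤ ∑ n ∈ Icc 1 N, (if (∃ d, P < d ∧ d ^ 2 ∣ n) then (1 : ℝ) else 0) := by
          apply sum_le_sum_of_subset_of_nonneg (filter_subset _ _)
          intro n _ _
          split_ifs <;> norm_num
      _ = _ := by
          apply sum_congr rfl
          intro n _
          split_ifs <;> simp
  have h4 : (N : ℝ) / P ≤ ε / 2 * N := by
    rw [div_le_iff₀ hPpos]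
    rw [div_le_iff₀ hε] at hPr
    have hN : (0 : ℝ) ≤ N := Nat.cast_nonneg N
    nlinarith
  have h5 : (((Icc 1 N).filter (fun n => ¬ 3 ∣ n)).card : ℝ) * (ε / 2) ≤ N * (ε / 2) :=
    mul_le_mul_of_nonneg_right h2 (by positivity)
  linarith

end Pool.Agent.V11311.GT
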