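import Pool.Agent.V11311.GT.R
import Pool.Agent.V11311.GT.S

/-! Generic trajectories, part Z: final statements. -/

set_option autoImplicit false

namespace Pool.Agent.V11311.GT

open Finset Filter Topology Pool.Agent.V11311.PD Pool.Agent.V11311.PL Pool.Agent.V11311.FP

open Pool.Agent.Helper894.Collatz (T)
open Pool.Agent.H319R2.Lln (mu mu_lower mu_upper)
open Pool.Agent.H499R2.ND (Dn Bas mu_pos' zd_iff cnt cnt_eq zd_or zd_mono zd_log dn_congr)
open Pool.Agent.H376R2.MR (lam)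

theorem dn_true : Dn (fun _ => True) 1 := by
  classical
  unfold Dn
  refine tendsto_const_nhds.congr' ?_
  filter_upwards [eventually_ge_atTop 1] with N hN
  rw [cnt_eq]
  have h0 : (N : ℝ) ≠ 0 := by
    have : N ≠ 0 := by omega
    exact_mod_cast this
  simp only [filter_true, Nat.card_Icc, Nat.add_sub_cancel]
  field_simp

theorem dn_one {P : ℕ → Prop} (h : Dn (fun n => ¬ P n) 0) : Dn P 1 :=
  dn_congr dn_true h fun n _ hn => ⟨fun _ => not_not.1 hn, fun _ => trivial⟩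

theorem mu_iff (n t : ℕ) : ((t : ℝ) ≤ 2 / Real.log (4 / 3) * Real.log n) ↔ mu * t ≤ Real.log n := by
  have hmu := mu_pos'
  have hc : 2 / Real.log (4 / 3) = 1 / mu := by
    unfold mu; rw [one_div_div]
  rw [hc, one_div_mul_eq_div, le_div_iff₀ hmu, mul_comm]

/-- the two statements -/
theorem both {F : ℕ → ℂ} (h1 : ∀ n, ‖F n‖ ≤ 1) (hF : Gen F) {δ : ℝ} (hδ : Dn Bas δ) {ε : ℝ} (hε : 0 < ε) :
    Dn (fun n => ∀ t : ℕ, (t : ℝ) ≤ 2 / Real.log (4 / 3) * Real.log n → ‖∑ j ∈ range t, F (T^[j] n)‖ ≤ ε * Real.log n) 1 ∧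
    Dn (fun n => ∃ τ : ℕ, T^[τ] n = 1 ∧ (∀ j < τ, T^[j] n ≠ 1) ∧
      |(τ : ℝ) - 2 / Real.log (4 / 3) * Real.log n| ≤ ε * Real.log n ∧
      ‖∑ j ∈ range τ, F (T^[j] n)‖ ≤ ε * τ) δ := by
  refine ⟨?_, reach_gen h1 hF hδ hε⟩
  apply dn_one
  refine zd_mono (hF ε hε) fun n _ h h2 => h fun t ht => h2 t ((mu_iff n t).1 ht)

theorem cN_cnt (P : ℕ → Prop) (N : ℕ) : (cN P N : ℝ) = Pool.Agent.H499R2.ND.cnt P N := by
  classical
  rw [cnt_eq]
  unfold cN
  congr!

theorem gen_lam {M : ℕ} (hM : 0 < M) (r : ℕ) : Gen (fun n => ((if n % M = r then (lam n : ℝ) else 0 : ℝ) : ℂ)) := by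
  apply gen_real _ (nul_lam hM r)
  intro n
  split_ifs
  · unfold lam
    push_cast
    rw [abs_pow]
    simp
  · simp

theorem gen_moeb {M : ℕ} (hM : 0 < M) (r : ℕ) :
    Gen (fun n => ((if n % M = r then ((ArithmeticFunction.moebius n : ℤ) : ℝ) else 0 : ℝ) : ℂ)) := by
  apply gen_real _ (nul_moeb hM r)
  intro n
  split_ifs
  · exact_mod_cast ArithmeticFunction.abs_moebius_le_one
  · simp

theorem sqf_const : 0 < 27 / (4 * Real.pi ^ 2) ∧ 27 / (4 * Real.pi ^ 2) < 1 := by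
  have h := Real.pi_gt_three
  constructor
  · positivity
  · rw [div_lt_one (by positivity)]
    nlinarith

theorem gen_sqf : Gen (fun n => (((if Squarefree n then 1 else 0) - 27 / (4 * Real.pi ^ 2) : ℝ) : ℂ)) := by
  apply gen_real _ nul_sqf
  intro n
  have := sqf_const
  rw [abs_le]
  split_ifs <;> constructor <;> linarith [this.1, this.2]

open scoped Classical in
theorem gen_dens {A : Set ℕ} (h : Dn (fun n => n ∈ A) 0) : Gen (fun n => ((if n ∈ A then 1 else 0 : ℝ) : ℂ)) := by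
  rw [zd_iff] at h
  apply gen_real
  · intro n
    split_ifs <;> simp
  · apply nul_dens (A := A)
    · intro n
      split_ifs <;> simp
    · intro n hn
      rw [if_neg hn]
    · intro ε hε
      refine (h ε hε).mono fun N hN => ?_
      rw [cN_cnt]
      exact hN

end Pool.Agent.V11311.GT
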