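import Pool.Agent.V11311.PD.P2
import Pool.Agent.V11311.FP.V

/-! Uniform densities of the almost invariant sets above `Y ^ (1 + η)`. -/

set_option autoImplicit false

namespace Pool.Agent.V11311.GT

open Pool.Agent.H320R2.PD Finset Filter Topology

open Pool.Agent.H499R2.ND hiding La Ea Me FC

open Pool.Agent.H499R2.CZ Pool.Agent.H499R2.LT Pool.Agent.H499R2.LT.B1

open Pool.Agent.V11311.PD

/-- EQUIDISTRIBUTION of the odd elements in the classes mod `3^m` -/
theorem equi_oddR {R : ℝ} (hR : 50 ≤ R) (B : ℕ) : ∃ C : ℝ, 0 < C ∧ ∀ (Y : ℝ) (S : Set ℤ), AI 1 (Rg Y) S → ∀ A : ℝ, 0 < A →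
    600 ≤ Real.log A / R → Y < Real.exp (Real.log A - 2 * (Real.log A / R)) → ∀ m : ℕ, m ≤ 1 → ∀ c c' : ℤ,
      ((cls S A (2 * A) m 1 c).card : ℝ)
        ≤ (cls S A (2 * A) m 1 c').card + C / (Real.log A) ^ B * (A / (2 * 3 ^ m)) := by
  obtain ⟨C, hC, herr⟩ := err_bound B 1
  refine ⟨3 * (C * R ^ B), by positivity, ?_⟩
  intro Y S hS A hA ht hY m hm c c'
  set t := Real.log A with htdef
  have hR0 : 0 < R := by linarith
  have htpos : 0 < t := by
    by_contra hcon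
    push Not at hcon
    have : t / R ≤ 0 := div_nonpos_of_nonpos_of_nonneg hcon hR0.le
    linarith
  have hrt : t / R ≤ t / 50 := div_le_div_of_nonneg_left htpos.le (by norm_num) hR
  have hexpA : Real.exp t = A := Real.exp_log hA
  obtain ⟨k, hk⟩ : ∃ k : ℕ, k = ⌊t / R⌋₊ := ⟨_, rfl⟩
  have hk1 : (k : ℝ) ≤ t / R := by rw [hk]; exact Nat.floor_le (by linarith)
  have hk2 : t / R - 1 ≤ k := by rw [hk]; linarith [Nat.lt_floor_add_one (t / R)]
  have hkR : (500 : ℝ) ≤ k := by linarith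
  have hk1N : 1 ≤ k := by
    have : (1 : ℝ) ≤ k := by linarith
    exact_mod_cast this
  set A0 := Real.exp (2 * (k : ℝ) + 1) with hA0
  have hA0pos : 0 < A0 := Real.exp_pos _
  have hlogA0 : Real.log A0 = 2 * (k : ℝ) + 1 := Real.log_exp _
  have hA0A : A0 ≤ A := by
    rw [hA0, ← hexpA]
    apply Real.exp_le_exp.2
    linarith
  obtain ⟨m', hm'⟩ : ∃ m' : ℕ, m' = ⌊Real.sqrt (0.8 * (2 * (k : ℝ) + 1))⌋₊ := ⟨_, rfl⟩
  have hm'sq : (m' : ℝ) ^ 2 ≤ 0.8 * (2 * (k : ℝ) + 1) := by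
    have h1 : (m' : ℝ) ≤ Real.sqrt (0.8 * (2 * (k : ℝ) + 1)) := by
      rw [hm']; exact Nat.floor_le (Real.sqrt_nonneg _)
    calc (m' : ℝ) ^ 2 ≤ (Real.sqrt (0.8 * (2 * (k : ℝ) + 1))) ^ 2 :=
          pow_le_pow_left₀ (Nat.cast_nonneg _) h1 2
      _ = _ := Real.sq_sqrt (by positivity)
  have hm'k : m' ≤ k := by
    have : (m' : ℝ) ≤ k := by
      have h0 : (0 : ℝ) ≤ m' := Nat.cast_nonneg _
      by_contra hcon
      push Not at hcon
      nlinarith
    exact_mod_cast this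
  have hmR : (m : ℝ) ≤ 1 := by exact_mod_cast hm
  have hE0 := herr A0 hA0pos (by rw [hlogA0]; linarith) k m m' (by
      rw [hlogA0]
      have h0 : (0 : ℝ) ≤ m := Nat.cast_nonneg _
      nlinarith) (by
      rw [hlogA0]
      symm
      rw [Nat.floor_eq_iff (by positivity)]
      constructor <;> linarith) (by rw [hlogA0]; exact hm')
  have hE : Err 1 A k m m' ≤ C * R ^ B / t ^ B := by
    refine (Err_mono 1 hA0pos hA0A k m m').trans (hE0.trans ?_)
    rw [hlogA0]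
    have h1 : t / R ≤ 2 * (k : ℝ) + 1 := by linarith
    have h2 : (t / R) ^ B ≤ (2 * (k : ℝ) + 1) ^ B := pow_le_pow_left₀ (by positivity) h1 B
    calc C / (2 * (k : ℝ) + 1) ^ B ≤ C / (t / R) ^ B :=
          div_le_div_of_nonneg_left hC.le (by positivity) h2
      _ = _ := by rw [div_pow]; field_simp
  have hYr : 0 < A / (2 * 3 ^ m) := by positivity
  -- the path condition
  have hpow := pow_tm_le (t := 2 * (t / R)) (by positivity) (k := k) (by linarith)
  have hYA : Y * 2 ^ (41 * k / 20) < A := by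
    rcases le_or_gt Y 0 with h0 | h0
    · have : Y * 2 ^ (41 * k / 20) ≤ 0 := mul_nonpos_of_nonpos_of_nonneg h0 (by positivity)
      linarith
    · calc Y * 2 ^ (41 * k / 20) < Real.exp (t - 2 * (t / R)) * 2 ^ (41 * k / 20) :=
            mul_lt_mul_of_pos_right hY (by positivity)
        _ ≤ Real.exp (t - 2 * (t / R)) * Real.exp (0.7106 * (2 * (t / R))) :=
            mul_le_mul_of_nonneg_left hpow (Real.exp_pos _).le
        _ = Real.exp (t - 2 * (t / R) + 0.7106 * (2 * (t / R))) := by rw [Real.exp_add]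
        _ ≤ A := by
            rw [← hexpA]
            apply Real.exp_le_exp.2
            linarith
  have hlen : ∀ w ∈ GW (3 * k) k ((39 * k + 19) / 20) (41 * k / 20), (∀ a ∈ w, 1 ≤ a) ∧
      w.sum ≤ 41 * k / 20 := by
    intro w hw
    unfold GW at hw; rw [mem_filter] at hw
    exact ⟨(FW_props hw.1).2, hw.2.2⟩
  have h1 := starG' (d := 1) odd_one isCoprime_one_left (S := S) (fun _ : ℕ => S ∪ ∅) hA
    (fun w hw M x hM hx hAM _ hMS hV => by
      rw [Set.union_empty]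
      exact (AI_word hS hA hYA (hlen w hw).1 (hlen w hw).2 hM hx hAM hV).1 hMS) hk1N hm'k (m := m) c
  have h2 := starG' (d := 1) odd_one isCoprime_one_left (S := Sᶜ) (fun _ : ℕ => Sᶜ ∪ ∅) hA
    (fun w hw M x hM hx hAM _ hMS hV => by
      rw [Set.union_empty]
      exact (AI_word (AI_compl hS) hA hYA (hlen w hw).1 (hlen w hw).2 hM hx hAM hV).1 hMS)
    hk1N hm'k (m := m) c'
  have h3 := MnG_add 1 (fun _ : ℕ => S) ∅ hA (m := m) hm'k (le_refl (0 : ℝ)) (fun T _ _ => PB_empty _ _)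
  have h4 := cls_compl S A (2 * A) m 1 c'
  have h5 := le_cls_univ A (2 * A) m isCoprime_one_left c'
  rw [show 2 * A - A = A by ring] at h5
  -- `1 + 2^Tm ≤ Err * Y`
  have h6 : 1 + 2 ^ (41 * k / 20) ≤ Err 1 A k m m' * (A / (2 * 3 ^ m)) := by
    unfold Err
    set G := GW (3 * k) k ((39 * k + 19) / 20) (41 * k / 20) with hG
    set δ := ∑ T ∈ range (k * (3 * k) + 1), dev (FWT (3 * k) k T) wwt (fun w => (Wo w : ℤ)) (k + m) m'
      with hδ
    set X := (2 : ℝ) ^ (41 * k / 20)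
    set Y := A / (2 * 3 ^ m) with hYdef
    set Z := 2 * 3 ^ m / A with hZ
    set μ := ∑ w ∈ G, wwt w with hμ
    have hfac : Y * Z = 1 := by rw [hYdef, hZ]; field_simp
    have : ((1 + X * Z) * δ + (1 - μ) + (1 + (|((1 : ℤ) : ℝ)| + 2) * X) * Z) * Y
        = (Y + X * (Y * Z)) * δ + Y * (1 - μ) + (1 + (|((1 : ℤ) : ℝ)| + 2) * X) * (Y * Z) := by ring
    rw [this, hfac]
    have hX : 0 < X := by positivity
    have hδnn : 0 ≤ δ := sum_nonneg fun _ _ => sum_nonneg fun _ _ => abs_nonneg _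
    have hμ1 : μ ≤ 1 := by
      refine le_trans ?_ (sum_wwt_le (3 * k) k)
      rw [hμ, hG]; unfold GW
      apply sum_le_sum_of_subset_of_nonneg (filter_subset _ _)
      intro w _ _; unfold wwt; positivity
    have e1 : 0 ≤ (Y + X * 1) * δ := by positivity
    have e2 : 0 ≤ Y * (1 - μ) := mul_nonneg hYr.le (by linarith)
    have e3 : 0 ≤ |((1 : ℤ) : ℝ)| * X := by positivity
    nlinarith
  have h7 : Err 1 A k m m' * (A / (2 * 3 ^ m)) ≤ C * R ^ B / t ^ B * (A / (2 * 3 ^ m)) :=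
    mul_le_mul_of_nonneg_right hE hYr.le
  have h8 : (3 * (C * R ^ B)) / t ^ B * (A / (2 * 3 ^ m))
      = 3 * (C * R ^ B / t ^ B * (A / (2 * 3 ^ m))) := by ring
  rw [h8]
  linarith


/-- EQUIDISTRIBUTION mod 3 -/
theorem equi_allR {R : ℝ} (hR : 50 ≤ R) (B : ℕ) : ∃ K : ℝ, 0 < K ∧ ∀ (Y : ℝ) (S : Set ℤ), AI 1 (Rg Y) S → ∀ A : ℝ, 0 < A →
    1200 ≤ Real.log A / R → Y < Real.exp (Real.log A - 4 * (Real.log A / R)) → ∀ c c' : ℤ,
      ((wc S A (2 * A) 3 c).card : ℝ) ≤ (wc S A (2 * A) 3 c').card + K / (Real.log A) ^ B * A := by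
  obtain ⟨C, hC, he⟩ := equi_oddR hR B
  have hR0 : 0 < R := by linarith
  refine ⟨C * 2 ^ B + 4 * (B.factorial * R ^ B), by positivity, ?_⟩
  intro Y S hS A hA ht hY c c'
  set t := Real.log A with htdef
  have htpos : 0 < t := by
    by_contra hcon
    push Not at hcon
    have : t / R ≤ 0 := div_nonpos_of_nonpos_of_nonneg hcon hR0.le
    linarith
  have hrt : t / R ≤ t / 50 := div_le_div_of_nonneg_left htpos.le (by norm_num) hR
  have hl2 := Real.log_two_gt_d9
  have hl2' := Real.log_two_lt_d9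
  have hl20 : 0 < Real.log 2 := by linarith
  obtain ⟨n, hn⟩ : ∃ n : ℕ, n = ⌊t / R / Real.log 2⌋₊ := ⟨_, rfl⟩
  have hn1 : (n : ℝ) * Real.log 2 ≤ t / R := by
    have : (n : ℝ) ≤ t / R / Real.log 2 := by rw [hn]; exact Nat.floor_le (by positivity)
    rwa [le_div_iff₀ hl20] at this
  have hn2 : t / R < ((n : ℝ) + 1) * Real.log 2 := by
    have : t / R / Real.log 2 < n + 1 := by rw [hn]; exact Nat.lt_floor_add_one _
    rwa [div_lt_iff₀ hl20] at this
  set τ := t - t / R with hτ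
  have hτpos : 0 < τ := by rw [hτ]; linarith
  have hYlt : ∀ A' : ℝ, 0 < A' → τ ≤ Real.log A' → Y < Real.exp (Real.log A' - 2 * (Real.log A' / R)) := by
    intro A' _ h1
    refine lt_of_lt_of_le hY ?_
    apply Real.exp_le_exp.2
    have h2 : (Real.log A' - τ) / R ≤ (Real.log A' - τ) / 50 :=
      div_le_div_of_nonneg_left (by linarith) (by norm_num) hR
    have h3 : (Real.log A' - τ) / R = Real.log A' / R - τ / R := sub_div _ _ _
    have h4 : τ / R ≤ t / R := div_le_div_of_nonneg_right (by rw [hτ]; linarith) hR0.le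
    rw [hτ] at h1 h2 h3 h4
    linarith
  have hRlog : ∀ A' : ℝ, τ ≤ Real.log A' → 600 ≤ Real.log A' / R := by
    intro A' h1
    have h2 : t / 2 ≤ Real.log A' := by rw [hτ] at h1; linarith
    calc (600 : ℝ) ≤ (t / R) / 2 := by linarith
      _ = (t / 2) / R := by ring
      _ ≤ Real.log A' / R := div_le_div_of_nonneg_right h2 hR0.le
  have hhalf := halving hS (τ := τ) (E := C / τ ^ B / 6) hτpos.le (by positivity)
    (fun A' hA' h1 => by
      refine lt_of_lt_of_le (hYlt A' hA' h1) ?_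
      calc Real.exp (Real.log A' - 2 * (Real.log A' / R)) ≤ Real.exp (Real.log A') := by
            apply Real.exp_le_exp.2
            linarith [hRlog A' h1]
        _ = A' := Real.exp_log hA')
    (fun A' hA' h1 c c' => by
      have h2 := he Y S hS A' hA' (hRlog A' h1) (hYlt A' hA' h1) 1 (le_refl _) c c'
      have h3 : C / (Real.log A') ^ B * (A' / (2 * 3 ^ 1)) ≤ C / τ ^ B / 6 * A' := by
        have h4 : τ ^ B ≤ (Real.log A') ^ B := pow_le_pow_left₀ hτpos.le h1 B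
        have h5 : C / (Real.log A') ^ B ≤ C / τ ^ B :=
          div_le_div_of_nonneg_left hC.le (by positivity) h4
        have h6 := mul_le_mul_of_nonneg_right h5 (by positivity : 0 ≤ A' / 6)
        calc C / (Real.log A') ^ B * (A' / (2 * 3 ^ 1)) = C / (Real.log A') ^ B * (A' / 6) := by norm_num
          _ ≤ C / τ ^ B * (A' / 6) := h6
          _ = _ := by ring
      linarith) n
  have h1 := hhalf A hA (by rw [hτ]; linarith) c c'
  refine h1.trans ?_
  apply add_le_add_right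
  apply mul_le_mul_of_nonneg_right _ hA.le
  have h2 : 2 * (C / τ ^ B / 6) ≤ C * 2 ^ B / t ^ B := by
    have h3 : (t / 2) ^ B ≤ τ ^ B := pow_le_pow_left₀ (by positivity) (by rw [hτ]; linarith) B
    have h4 : C / τ ^ B ≤ C / (t / 2) ^ B := div_le_div_of_nonneg_left hC.le (by positivity) h3
    have h5 : C / (t / 2) ^ B = C * 2 ^ B / t ^ B := by rw [div_pow]; field_simp
    rw [h5] at h4
    have h6 : 0 < C / τ ^ B := by positivity
    linarith
  have h3 : 2 * (1 / 2 : ℝ) ^ n ≤ 4 * (B.factorial * R ^ B) / t ^ B := by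
    have h4 := exp_neg_le B hR0 htpos
    have h5 : (1 / 2 : ℝ) ^ n ≤ 2 * Real.exp (-(t / R)) := by
      have h6 : (1 / 2 : ℝ) ^ n = 2 * Real.exp (-(((n : ℝ) + 1) * Real.log 2)) := by
        rw [Real.exp_neg, show ((n : ℝ) + 1) * Real.log 2 = ((n + 1 : ℕ) : ℝ) * Real.log 2 by push_cast; ring,
          Real.exp_nat_mul, Real.exp_log (by norm_num), pow_succ, one_div, inv_pow, mul_inv]
        ring
      rw [h6]
      have : Real.exp (-(((n : ℝ) + 1) * Real.log 2)) ≤ Real.exp (-(t / R)) := by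
        apply Real.exp_le_exp.2; linarith
      linarith
    rw [mul_div_assoc]
    linarith
  rw [add_div]
  linarith

/-- the harmonic relation with uniform constants -/
theorem harm_unifR {R : ℝ} (hR : 50 ≤ R) (B : ℕ) : ∃ K : ℝ, 0 < K ∧ ∀ (Y : ℝ) (S : Set ℤ), AI 1 (Rg Y) S → ∀ A : ℝ, 0 < A →
    1200 ≤ Real.log A / R → Y < Real.exp (Real.log A - 4 * (Real.log A / R)) →
      |((wc S A (2 * A) 1 0).card : ℝ) - (wc S (A / 2) (2 * (A / 2)) 1 0).card
        - (wc S (3 * A / 2) (2 * (3 * A / 2)) 1 0).card / 3| ≤ K / (Real.log A) ^ B * A := by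
  obtain ⟨K, hK, he⟩ := equi_allR hR B
  refine ⟨2 * K + 2 * (B.factorial * 1 ^ B), by positivity, ?_⟩
  intro Y S hS A hA ht hY
  have hR0 : 0 < R := by linarith
  have htpos : 0 < Real.log A := by
    by_contra hcon
    push Not at hcon
    have : Real.log A / R ≤ 0 := div_nonpos_of_nonpos_of_nonneg hcon hR0.le
    linarith
  have hYA : Y < A := by
    refine lt_of_lt_of_le hY ?_
    calc Real.exp (Real.log A - 4 * (Real.log A / R)) ≤ Real.exp (Real.log A) := by
          apply Real.exp_le_exp.2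
          linarith
      _ = A := Real.exp_log hA
  have hr := wc_Rg hYA (2 * A) 1 0
  have h1 : ((wc S A (2 * A) 1 0).card : ℝ)
      ≤ (cls S A (2 * A) 0 1 0).card + (wc S (A / 2) (2 * (A / 2)) 1 0).card := by
    have := hS.parity_le A
    rw [hr, add_zero] at this
    exact_mod_cast this
  have h1' : ((cls S A (2 * A) 0 1 0).card : ℝ) + (wc S (A / 2) (2 * (A / 2)) 1 0).card
      ≤ (wc S A (2 * A) 1 0).card := by
    have := hS.parity_ge A
    rw [hr, add_zero] at this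
    exact_mod_cast this
  have h2 : ((cls S A (2 * A) 0 1 0).card : ℝ)
      ≤ (wc S (3 * A / 2 + ((1 : ℤ) : ℝ) / 2) (2 * (3 * A / 2) + ((1 : ℤ) : ℝ) / 2) 3 (2 * 1)).card := by
    have := hS.odd_le odd_one A
    rw [hr, add_zero] at this
    exact_mod_cast this
  have h2' : ((wc S (3 * A / 2 + ((1 : ℤ) : ℝ) / 2) (2 * (3 * A / 2) + ((1 : ℤ) : ℝ) / 2) 3 (2 * 1)).card : ℝ)
      ≤ (cls S A (2 * A) 0 1 0).card := by
    have := hS.odd_ge odd_one A
    rw [hr, add_zero] at this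
    exact_mod_cast this
  set L := 3 * A / 2 with hL
  have hLpos : 0 < L := by positivity
  have hlogL : Real.log A ≤ Real.log L := Real.log_le_log hA (by rw [hL]; linarith)
  have h3 := wc_shift_le S L (((1 : ℤ) : ℝ) / 2) 3 (2 * 1)
  have h4 := wc_shift_ge S L (((1 : ℤ) : ℝ) / 2) 3 (2 * 1)
  have hthree : ((wc S L (2 * L) 1 0).card : ℝ)
      = (wc S L (2 * L) 3 0).card + (wc S L (2 * L) 3 1).card + (wc S L (2 * L) 3 2).card := by
    exact_mod_cast wc_three S L (2 * L)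
  have he' : ∀ c c' : ℤ, ((wc S L (2 * L) 3 c).card : ℝ)
        ≤ (wc S L (2 * L) 3 c').card + K / (Real.log L) ^ B * L :=
    fun c c' => he Y S hS L hLpos (ht.trans (div_le_div_of_nonneg_right hlogL hR0.le))
      (lt_of_lt_of_le hY (Real.exp_le_exp.2 (by
        have h6 : (Real.log L - Real.log A) / R ≤ (Real.log L - Real.log A) / 50 :=
          div_le_div_of_nonneg_left (by linarith) (by norm_num) hR
        have h7 : (Real.log L - Real.log A) / R = Real.log L / R - Real.log A / R := sub_div _ _ _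
        linarith))) c c'
  set D := K / (Real.log L) ^ B * L with hD
  have u0 := he' (2 * 1) 0
  have u1 := he' (2 * 1) 1
  have u2 := he' (2 * 1) 2
  have v0 := he' 0 (2 * 1)
  have v1 := he' 1 (2 * 1)
  have v2 := he' 2 (2 * 1)
  have hDle : D ≤ 3 / 2 * (K / (Real.log A) ^ B * A) := by
    rw [hD, hL]
    have : K / (Real.log (3 * A / 2)) ^ B ≤ K / (Real.log A) ^ B := by
      apply div_le_div_of_nonneg_left hK.le (by positivity)
      exact pow_le_pow_left₀ htpos.le hlogL B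
    calc K / (Real.log (3 * A / 2)) ^ B * (3 * A / 2) ≤ K / (Real.log A) ^ B * (3 * A / 2) :=
          mul_le_mul_of_nonneg_right this (by positivity)
      _ = _ := by ring
  have hlLpos : 0 < Real.log L := by linarith
  have hD0 : 0 ≤ D := by positivity
  have hd2 : |((1 : ℤ) : ℝ) / 2| = 1 / 2 := by norm_num
  rw [hd2] at h3 h4
  -- the constant is absorbed
  have habs : 2 * (B.factorial * 1 ^ B) / (Real.log A) ^ B * A ≥ 2 := by
    have h5 := exp_neg_le B (by norm_num : (0 : ℝ) < 1) htpos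
    rw [div_one, Real.exp_neg, Real.exp_log hA] at h5
    have h6 := mul_le_mul_of_nonneg_right h5 hA.le
    rw [inv_mul_cancel₀ hA.ne'] at h6
    have h7 : 2 * ((B.factorial : ℝ) * 1 ^ B) / (Real.log A) ^ B * A
        = 2 * ((B.factorial : ℝ) * 1 ^ B / (Real.log A) ^ B * A) := by ring
    rw [h7]
    linarith
  have hfin : (2 * K + 2 * (B.factorial * 1 ^ B)) / (Real.log A) ^ B * A
      = 2 * (K / (Real.log A) ^ B * A) + 2 * (B.factorial * 1 ^ B) / (Real.log A) ^ B * A := by ring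
  rw [hfin]
  have hKA : 0 ≤ K / (Real.log A) ^ B * A := by positivity
  rw [abs_le]
  constructor <;> linarith

theorem Fd_harm_unifR {R : ℝ} (hR : 50 ≤ R) (B : ℕ) : ∃ K : ℝ, 0 < K ∧ ∀ (Y : ℝ) (S : Set ℤ), AI 1 (Rg Y) S → ∀ t : ℝ,
    1200 ≤ t / R → Y < Real.exp (t - 4 * (t / R)) →
      |Fd S t - (Fd S (t - Real.log 2) + Fd S (t + Real.log (3 / 2))) / 2| ≤ K / t ^ B := by
  obtain ⟨K, hK, h⟩ := harm_unifR hR B
  refine ⟨K, hK, fun Y S hS t ht hY => ?_⟩
  have he := Real.exp_pos t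
  have h1 := h Y S hS (Real.exp t) he (by rw [Real.log_exp]; exact ht) (by rw [Real.log_exp]; exact hY)
  rw [Real.log_exp] at h1
  have e1 : Real.exp (t - Real.log 2) = Real.exp t / 2 := by
    rw [Real.exp_sub, Real.exp_log (by norm_num)]
  have e2 : Real.exp (t + Real.log (3 / 2)) = 3 * Real.exp t / 2 := by
    rw [Real.exp_add, Real.exp_log (by norm_num)]; ring
  have w0 := Fd_win S t
  have w1 := Fd_win S (t - Real.log 2)
  have w2 := Fd_win S (t + Real.log (3 / 2))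
  rw [e1] at w1
  rw [e2] at w2
  rw [← w0, ← w1, ← w2] at h1
  set A := Real.exp t with hA
  have hrel : Fd S t * (3 * A) - Fd S (t - Real.log 2) * (3 * (A / 2))
      - Fd S (t + Real.log (3 / 2)) * (3 * (3 * A / 2)) / 3
      = (Fd S t - (Fd S (t - Real.log 2) + Fd S (t + Real.log (3 / 2))) / 2) * (3 * A) := by ring
  rw [hrel, abs_mul, abs_of_pos (by positivity : (0 : ℝ) < 3 * A)] at h1
  have hX := abs_nonneg (Fd S t - (Fd S (t - Real.log 2) + Fd S (t + Real.log (3 / 2))) / 2)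
  have htpos : 0 < t := by
    by_contra hcon
    push Not at hcon
    have : t / R ≤ 0 := div_nonpos_of_nonpos_of_nonneg hcon (by linarith)
    linarith
  have hKt : 0 < K / t ^ B := by positivity
  by_contra hcon
  push Not at hcon
  nlinarith


open MeasureTheory Pool.Agent.V11311.FP in
/-- the window densities of the almost invariant sets converge uniformly -/
theorem Fd_unifR {θ : ℝ} (hθ : 1 < θ) (ε : ℝ) (hε : 0 < ε) : ∃ Y0 : ℝ, 1 ≤ Y0 ∧ ∀ Y : ℝ, Y0 ≤ Y → ∀ S : Set ℤ, AI 1 (Rg Y) S → ∀ l : ℝ,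
    Tendsto (Fd S) atTop (𝓝 l) → ∀ t : ℝ, θ * Real.log Y ≤ t → |Fd S t - l| ≤ ε := by
  set θ' := (1 + θ) / 2 with hθ'
  have h1θ' : 1 < θ' := by rw [hθ']; linarith
  have hθ'θ : θ' < θ := by rw [hθ']; linarith
  set R : ℝ := 50 + 8 * θ' / (θ' - 1) with hRdef
  have hq : 0 < 8 * θ' / (θ' - 1) := by
    apply div_pos <;> linarith
  have hR : 50 ≤ R := by rw [hRdef]; linarith
  have hR0 : 0 < R := by linarith
  have hRθ : 8 * θ' ≤ R * (θ' - 1) := by
    have h1 : 8 * θ' / (θ' - 1) * (θ' - 1) = 8 * θ' := div_mul_cancel₀ _ (by linarith)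
    have h2 : R * (θ' - 1) = 50 * (θ' - 1) + 8 * θ' / (θ' - 1) * (θ' - 1) := by rw [hRdef]; ring
    rw [h2, h1]
    linarith
  obtain ⟨K, hK, h⟩ := Fd_harm_unifR hR 2
  obtain ⟨Rc, T, hRc, hc⟩ := conv_unif (L := 10) (C := K) (by norm_num) hK.le ε hε
  have hev : ∀ᶠ Y : ℝ in atTop, max (max (1200 * R) T) (Rc / (θ - θ')) ≤ Real.log Y :=
    Real.tendsto_log_atTop.eventually_ge_atTop _
  obtain ⟨Y0, hY0⟩ := eventually_atTop.1 hev
  refine ⟨max Y0 1, le_max_right _ _, ?_⟩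
  intro Y hY S hS l hl t ht
  have hY1 : 1 ≤ Y := (le_max_right _ _).trans hY
  have h1 := hY0 Y ((le_max_left _ _).trans hY)
  have h2 : 1200 * R ≤ Real.log Y := (le_max_left _ _).trans ((le_max_left _ _).trans h1)
  have h3 : T ≤ Real.log Y := (le_max_right _ _).trans ((le_max_left _ _).trans h1)
  have h4 : Rc / (θ - θ') ≤ Real.log Y := (le_max_right _ _).trans h1
  rw [div_le_iff₀ (by linarith)] at h4
  have hL : 0 < Real.log Y := by linarith [mul_pos (by norm_num : (0 : ℝ) < 1200) hR0]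
  have hLθ : Real.log Y ≤ θ' * Real.log Y := le_mul_of_one_le_left hL.le h1θ'.le
  apply hc (Fd S) (θ' * Real.log Y) _ (by linarith) l hl t (by nlinarith)
  refine ⟨Fd_meas S, Fd_nonneg S, Fd_le_one S, fun t s ht hs hs1 => Fd_lip S t s (by nlinarith) hs hs1, ?_⟩
  intro u hu
  have hu0 : 0 < u := by linarith
  apply h Y S hS u (by rw [le_div_iff₀ hR0]; linarith)
  calc Y = Real.exp (Real.log Y) := (Real.exp_log (by linarith)).symm
    _ < Real.exp (u - 4 * (u / R)) := by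
        apply Real.exp_lt_exp.2
        -- `u (1 - 4 / R) > log Y`
        have e1 : u - 4 * (u / R) = u * (R - 4) / R := by field_simp
        rw [e1, lt_div_iff₀ hR0]
        have e2 : θ' * Real.log Y * (R - 4) ≤ u * (R - 4) := mul_le_mul_of_nonneg_right hu (by linarith)
        have e3 : Real.log Y * R < θ' * Real.log Y * (R - 4) := by
          have e4 : θ' * Real.log Y * (R - 4) = Real.log Y * (R * (θ' - 1) - 4 * θ' + R) := by ring
          rw [e4]
          apply mul_lt_mul_of_pos_left _ hL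
          linarith
        linarith

open Pool.Agent.V11311.FP

/-- uniform natural densities of the almost invariant sets -/
theorem G_unifR {θ : ℝ} (hθ : 1 < θ) (ε : ℝ) (hε : 0 < ε) : ∃ Y0 : ℝ, 1 ≤ Y0 ∧ ∀ Y : ℝ, Y0 ≤ Y → ∀ S : Set ℤ, AI 1 (Rg Y) S → ∀ D : ℝ,
    Tendsto (fun X : ℝ => G S X / X) atTop (𝓝 D) → ∀ X : ℝ, Y ^ θ ≤ X → |G S X / X - D| ≤ ε := by
  obtain ⟨Y1, hY1, h⟩ := Fd_unifR (θ := (1 + θ) / 2) (by linarith) (ε / 6) (by positivity)
  have e1 : ∀ᶠ Y : ℝ in atTop, 4 / ε ≤ Y ^ ((θ - 1) / 2) :=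
    (tendsto_rpow_atTop (by linarith : (0 : ℝ) < (θ - 1) / 2)).eventually_ge_atTop _
  obtain ⟨Y2, hY2⟩ := eventually_atTop.1 e1
  refine ⟨max Y1 Y2, hY1.trans (le_max_left _ _), ?_⟩
  intro Y hY S hS D hD X hX
  have hYY1 : Y1 ≤ Y := (le_max_left _ _).trans hY
  have h1Y : 1 ≤ Y := hY1.trans hYY1
  have hY0 : 0 < Y := by linarith
  have h2 := hY2 Y ((le_max_right _ _).trans hY)
  have hl := Fd_lim hD
  set X0 : ℝ := Y ^ ((1 + θ) / 2) with hX0
  have hX00 : 0 < X0 := by positivity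
  have hX01 : 1 ≤ X0 := Real.one_le_rpow h1Y (by linarith)
  have hX0X : X0 * Y ^ ((θ - 1) / 2) ≤ X := by
    rw [hX0, ← Real.rpow_add hY0, show (1 + θ) / 2 + (θ - 1) / 2 = θ by ring]
    exact hX
  have hY002 : 1 ≤ Y ^ ((θ - 1) / 2) := Real.one_le_rpow h1Y (by linarith)
  have hXX0 : X0 ≤ X := (le_mul_of_one_le_right hX00.le hY002).trans hX0X
  have hXpos : 0 < X := by linarith
  have hFd : ∀ t : ℝ, Real.log X0 ≤ t → |Fd S t - D / 3| ≤ ε / 6 := by
    intro t ht
    apply h Y hYY1 S hS (D / 3) hl t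
    rw [hX0, Real.log_rpow hY0] at ht
    exact ht
  -- the number of halvings
  obtain ⟨n, hn1, hn2⟩ : ∃ n : ℕ, 2 ^ n * X0 ≤ X ∧ X < 2 ^ (n + 1) * X0 := by
    obtain ⟨n, hn1, hn2⟩ := exists_nat_pow_near (x := X / X0) (y := 2) (by rw [le_div_iff₀ hX00]; linarith) (by norm_num)
    refine ⟨n, ?_, ?_⟩
    · rwa [le_div_iff₀ hX00] at hn1
    · rwa [div_lt_iff₀ hX00] at hn2
  have h2n : (0 : ℝ) < 2 ^ n := by positivity
  have hX' : X0 ≤ X / 2 ^ n := by rw [le_div_iff₀ h2n]; linarith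
  have h3 := G_iter S hX00 hFd n (X / 2 ^ n) hX'
  rw [mul_div_cancel₀ _ h2n.ne', mul_div_cancel₀ D (by norm_num : (3 : ℝ) ≠ 0)] at h3
  have h4 := G_div_le S (hX01.trans hX')
  have hDle : 0 ≤ D ∧ D ≤ 1 := by
    constructor
    · apply ge_of_tendsto hD
      filter_upwards [eventually_ge_atTop 1] with X hX
      exact (G_div_le S hX).1
    · apply le_of_tendsto hD
      filter_upwards [eventually_ge_atTop 1] with X hX
      exact (G_div_le S hX).2
  have h5 : |G S (X / 2 ^ n) / (X / 2 ^ n) - D| ≤ 1 := by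
    rw [abs_le]; constructor <;> linarith [h4.1, h4.2, hDle.1, hDle.2]
  have h6 : |G S (X / 2 ^ n) / (X / 2 ^ n) - D| / 2 ^ n ≤ ε / 2 := by
    rw [div_le_iff₀ h2n]
    have h7 : Y ^ ((θ - 1) / 2) < 2 ^ (n + 1) := by
      have : X0 * Y ^ ((θ - 1) / 2) < X0 * 2 ^ (n + 1) := by linarith
      exact lt_of_mul_lt_mul_left this hX00.le
    rw [pow_succ] at h7
    have h8 : 4 / ε < 2 ^ n * 2 := by linarith
    rw [div_lt_iff₀ hε] at h8
    linarith
  have h9 : 3 * (ε / 6) = ε / 2 := by ring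
  rw [h9] at h3
  linarith

/-- STABILIZATION: the proportion of an almost invariant set is the same on all long intervals -/
theorem stabR {θ : ℝ} (hθ : 1 < θ) (ε : ℝ) (hε : 0 < ε) : ∃ Y0 : ℕ, ∀ Y : ℕ, Y0 ≤ Y → ∀ P : ℕ → Prop, AP Y P →
    ∃ D : ℝ, HasD P D ∧ ∀ N : ℕ, (Y : ℝ) ^ θ ≤ N → |(cN P N : ℝ) / N - D| ≤ ε := by
  obtain ⟨Y1, hY1, h⟩ := G_unifR hθ (ε / 2) (by positivity)
  obtain ⟨Y0, hY0⟩ := exists_nat_ge (max Y1 (2 / ε))
  refine ⟨Y0, ?_⟩
  intro Y hY P hP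
  obtain ⟨D, hD⟩ := AP_dens hP
  refine ⟨D, HasD.of_set (SP_nat P) hD, ?_⟩
  intro N hN
  have hYR : (Y0 : ℝ) ≤ Y := by exact_mod_cast hY
  have hYY1 : Y1 ≤ Y := (le_max_left _ _).trans (hY0.trans hYR)
  have hYε : 2 / ε ≤ Y := (le_max_right _ _).trans (hY0.trans hYR)
  have h1Y : (1 : ℝ) ≤ Y := hY1.trans hYY1
  have hYN : (Y : ℝ) ≤ N := by
    calc (Y : ℝ) = (Y : ℝ) ^ (1 : ℝ) := (Real.rpow_one _).symm
      _ ≤ (Y : ℝ) ^ θ := Real.rpow_le_rpow_of_exponent_le h1Y hθ.le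
      _ ≤ N := hN
  have hN0 : (0 : ℝ) < N := by linarith
  have h1 := h Y hYY1 (SP P) (SP_AI hP) D hD (N + 1) (by linarith)
  rw [cN_eq (SP_nat P) N]
  have h2 := G_div_le (SP P) (by linarith : (1 : ℝ) ≤ N + 1)
  have h3 : G (SP P) (N + 1) / N = G (SP P) (N + 1) / (N + 1) + G (SP P) (N + 1) / (N + 1) * (1 / N) := by
    field_simp
  have h4 : G (SP P) (N + 1) / (N + 1) * (1 / N) ≤ ε / 2 := by
    have h5 : 1 / (N : ℝ) ≤ ε / 2 := by
      rw [div_le_iff₀ hN0]
      rw [div_le_iff₀ hε] at hYε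
      have : (Y : ℝ) * ε ≤ N * ε := mul_le_mul_of_nonneg_right hYN hε.le
      linarith
    calc G (SP P) (N + 1) / (N + 1) * (1 / N) ≤ 1 * (1 / N) := mul_le_mul_of_nonneg_right h2.2 (by positivity)
      _ ≤ ε / 2 := by rw [one_mul]; exact h5
  have h6 : 0 ≤ G (SP P) (N + 1) / (N + 1) * (1 / (N : ℝ)) := mul_nonneg h2.1 (by positivity)
  rw [h3]
  rw [abs_le] at h1 ⊢
  constructor <;> linarith [h1.1, h1.2]


end Pool.Agent.V11311.GT
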