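import Pool.Agent.V11311.GT.A
import Pool.Agent.V11311.FP.G
import Pool.Agent.H499R2.CO.F

/-! Generic trajectories, part B: orthogonality with respect to the predecessor densities. -/

set_option autoImplicit false

namespace Pool.Agent.V11311.GT

open Finset Filter Topology Pool.Agent.V11311.PD Pool.Agent.V11311.PL Pool.Agent.V11311.FP

open Pool.Agent.Helper894.Collatz (T od)

open scoped Classical in
/-- number of the changes of `Φ` up to `N` -/
noncomputable def chg (Φ : ℕ → ℝ) (N : ℕ) : ℕ := ((Icc 1 N).filter fun i => Φ i ≠ Φ (i + 1)).card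

/-- the sum over a class -/
noncomputable def cs (f Φ : ℕ → ℝ) (m a N : ℕ) : ℝ := ∑ n ∈ Icc 1 N, if n % 3 ^ m = a then f n * Φ n else 0

/-- orthogonality to the almost locally constant functions, in the classes modulo the powers of three -/
def Nul (f : ℕ → ℝ) : Prop := ∀ m a : ℕ, 1 ≤ m → a < 3 ^ m → ¬ 3 ∣ a → ∀ ε : ℝ, 0 < ε → ∃ δ : ℝ, 0 < δ ∧ ∃ N0 : ℕ,
  ∀ N : ℕ, N0 ≤ N → ∀ Φ : ℕ → ℝ, (∀ n, |Φ n| ≤ 1) → (chg Φ N : ℝ) ≤ δ * N → |cs f Φ m a N| ≤ ε * N

theorem Tz_nat (x : ℕ) : Pool.Agent.H499R2.CO.Tz 1 (x : ℤ) = ((T x : ℕ) : ℤ) := by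
  unfold Pool.Agent.H499R2.CO.Tz T
  split_ifs <;> omega

theorem Tz_iter_nat (t x : ℕ) : (Pool.Agent.H499R2.CO.Tz 1)^[t] (x : ℤ) = ((T^[t] x : ℕ) : ℤ) := by
  induction t generalizing x with
  | zero => rfl
  | succ t ih => rw [Function.iterate_succ_apply, Tz_nat, ih, Function.iterate_succ_apply]

/-- functions of the later part of the trajectory are almost locally constant -/
theorem chg_future (δ : ℝ) (hδ : 0 < δ) : ∃ k : ℕ, 1 ≤ k ∧ ∃ N0 : ℕ, ∀ N : ℕ, N0 ≤ N → ∀ Φ : ℕ → ℝ,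
    (chg (fun b => Φ (T^[k] b)) N : ℝ) ≤ δ * N := by
  classical
  obtain ⟨k, hk⟩ := Pool.Agent.H499R2.CO.coalT_count (d := 1) (by norm_num) 1 (show 0 < δ / 2 by positivity)
  refine ⟨k + 1, by omega, 2 ^ k + 1, fun N hN Φ => ?_⟩
  have h1 := hk N
  have h2 : chg (fun b => Φ (T^[k + 1] b)) N ≤
      #{n ∈ Icc 1 N | ¬ ∃ t ≤ k, (Pool.Agent.H499R2.CO.Tz 1)^[t] ((n : ℕ) : ℤ)
        = (Pool.Agent.H499R2.CO.Tz 1)^[t] ((n : ℤ) + 1 * 1)} := by
    unfold chg
    apply card_le_card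
    intro n hn
    rw [mem_filter] at hn ⊢
    refine ⟨hn.1, ?_⟩
    rintro ⟨t, ht, h3⟩
    apply hn.2
    have e : ((n : ℤ) + 1 * 1) = ((n + 1 : ℕ) : ℤ) := by push_cast; ring
    rw [e, Tz_iter_nat, Tz_iter_nat] at h3
    have h4 : T^[t] n = T^[t] (n + 1) := by exact_mod_cast h3
    have h5 : T^[k + 1] n = T^[k + 1] (n + 1) := by
      obtain ⟨s, hs⟩ := Nat.exists_eq_add_of_le (show t ≤ k + 1 by omega)
      rw [hs, add_comm, Function.iterate_add_apply, Function.iterate_add_apply, h4]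
    simp only
    rw [h5]
  have hNR : (2 : ℝ) ^ k + 1 ≤ N := by exact_mod_cast hN
  calc (chg (fun b => Φ (T^[k + 1] b)) N : ℝ) ≤ _ := by exact_mod_cast h2
    _ ≤ δ / 2 * (N + 2 ^ k + 1) := h1
    _ ≤ δ * N := by nlinarith

/-- partial summation -/
theorem abel_eq (s : ℕ → ℝ) (u : ℕ) : ∀ v : ℕ, u ≤ v → ∑ n ∈ Ioc u v, s n / n
    = (∑ n ∈ Ioc u v, s n) / (v + 1) + ∑ j ∈ Ioc u v, (∑ n ∈ Ioc u j, s n) / (j * (j + 1)) := by
  intro v hv
  induction v, hv using Nat.le_induction with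
  | base => simp
  | succ v hv ih =>
    rw [sum_Ioc_succ_top (by omega), sum_Ioc_succ_top (by omega), sum_Ioc_succ_top (by omega), ih]
    rw [sum_Ioc_succ_top (by omega)]
    push_cast
    have h1 : (v : ℝ) + 1 ≠ 0 := by positivity
    have h2 : (v : ℝ) + 1 + 1 ≠ 0 := by positivity
    field_simp
    ring

theorem abel_le {s : ℕ → ℝ} {ε : ℝ} (hε : 0 ≤ ε) {u v : ℕ} (hu : 1 ≤ u) (huv : u ≤ v) (hv : v ≤ 2 * u + 1)
    (h : ∀ j, u ≤ j → |∑ n ∈ Icc 1 j, s n| ≤ ε * j) : |∑ n ∈ Ioc u v, s n / n| ≤ 4 * ε := by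
  have hP : ∀ j, u ≤ j → |∑ n ∈ Ioc u j, s n| ≤ 2 * ε * j := by
    intro j hj
    have h1 : ∑ n ∈ Icc 1 j, s n = ∑ n ∈ Icc 1 u, s n + ∑ n ∈ Ioc u j, s n := by
      rw [← sum_union]
      · congr 1
        ext n
        simp only [mem_Icc, mem_union, mem_Ioc]
        omega
      · rw [disjoint_left]
        intro n hn hn'
        rw [mem_Icc] at hn
        rw [mem_Ioc] at hn'
        omega
    have h2 : ∑ n ∈ Ioc u j, s n = ∑ n ∈ Icc 1 j, s n - ∑ n ∈ Icc 1 u, s n := by linarith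
    rw [h2]
    have h3 := h j hj
    have h4 := h u le_rfl
    have h5 : (u : ℝ) ≤ j := by exact_mod_cast hj
    have h6 := abs_sub (∑ n ∈ Icc 1 j, s n) (∑ n ∈ Icc 1 u, s n)
    nlinarith
  rw [abel_eq s u v huv]
  have hv0 : (0 : ℝ) < v + 1 := by positivity
  have h1 : |(∑ n ∈ Ioc u v, s n) / ((v : ℝ) + 1)| ≤ 2 * ε := by
    rw [abs_div, abs_of_pos hv0, div_le_iff₀ hv0]
    have := hP v huv
    nlinarith
  have h2 : |∑ j ∈ Ioc u v, (∑ n ∈ Ioc u j, s n) / ((j : ℝ) * (j + 1))| ≤ 2 * ε := by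
    refine (abs_sum_le_sum_abs _ _).trans ?_
    have hu0 : (0 : ℝ) < u + 1 := by positivity
    calc ∑ j ∈ Ioc u v, |(∑ n ∈ Ioc u j, s n) / ((j : ℝ) * (j + 1))| ≤ ∑ j ∈ Ioc u v, 2 * ε / (u + 1) := by
          apply sum_le_sum
          intro j hj
          rw [mem_Ioc] at hj
          have hj0 : (0 : ℝ) < j := by
            have : 0 < j := by omega
            exact_mod_cast this
          have huj : (u : ℝ) ≤ j := by exact_mod_cast hj.1.le
          rw [abs_div, abs_of_pos (by positivity : (0 : ℝ) < j * (j + 1)), div_le_div_iff₀ (by positivity) hu0]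
          have h3 := hP j hj.1.le
          have h4 : |∑ n ∈ Ioc u j, s n| * (u + 1) ≤ 2 * ε * j * (u + 1) :=
            mul_le_mul_of_nonneg_right h3 hu0.le
          have h5 : 2 * ε * j * ((u : ℝ) + 1) ≤ 2 * ε * j * (j + 1) :=
            mul_le_mul_of_nonneg_left (by linarith) (by positivity)
          linarith
      _ = (v - u : ℕ) * (2 * ε / (u + 1)) := by rw [sum_const, Nat.card_Ioc, nsmul_eq_mul]
      _ ≤ (u + 1) * (2 * ε / (u + 1)) := by
          apply mul_le_mul_of_nonneg_right _ (by positivity)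
          have : v - u ≤ u + 1 := by omega
          exact_mod_cast this
      _ = 2 * ε := by field_simp
  calc |(∑ n ∈ Ioc u v, s n) / ((v : ℝ) + 1) + ∑ j ∈ Ioc u v, (∑ n ∈ Ioc u j, s n) / ((j : ℝ) * (j + 1))|
      ≤ _ := abs_add_le _ _
    _ ≤ 4 * ε := by linarith

/-- total density over the good elements of a block -/
theorem block_mass {D : ℕ → ℝ} (hD : IsD D) : ∃ C : ℝ, 0 < C ∧ ∀ᶠ y : ℝ in atTop, ∀ S : Finset ℕ,
    (∀ a ∈ S, a ∈ Gd (1 / 10) y) → ∑ b ∈ S, D b ≤ C := by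
  obtain ⟨C, hC, h⟩ := block_L1 1
  have h1 := h D (fun a _ => Pool.Agent.V11311.FP.IsD.fd hD a) 1 le_rfl
  have hk : 0 < 2 / Real.log (4 / 3) := div_pos (by norm_num) (Real.log_pos (by norm_num))
  refine ⟨C + 2 * (2 / Real.log (4 / 3) * 3), by positivity, ?_⟩
  filter_upwards [h1, eventually_ge_atTop 1] with y h2 hy
  intro S hS
  have hy0 : 0 < y := by linarith
  have h3 := h2 S hS
  norm_num at h3
  have hcard : (S.card : ℝ) ≤ 2 * y := by
    have h4 : S ⊆ Icc 1 ⌊2 * y⌋₊ := by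
      intro a ha
      obtain ⟨g1, g2, _⟩ := hS a ha
      rw [mem_Icc]
      refine ⟨?_, Nat.le_floor g2⟩
      have : (0 : ℝ) < a := by linarith
      exact_mod_cast this
    have h5 := card_le_card h4
    rw [Nat.card_Icc, Nat.add_sub_cancel] at h5
    calc (S.card : ℝ) ≤ ⌊2 * y⌋₊ := by exact_mod_cast h5
      _ ≤ 2 * y := Nat.floor_le (by linarith)
  have h4 : y * ∑ b ∈ S, D b ≤ ∑ b ∈ S, b * D b := by
    rw [mul_sum]
    apply sum_le_sum
    intro b hb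
    exact mul_le_mul_of_nonneg_right (hS b hb).1.le (hD.nonneg b)
  have h5 : ∑ b ∈ S, (b : ℝ) * D b ≤ ∑ b ∈ S, |b * D b - 2 / Real.log (4 / 3) * (3 * pN 4 1 b)|
      + ∑ b ∈ S, 2 / Real.log (4 / 3) * 3 := by
    rw [← sum_add_distrib]
    apply sum_le_sum
    intro b _
    have h6 := le_abs_self (b * D b - 2 / Real.log (4 / 3) * (3 * pN 4 1 b))
    have h7 := gk_le 1 b
    unfold gk at h7
    norm_num at h7
    linarith
  rw [sum_const, nsmul_eq_mul] at h5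
  have h6 : (S.card : ℝ) * (2 / Real.log (4 / 3) * 3) ≤ 2 * y * (2 / Real.log (4 / 3) * 3) :=
    mul_le_mul_of_nonneg_right hcard (by positivity)
  have h7 : y * ∑ b ∈ S, D b ≤ y * (C + 2 * (2 / Real.log (4 / 3) * 3)) := by
    have : y * (C + 2 * (2 / Real.log (4 / 3) * 3)) = C * y + 2 * y * (2 / Real.log (4 / 3) * 3) := by ring
    linarith
  exact le_of_mul_le_mul_left h7 hy0

/-- `Nul` for all classes at once -/
theorem nul_unif {f : ℕ → ℝ} (hf : Nul f) {m : ℕ} (hm : 1 ≤ m) (ε : ℝ) (hε : 0 < ε) : ∃ δ : ℝ, 0 < δ ∧ ∃ N0 : ℕ,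
    ∀ a : ℕ, a < 3 ^ m → ¬ 3 ∣ a → ∀ N : ℕ, N0 ≤ N → ∀ Φ : ℕ → ℝ, (∀ n, |Φ n| ≤ 1) → (chg Φ N : ℝ) ≤ δ * N →
      |cs f Φ m a N| ≤ ε * N := by
  have h1 : ∀ a : ℕ, ∃ δ : ℝ, 0 < δ ∧ ∃ N0 : ℕ, a < 3 ^ m → ¬ 3 ∣ a → ∀ N : ℕ, N0 ≤ N → ∀ Φ : ℕ → ℝ,
      (∀ n, |Φ n| ≤ 1) → (chg Φ N : ℝ) ≤ δ * N → |cs f Φ m a N| ≤ ε * N := by
    intro a
    by_cases ha : a < 3 ^ m
    · by_cases h3 : 3 ∣ a
      · exact ⟨1, one_pos, 0, fun _ h => absurd h3 h⟩
      · obtain ⟨δ, hδ, N0, h⟩ := hf m a hm ha h3 ε hε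
        exact ⟨δ, hδ, N0, fun _ _ => h⟩
    · exact ⟨1, one_pos, 0, fun h => absurd h ha⟩
  choose δ hδ N0 h using h1
  have hne : (range (3 ^ m)).Nonempty := ⟨0, mem_range.2 (by positivity)⟩
  refine ⟨(range (3 ^ m)).inf' hne δ, (Finset.lt_inf'_iff hne).2 fun a _ => hδ a, (range (3 ^ m)).sup N0, ?_⟩
  intro a ha h3 N hN Φ hΦ hc
  have h4 : N0 a ≤ (range (3 ^ m)).sup N0 := le_sup (f := N0) (mem_range.2 ha)
  have h5 : (range (3 ^ m)).inf' hne δ ≤ δ a := inf'_le δ (mem_range.2 ha)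
  exact h a ha h3 N (h4.trans hN) Φ hΦ (hc.trans (mul_le_mul_of_nonneg_right h5 (Nat.cast_nonneg _)))

/-- ORTHOGONALITY with respect to the predecessor densities -/
theorem lemA {f : ℕ → ℝ} (hf1 : ∀ n, |f n| ≤ 1) (hf : Nul f) {D : ℕ → ℝ} (hD : IsD D) (ε : ℝ) (hε : 0 < ε) :
    ∃ k : ℕ, 1 ≤ k ∧ ∃ δ : ℝ, 0 < δ ∧ ∀ᶠ y : ℝ in atTop, ∀ S : Finset ℕ, (∀ a ∈ S, a ∈ Gd (1 / 10) y) →
      (((Ioc ⌊y⌋₊ ⌊2 * y⌋₊) \ S).card : ℝ) ≤ δ * y → ∀ Φ : ℕ → ℝ, (∀ n, |Φ n| ≤ 1) →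
        |∑ b ∈ S, D b * (f b * Φ (T^[k] b))| ≤ ε := by
  classical
  obtain ⟨C, hC, hL1⟩ := block_L1 1
  have hκ : 0 < 2 / Real.log (4 / 3) := div_pos (by norm_num) (Real.log_pos (by norm_num))
  obtain ⟨m, hm1, hm⟩ : ∃ m : ℕ, 1 ≤ m ∧ C / (m : ℝ) ^ 1 ≤ ε / 4 := by
    obtain ⟨m, hm⟩ := exists_nat_ge (4 * C / ε)
    refine ⟨m + 1, by omega, ?_⟩
    rw [pow_one, div_le_iff₀ (by positivity)]
    rw [div_le_iff₀ hε] at hm
    push_cast
    nlinarith
  set M : ℝ := 2 / Real.log (4 / 3) * 3 ^ m with hM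
  have hM0 : 0 < M := by positivity
  obtain ⟨δ0, hδ0, N0, hnul⟩ := nul_unif hf hm1 (ε / (16 * M)) (by positivity)
  obtain ⟨k, hk1, N1, hk⟩ := chg_future δ0 hδ0
  refine ⟨k, hk1, ε / (4 * M), by positivity, ?_⟩
  have h1 := hL1 D (fun a _ => Pool.Agent.V11311.FP.IsD.fd hD a) m hm1
  filter_upwards [h1, eventually_ge_atTop 1, eventually_ge_atTop ((N0 : ℝ) + 1), eventually_ge_atTop ((N1 : ℝ) + 1)]
    with y h2 hy hyN0 hyN1
  intro S hS hmiss Φ hΦ
  have hy0 : 0 < y := by linarith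
  set u := ⌊y⌋₊ with hu
  set v := ⌊2 * y⌋₊ with hv
  have hu1 : 1 ≤ u := Nat.le_floor (by exact_mod_cast hy)
  have huy : (u : ℝ) ≤ y := Nat.floor_le hy0.le
  have hyu : y < u + 1 := Nat.lt_floor_add_one y
  have hvy : (v : ℝ) ≤ 2 * y := Nat.floor_le (by linarith)
  have huv : u ≤ v := Nat.floor_mono (by linarith)
  have hv2 : v ≤ 2 * u + 1 := by
    have : (v : ℝ) < 2 * u + 2 := by linarith
    have h3 : v < 2 * u + 2 := by exact_mod_cast this
    omega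
  have huN0 : N0 ≤ u := Nat.le_floor (by linarith)
  have huN1 : N1 ≤ u := Nat.le_floor (by linarith)
  set Ψ : ℕ → ℝ := fun b => Φ (T^[k] b) with hΨ
  have hΨ1 : ∀ n, |Ψ n| ≤ 1 := fun n => hΦ _
  have hfΨ : ∀ n, |f n * Ψ n| ≤ 1 := fun n => by
    rw [abs_mul]
    exact mul_le_one₀ (hf1 n) (abs_nonneg _) (hΨ1 n)
  have hSI : S ⊆ Ioc u v := by
    intro a ha
    obtain ⟨g1, g2, _⟩ := hS a ha
    rw [mem_Ioc]
    exact ⟨(Nat.floor_lt hy0.le).2 g1, Nat.le_floor g2⟩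
  -- step 1
  set S3 := S.filter fun b => ¬ 3 ∣ b with hS3
  have e1 : ∑ b ∈ S, D b * (f b * Ψ b) = ∑ b ∈ S3, D b * (f b * Ψ b) := by
    rw [hS3, sum_filter]
    apply sum_congr rfl
    intro b hb
    by_cases h3 : 3 ∣ b
    · have hb0 : 0 < b := by
        have := mem_Ioc.1 (hSI hb)
        omega
      rw [hD.three hb0 h3, zero_mul, if_neg (not_not.2 h3)]
    · rw [if_pos h3]
  -- step 2
  have e2 : |∑ b ∈ S3, D b * (f b * Ψ b) - ∑ b ∈ S3, gk m b / b * (f b * Ψ b)| ≤ ε / 4 := by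
    rw [← sum_sub_distrib]
    refine (abs_sum_le_sum_abs _ _).trans ?_
    calc ∑ b ∈ S3, |D b * (f b * Ψ b) - gk m b / b * (f b * Ψ b)| ≤ ∑ b ∈ S3, 1 / y * |b * D b - gk m b| := by
          apply sum_le_sum
          intro b hb
          have hbS : b ∈ S := (mem_filter.1 hb).1
          have hby : y < b := (hS b hbS).1
          have hb0 : (0 : ℝ) < b := by linarith
          rw [← sub_mul, abs_mul]
          calc |D b - gk m b / b| * |f b * Ψ b| ≤ |D b - gk m b / b| * 1 :=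
                mul_le_mul_of_nonneg_left (hfΨ b) (abs_nonneg _)
            _ = |b * D b - gk m b| / b := by
                rw [mul_one, show D b - gk m b / b = (b * D b - gk m b) / b by field_simp, abs_div, abs_of_pos hb0]
            _ ≤ |b * D b - gk m b| / y := div_le_div_of_nonneg_left (abs_nonneg _) hy0 hby.le
            _ = _ := by ring
      _ ≤ ∑ b ∈ S, 1 / y * |b * D b - gk m b| :=
          sum_le_sum_of_subset_of_nonneg (filter_subset _ _) (fun b _ _ => by positivity)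
      _ = 1 / y * ∑ b ∈ S, |b * D b - gk m b| := by rw [mul_sum]
      _ ≤ 1 / y * (C / (m : ℝ) ^ 1 * y) := mul_le_mul_of_nonneg_left (h2 S hS) (by positivity)
      _ = C / (m : ℝ) ^ 1 := by field_simp
      _ ≤ ε / 4 := hm
  -- step 3
  set I3 := (Ioc u v).filter fun b => ¬ 3 ∣ b with hI3
  have hgb : ∀ b ∈ Ioc u v, |gk m b / b * (f b * Ψ b)| ≤ M / y := by
    intro b hb
    rw [mem_Ioc] at hb
    have hby : y ≤ b := by
      have : (u : ℝ) + 1 ≤ b := by exact_mod_cast hb.1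
      linarith
    have hb0 : (0 : ℝ) < b := by linarith
    rw [abs_mul, abs_div, abs_of_pos hb0, abs_of_nonneg (gk_nonneg m b)]
    calc gk m b / b * |f b * Ψ b| ≤ gk m b / b * 1 :=
          mul_le_mul_of_nonneg_left (hfΨ b) (div_nonneg (gk_nonneg m b) hb0.le)
      _ = gk m b / b := mul_one _
      _ ≤ M / b := div_le_div_of_nonneg_right (gk_le m b) hb0.le
      _ ≤ M / y := div_le_div_of_nonneg_left hM0.le hy0 hby
  have e3 : |∑ b ∈ S3, gk m b / b * (f b * Ψ b) - ∑ b ∈ I3, gk m b / b * (f b * Ψ b)| ≤ ε / 4 := by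
    have hsub : S3 ⊆ I3 := filter_subset_filter _ hSI
    rw [← sum_sdiff hsub, sub_add_cancel_right, abs_neg]
    refine (abs_sum_le_sum_abs _ _).trans ?_
    calc ∑ b ∈ I3 \ S3, |gk m b / b * (f b * Ψ b)| ≤ ∑ b ∈ I3 \ S3, M / y := by
          apply sum_le_sum
          intro b hb
          exact hgb b (mem_filter.1 (Finset.mem_sdiff.1 hb).1).1
      _ = ((I3 \ S3).card : ℝ) * (M / y) := by rw [sum_const, nsmul_eq_mul]
      _ ≤ (((Ioc u v) \ S).card : ℝ) * (M / y) := by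
          apply mul_le_mul_of_nonneg_right _ (by positivity)
          have : I3 \ S3 ⊆ (Ioc u v) \ S := by
            intro b hb
            rw [Finset.mem_sdiff, hI3, hS3, mem_filter, mem_filter] at hb
            rw [Finset.mem_sdiff]
            exact ⟨hb.1.1, fun h => hb.2 ⟨h, hb.1.2⟩⟩
          exact_mod_cast card_le_card this
      _ ≤ ε / (4 * M) * y * (M / y) := mul_le_mul_of_nonneg_right hmiss (by positivity)
      _ = ε / 4 := by field_simp
  -- step 4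
  have e4 : |∑ b ∈ I3, gk m b / b * (f b * Ψ b)| ≤ ε / 4 := by
    have h3 : ∑ b ∈ I3, gk m b / b * (f b * Ψ b) = ∑ a ∈ (range (3 ^ m)).filter (fun a => ¬ 3 ∣ a),
        gk m a * ∑ b ∈ Ioc u v, (if b % 3 ^ m = a then f b * Ψ b else 0) / b := by
      rw [hI3, sum_filter]
      have h4 : ∀ a ∈ (range (3 ^ m)).filter (fun a => ¬ 3 ∣ a),
          gk m a * ∑ b ∈ Ioc u v, (if b % 3 ^ m = a then f b * Ψ b else 0) / b
          = ∑ b ∈ Ioc u v, if b % 3 ^ m = a then gk m a / b * (f b * Ψ b) else 0 := by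
        intro a _
        rw [mul_sum]
        apply sum_congr rfl
        intro b _
        split_ifs <;> ring
      rw [sum_congr rfl h4, sum_comm]
      apply sum_congr rfl
      intro b _
      have hper : Function.Periodic (gk m) (3 ^ m) := gk_per m
      have hbm : gk m (b % 3 ^ m) = gk m b := hper.map_mod_nat b
      have hdvd : 3 ∣ b % 3 ^ m ↔ 3 ∣ b := Nat.dvd_mod_iff (dvd_pow_self 3 (by omega))
      rw [sum_ite_eq ((range (3 ^ m)).filter (fun a => ¬ 3 ∣ a)) (b % 3 ^ m)]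
      rw [hbm]
      have hmem : b % 3 ^ m ∈ (range (3 ^ m)).filter (fun a => ¬ 3 ∣ a) ↔ ¬ 3 ∣ b := by
        rw [mem_filter, mem_range, hdvd]
        exact ⟨fun h => h.2, fun h => ⟨Nat.mod_lt _ (by positivity), h⟩⟩
      by_cases h5 : 3 ∣ b
      · rw [if_neg (not_not.2 h5), if_neg (fun h => (hmem.1 h) h5)]
      · rw [if_pos h5, if_pos (hmem.2 h5)]
    rw [h3]
    refine (abs_sum_le_sum_abs _ _).trans ?_
    calc ∑ a ∈ (range (3 ^ m)).filter (fun a => ¬ 3 ∣ a),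
          |gk m a * ∑ b ∈ Ioc u v, (if b % 3 ^ m = a then f b * Ψ b else 0) / b|
        ≤ ∑ a ∈ (range (3 ^ m)).filter (fun a => ¬ 3 ∣ a), gk m a * (4 * (ε / (16 * M))) := by
          apply sum_le_sum
          intro a ha
          rw [mem_filter, mem_range] at ha
          rw [abs_mul, abs_of_nonneg (gk_nonneg m a)]
          apply mul_le_mul_of_nonneg_left _ (gk_nonneg m a)
          apply abel_le (by positivity) hu1 huv hv2
          intro j hj
          have h5 := hnul a ha.1 ha.2 j (huN0.trans hj) Ψ hΨ1 (hk j (huN1.trans hj) Φ)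
          unfold cs at h5
          exact h5
      _ ≤ ∑ a ∈ range (3 ^ m), gk m a * (4 * (ε / (16 * M))) :=
          sum_le_sum_of_subset_of_nonneg (filter_subset _ _)
            (fun a _ _ => mul_nonneg (gk_nonneg m a) (by positivity))
      _ = M * (4 * (ε / (16 * M))) := by rw [← sum_mul, gk_sum]
      _ = ε / 4 := by field_simp; norm_num
  rw [e1]
  rw [abs_le] at e2 e3 e4 ⊢
  constructor <;> linarith [e2.1, e2.2, e3.1, e3.2, e4.1, e4.2]

end Pool.Agent.V11311.GT
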