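import Pool.Agent.V11311.GT.B

/-! Generic trajectories, part C: the second moment of the sum over a window. -/

set_option autoImplicit false

namespace Pool.Agent.V11311.GT

open Finset Filter Topology Pool.Agent.V11311.PD Pool.Agent.V11311.PL Pool.Agent.V11311.FP

open Pool.Agent.Helper894.Collatz (T od)

open Pool.Agent.H377R2 (iter_pos)

/-- the good integers of a window -/
def good (x b : ℕ) : Prop := Typ (1 / 10) ((x : ℝ) ^ (1 / 3 : ℝ)) b ∧
  ∀ b' : ℕ, 0 < b' → (b' : ℝ) ≤ Real.sqrt b → ∀ j : ℕ, T^[j] b' ≠ b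

open scoped Classical in
/-- the window -/
noncomputable def Wn (x I : ℕ) : Finset ℕ := (Ioc (x / 2 ^ I) x).filter (good x)

open scoped Classical in
/-- the sum of `f` over the good terms of the trajectory in the window -/
noncomputable def vs (x I : ℕ) (f : ℕ → ℝ) (n : ℕ) : ℝ := ∑ b ∈ Wn x I, if Vis n b then f b else 0

open scoped Classical in
/-- the same for the later terms -/
noncomputable def vf (x I : ℕ) (f : ℕ → ℝ) (b : ℕ) : ℝ := ∑ c ∈ Wn x I, if c ≠ b ∧ Vis b c then f c else 0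

theorem div_lt_real {x q b : ℕ} (hq : 0 < q) (h : x / q < b) : (x : ℝ) / q < b := by
  rw [div_lt_iff₀ (by exact_mod_cast hq)]
  have := (Nat.div_lt_iff_lt_mul hq).1 h
  exact_mod_cast this

theorem Wn_mem {x I b : ℕ} : b ∈ Wn x I ↔ (x / 2 ^ I < b ∧ b ≤ x) ∧ good x b := by
  classical
  unfold Wn
  rw [mem_filter, mem_Ioc]

theorem Wn_pos {x I b : ℕ} (h : b ∈ Wn x I) : 0 < b := by
  exact lt_of_le_of_lt (Nat.zero_le _) (Wn_mem.1 h).1.1

theorem Wn_nice {x I : ℕ} (hI : (x : ℝ) ^ (2 / 3 : ℝ) * 2 ^ I ≤ x) {J : ℕ} (hJ : 8 * Real.log x ≤ J) :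
    Nice2 ((x : ℝ) ^ (1 / 3 : ℝ)) J (Wn x I : Set ℕ) := by
  constructor
  · intro a ha
    rw [mem_coe] at ha
    have h0 := Wn_pos ha
    obtain ⟨⟨_, h2⟩, h3⟩ := Wn_mem.1 ha
    obtain ⟨m0, h4, h5, _⟩ := h3.1.time h0 le_rfl
    refine ⟨m0, ?_, h5⟩
    have h6 : Real.log a ≤ Real.log x := Real.log_le_log (by exact_mod_cast h0) (by exact_mod_cast h2)
    have : (m0 : ℝ) ≤ J := by linarith
    exact_mod_cast this
  · intro a ha b hb hbY j
    rw [mem_coe] at ha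
    obtain ⟨⟨h1, h2⟩, h3⟩ := Wn_mem.1 ha
    apply h3.2 b hb _ j
    have h4 : (x : ℝ) / (2 ^ I : ℕ) < a := div_lt_real (by positivity) h1
    push_cast at h4
    have h5 : (x : ℝ) ^ (2 / 3 : ℝ) ≤ a := by
      rw [← le_div_iff₀ (by positivity)] at hI
      linarith
    apply Real.le_sqrt_of_sq_le
    calc (b : ℝ) ^ 2 ≤ ((x : ℝ) ^ (1 / 3 : ℝ)) ^ 2 := pow_le_pow_left₀ (Nat.cast_nonneg _) hbY 2
      _ = (x : ℝ) ^ (2 / 3 : ℝ) := by
          rw [← Real.rpow_natCast, ← Real.rpow_mul (Nat.cast_nonneg _)]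
          norm_num
      _ ≤ a := h5

theorem nice_aper {Y : ℝ} {J : ℕ} {G : Set ℕ} (hG : Nice2 Y J G) {a : ℕ} (ha : a ∈ G) (h0 : 0 < a) {j : ℕ}
    (hj : 0 < j) : T^[j] a ≠ a := by
  intro h
  obtain ⟨i, _, hi⟩ := hG.1 a ha
  have h1 : T^[j * (i + 1)] a = a := by
    rw [Function.iterate_mul]
    exact Function.iterate_fixed h (i + 1)
  have h2 : i ≤ j * (i + 1) := by nlinarith
  apply hG.2 a ha (T^[i] a) (iter_pos h0 i) hi (j * (i + 1) - i)
  rw [← Function.iterate_add_apply, Nat.sub_add_cancel h2, h1]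

theorem vis_card {x I : ℕ} (hI : (x : ℝ) ^ (2 / 3 : ℝ) * 2 ^ I ≤ x) {J : ℕ} (hJ : 8 * Real.log x ≤ J) (n : ℕ)
    (V : Finset ℕ) (hV : ∀ b ∈ V, b ∈ Wn x I ∧ Vis n b) : V.card ≤ J :=
  visits (Wn_nice hI hJ) V (fun a ha => (hV a ha).1) (fun a ha => Wn_pos (hV a ha).1) n (fun a ha => (hV a ha).2)

theorem vs_abs {x I : ℕ} (hI : (x : ℝ) ^ (2 / 3 : ℝ) * 2 ^ I ≤ x) {J : ℕ} (hJ : 8 * Real.log x ≤ J)
    {f : ℕ → ℝ} (hf : ∀ n, |f n| ≤ 1) (n : ℕ) : |vs x I f n| ≤ J := by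
  classical
  unfold vs
  rw [← sum_filter]
  refine (abs_sum_le_sum_abs _ _).trans ?_
  calc ∑ b ∈ (Wn x I).filter (fun b => Vis n b), |f b| ≤ ∑ b ∈ (Wn x I).filter (fun b => Vis n b), (1 : ℝ) :=
        sum_le_sum fun b _ => hf b
    _ = (((Wn x I).filter (fun b => Vis n b)).card : ℝ) := by simp
    _ ≤ J := by exact_mod_cast vis_card hI hJ n _ (fun b hb => mem_filter.1 hb)

theorem vis_trans {a b c : ℕ} (h : Vis a b) (h' : Vis b c) : Vis a c := by
  obtain ⟨i, rfl⟩ := h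
  obtain ⟨j, rfl⟩ := h'
  exact ⟨j + i, Function.iterate_add_apply _ _ _ _⟩

theorem vis_total {n b c : ℕ} (h : Vis n b) (h' : Vis n c) : Vis b c ∨ Vis c b := by
  obtain ⟨i, rfl⟩ := h
  obtain ⟨j, rfl⟩ := h'
  rcases le_total i j with hij | hij
  · left
    exact ⟨j - i, by rw [← Function.iterate_add_apply, Nat.sub_add_cancel hij]⟩
  · right
    exact ⟨i - j, by rw [← Function.iterate_add_apply, Nat.sub_add_cancel hij]⟩

/-- the square of the sum -/
theorem vs_sq {x I : ℕ} (hI : (x : ℝ) ^ (2 / 3 : ℝ) * 2 ^ I ≤ x) (f : ℕ → ℝ) (n : ℕ) :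
    vs x I f n ^ 2 = ∑ b ∈ Wn x I, @ite ℝ (Vis n b) (Classical.propDecidable _) (f b ^ 2 + 2 * (f b * vf x I f b)) 0 := by
  classical
  obtain ⟨J, hJ⟩ := exists_nat_ge (8 * Real.log x)
  set V := (Wn x I).filter (fun b => Vis n b) with hV
  have h1 : vs x I f n = ∑ b ∈ V, f b := by
    unfold vs
    rw [hV, sum_filter]
  have h2 : ∑ b ∈ Wn x I, @ite ℝ (Vis n b) (Classical.propDecidable _) (f b ^ 2 + 2 * (f b * vf x I f b)) 0
      = ∑ b ∈ V, (f b ^ 2 + 2 * (f b * vf x I f b)) := by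
    rw [hV, sum_filter]
  have h3 : ∀ b ∈ V, vf x I f b = ∑ c ∈ V, if c ≠ b ∧ Vis b c then f c else 0 := by
    intro b hb
    unfold vf
    rw [hV, sum_filter]
    apply sum_congr rfl
    intro c _
    by_cases h : c ≠ b ∧ Vis b c
    · rw [if_pos h, if_pos (vis_trans (mem_filter.1 hb).2 h.2)]
    · rw [if_neg h, ite_self]
  have h4 : ∀ b ∈ V, ∀ c ∈ V, f b * f c = (if b = c then f b * f c else 0) + (if c ≠ b ∧ Vis b c then f b * f c else 0)
      + (if b ≠ c ∧ Vis c b then f b * f c else 0) := by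
    intro b hb c hc
    have hb' := mem_filter.1 hb
    have hc' := mem_filter.1 hc
    by_cases hbc : b = c
    · subst hbc
      simp
    · have hcb : c ≠ b := fun h => hbc h.symm
      rw [if_neg hbc, zero_add]
      have hnot : ¬ (Vis b c ∧ Vis c b) := by
        rintro ⟨⟨i, hi⟩, ⟨j, hj⟩⟩
        have hpos : 0 < i + j := by
          rcases Nat.eq_zero_or_pos i with h | h
          · subst h
            exact absurd hi hbc
          · omega
        apply nice_aper (Wn_nice hI hJ) (mem_coe.2 hb'.1) (Wn_pos hb'.1) hpos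
        rw [add_comm, Function.iterate_add_apply, hi, hj]
      rcases vis_total hb'.2 hc'.2 with h | h
      · rw [if_pos ⟨hcb, h⟩, if_neg (fun h' => hnot ⟨h, h'.2⟩), add_zero]
      · rw [if_neg (fun h' => hnot ⟨h'.2, h⟩), if_pos ⟨hbc, h⟩, zero_add]
  rw [h1, h2, sq, sum_mul_sum]
  have h5 : ∑ b ∈ V, ∑ c ∈ V, f b * f c = ∑ b ∈ V, ∑ c ∈ V, ((if b = c then f b * f c else 0)
      + (if c ≠ b ∧ Vis b c then f b * f c else 0) + (if b ≠ c ∧ Vis c b then f b * f c else 0)) :=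
    sum_congr rfl fun b hb => sum_congr rfl fun c hc => h4 b hb c hc
  rw [h5]
  simp only [sum_add_distrib]
  have h6 : ∑ b ∈ V, ∑ c ∈ V, (if b ≠ c ∧ Vis c b then f b * f c else 0)
      = ∑ b ∈ V, ∑ c ∈ V, (if c ≠ b ∧ Vis b c then f b * f c else 0) := by
    rw [sum_comm]
    apply sum_congr rfl
    intro b _
    apply sum_congr rfl
    intro c _
    rw [mul_comm (f c) (f b)]
  have h7 : ∀ b ∈ V, ∑ c ∈ V, (if b = c then f b * f c else 0) = f b ^ 2 := by
    intro b hb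
    rw [sum_ite_eq V b, if_pos hb, sq]
  have h8 : ∀ b ∈ V, ∑ c ∈ V, (if c ≠ b ∧ Vis b c then f b * f c else 0) = f b * vf x I f b := by
    intro b hb
    rw [h3 b hb, mul_sum]
    apply sum_congr rfl
    intro c _
    split_ifs
    · rfl
    · rw [mul_zero]
  rw [h6, sum_congr rfl h7, sum_congr rfl h8, ← mul_sum]
  ring

/-- the mean square -/
theorem vs_mean {x I : ℕ} (hI : (x : ℝ) ^ (2 / 3 : ℝ) * 2 ^ I ≤ x) (f : ℕ → ℝ) {D : ℕ → ℝ} (hD : IsD D) :
    Tendsto (fun N : ℕ => (∑ n ∈ Icc 1 N, vs x I f n ^ 2) / N) atTop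
      (𝓝 (∑ b ∈ Wn x I, D b * (f b ^ 2 + 2 * (f b * vf x I f b)))) := by
  classical
  have h1 : ∀ N : ℕ, (∑ n ∈ Icc 1 N, vs x I f n ^ 2) / (N : ℝ)
      = ∑ b ∈ Wn x I, (pc b N : ℝ) / N * (f b ^ 2 + 2 * (f b * vf x I f b)) := by
    intro N
    rw [sum_congr rfl fun n _ => vs_sq hI f n, sum_comm, sum_div]
    apply sum_congr rfl
    intro b _
    rw [← sum_filter, sum_const, nsmul_eq_mul]
    unfold pc
    ring
  rw [tendsto_congr h1]
  apply tendsto_finsetSum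
  intro b _
  exact (hD.lim b).mul_const _

/-- the property: large sum -/
theorem vs_AP (x I : ℕ) (f : ℕ → ℝ) (c : ℝ) : AP x fun n => c < |vs x I f n| := by
  classical
  intro n hn
  have h1 : vs x I f n = vs x I f (T n) := by
    unfold vs
    apply sum_congr rfl
    intro b hb
    have hbx := (Wn_mem.1 hb).1.2
    have h2 : Vis n b ↔ Vis (T n) b := by
      constructor
      · rintro ⟨j, hj⟩
        cases j with
        | zero =>
          simp only [Function.iterate_zero, id] at hj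
          omega
        | succ j => exact ⟨j, by rwa [Function.iterate_succ_apply] at hj⟩
      · rintro ⟨j, hj⟩
        exact ⟨j + 1, by rwa [Function.iterate_succ_apply]⟩
    simp only [h2]
  simp only
  rw [h1]

theorem cheb {x I : ℕ} (hI : (x : ℝ) ^ (2 / 3 : ℝ) * 2 ^ I ≤ x) (f : ℕ → ℝ) {D : ℕ → ℝ} (hD : IsD D) {c : ℝ}
    (hc : 0 ≤ c) {δ : ℝ} (hδ : HasD (fun n => c < |vs x I f n|) δ) :
    c ^ 2 * δ ≤ ∑ b ∈ Wn x I, D b * (f b ^ 2 + 2 * (f b * vf x I f b)) := by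
  classical
  apply le_of_tendsto_of_tendsto' (hδ.const_mul (c ^ 2)) (vs_mean hI f hD)
  intro N
  rw [← mul_div_assoc]
  apply div_le_div_of_nonneg_right _ (Nat.cast_nonneg _)
  unfold cN
  rw [mul_comm, ← nsmul_eq_mul, ← sum_const]
  calc ∑ n ∈ (Icc 1 N).filter (fun n => c < |vs x I f n|), c ^ 2
      ≤ ∑ n ∈ (Icc 1 N).filter (fun n => c < |vs x I f n|), vs x I f n ^ 2 := by
        apply sum_le_sum
        intro n hn
        have h1 := (mem_filter.1 hn).2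
        rw [← sq_abs (vs x I f n)]
        exact pow_le_pow_left₀ hc h1.le 2
    _ ≤ ∑ n ∈ Icc 1 N, vs x I f n ^ 2 :=
        sum_le_sum_of_subset_of_nonneg (filter_subset _ _) (fun n _ _ => sq_nonneg _)

end Pool.Agent.V11311.GT
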