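import Pool.Agent.V11311.GT.C

/-! Generic trajectories, part D: the mean square is small. -/

set_option autoImplicit false

namespace Pool.Agent.V11311.GT

open Finset Filter Topology Pool.Agent.V11311.PD Pool.Agent.V11311.PL Pool.Agent.V11311.FP

open Pool.Agent.Helper894.Collatz (T od)

open Pool.Agent.H377R2 (iter_pos)

open scoped Classical in
/-- the good integers of a block -/
noncomputable def bk (x : ℕ) (y : ℝ) : Finset ℕ := (Ioc ⌊y⌋₊ ⌊2 * y⌋₊).filter (good x)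

theorem bk_Gd {x : ℕ} {y : ℝ} (hy : 0 < y) (hxy : (x : ℝ) ^ (2 / 3 : ℝ) ≤ y) : ∀ a ∈ bk x y, a ∈ Gd (1 / 10) y := by
  classical
  intro a ha
  unfold bk at ha
  rw [mem_filter, mem_Ioc] at ha
  obtain ⟨⟨h1, h2⟩, h3⟩ := ha
  have h4 : y < a := (Nat.floor_lt hy.le).1 h1
  have h5 : (a : ℝ) ≤ 2 * y := (Nat.le_floor_iff (by linarith)).1 h2
  have h6 : (x : ℝ) ^ (1 / 3 : ℝ) ≤ Real.sqrt y := by
    apply Real.le_sqrt_of_sq_le
    calc ((x : ℝ) ^ (1 / 3 : ℝ)) ^ 2 = (x : ℝ) ^ (2 / 3 : ℝ) := by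
          rw [← Real.rpow_natCast, ← Real.rpow_mul (Nat.cast_nonneg _)]
          norm_num
      _ ≤ y := hxy
  refine ⟨h4, h5, h3.1.mono h6, fun b hb hby => h3.2 b hb (hby.trans (Real.sqrt_le_sqrt h4.le))⟩

theorem bk_miss (δ : ℝ) (hδ : 0 < δ) : ∀ᶠ y : ℝ in atTop, ∀ x : ℕ, 2 * y ≤ x →
    (((Ioc ⌊y⌋₊ ⌊2 * y⌋₊) \ bk x y).card : ℝ) ≤ δ * y := by
  classical
  have h2 : Tendsto (fun y : ℝ => 2 * y) atTop atTop := tendsto_id.const_mul_atTop (by norm_num)
  have e1 := h2.eventually (typ_card (1 / 10) 1 (by norm_num) (by norm_num))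
  have e2 := Gs_bad 1 (by norm_num)
  have e3 : ∀ᶠ y : ℝ in atTop, max 1 (10 / δ) ≤ Real.log y := Real.tendsto_log_atTop.eventually_ge_atTop _
  filter_upwards [e1, e2, e3, eventually_ge_atTop 1] with y h1 h2 h3 hy
  intro x hx
  have hy0 : 0 < y := by linarith
  have hlog1 : 1 ≤ Real.log y := (le_max_left _ _).trans h3
  have hlog2 : 10 / δ ≤ Real.log y := (le_max_right _ _).trans h3
  have hlog : 0 < Real.log y := by linarith
  have hx1 : (1 : ℝ) ≤ x := by linarith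
  set M := (Ioc ⌊y⌋₊ ⌊2 * y⌋₊) \ bk x y with hM
  have hmem : ∀ a ∈ M, (y < a ∧ (a : ℝ) ≤ 2 * y) ∧ ¬ good x a := by
    intro a ha
    rw [hM, Finset.mem_sdiff, mem_Ioc] at ha
    obtain ⟨⟨g1, g2⟩, g3⟩ := ha
    refine ⟨⟨(Nat.floor_lt hy0.le).1 g1, (Nat.le_floor_iff (by linarith)).1 g2⟩, fun h => g3 ?_⟩
    unfold bk
    rw [mem_filter, mem_Ioc]
    exact ⟨⟨g1, g2⟩, h⟩
  set M1 := M.filter fun a => ¬ Typ (1 / 10) ((2 * y) ^ (1 / 4 : ℝ)) a with hM1
  set M2 := M.filter fun a => a ∉ Gs with hM2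
  have hsub : M ⊆ M1 ∪ M2 := by
    intro a ha
    obtain ⟨⟨g1, g2⟩, g3⟩ := hmem a ha
    rw [mem_union, hM1, hM2, mem_filter, mem_filter]
    by_contra hcon
    push Not at hcon
    obtain ⟨k1, k2⟩ := hcon
    have k1' := k1 ha
    have k2' := k2 ha
    apply g3
    refine ⟨k1'.mono ?_, fun b hb hba => k2'.2 b hb hba⟩
    calc (2 * y) ^ (1 / 4 : ℝ) ≤ (x : ℝ) ^ (1 / 4 : ℝ) := Real.rpow_le_rpow (by linarith) hx (by norm_num)
      _ ≤ (x : ℝ) ^ (1 / 3 : ℝ) := Real.rpow_le_rpow_of_exponent_le hx1 (by norm_num)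
  have c1 : (M1.card : ℝ) ≤ 2 * (2 * y / Real.log (2 * y) ^ (1 : ℝ)) := by
    apply h1 M1
    intro n hn
    rw [hM1, mem_filter] at hn
    obtain ⟨⟨g1, g2⟩, _⟩ := hmem n hn.1
    refine ⟨?_, g2, hn.2⟩
    have : (0 : ℝ) < n := by linarith
    exact_mod_cast this
  have c2 : (M2.card : ℝ) ≤ 6 * (y / Real.log y ^ (1 : ℝ)) := by
    apply h2 M2
    intro n hn
    rw [hM2, mem_filter] at hn
    exact ⟨(hmem n hn.1).1, hn.2⟩
  rw [Real.rpow_one] at c1 c2
  have c3 : (M.card : ℝ) ≤ M1.card + M2.card := by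
    exact_mod_cast (card_le_card hsub).trans (card_union_le _ _)
  have c4 : 2 * (2 * y / Real.log (2 * y)) ≤ 4 * (y / Real.log y) := by
    have h5 : Real.log y ≤ Real.log (2 * y) := Real.log_le_log hy0 (by linarith)
    have h6 : y / Real.log (2 * y) ≤ y / Real.log y := div_le_div_of_nonneg_left hy0.le hlog h5
    have h7 : 2 * (2 * y / Real.log (2 * y)) = 4 * (y / Real.log (2 * y)) := by ring
    linarith
  have c5 : 10 * (y / Real.log y) ≤ δ * y := by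
    rw [← mul_div_assoc, div_le_iff₀ hlog]
    rw [div_le_iff₀ hδ] at hlog2
    nlinarith
  linarith

/-- splitting of the window into blocks -/
theorem Wn_sum (x : ℕ) (g : ℕ → ℝ) (I : ℕ) : ∑ b ∈ Wn x I, g b
    = ∑ i ∈ range I, ∑ b ∈ bk x ((x : ℝ) / 2 ^ (i + 1)), g b := by
  classical
  have hfl : ∀ j : ℕ, ⌊(x : ℝ) / 2 ^ j⌋₊ = x / 2 ^ j := by
    intro j
    have := Nat.floor_div_eq_div (K := ℝ) x (2 ^ j)
    push_cast at this
    exact this
  induction I with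
  | zero =>
    unfold Wn
    simp
  | succ I ih =>
    rw [sum_range_succ, ← ih]
    have h1 : Wn x (I + 1) = Wn x I ∪ bk x ((x : ℝ) / 2 ^ (I + 1)) := by
      unfold Wn bk
      rw [← filter_union]
      congr 1
      have e1 : 2 * ((x : ℝ) / 2 ^ (I + 1)) = (x : ℝ) / 2 ^ I := by rw [pow_succ]; field_simp
      rw [e1, hfl, hfl]
      ext b
      rw [mem_union, mem_Ioc, mem_Ioc, mem_Ioc]
      have e2 : x / 2 ^ (I + 1) ≤ x / 2 ^ I := Nat.div_le_div_left (Nat.pow_le_pow_right (by norm_num) (by omega)) (by positivity)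
      have e3 : x / 2 ^ I ≤ x := Nat.div_le_self _ _
      constructor
      · rintro ⟨h1, h2⟩
        rcases lt_or_ge (x / 2 ^ I) b with h3 | h3
        · exact Or.inl ⟨h3, h2⟩
        · exact Or.inr ⟨h1, h3⟩
      · rintro (⟨h1, h2⟩ | ⟨h1, h2⟩)
        · exact ⟨lt_of_le_of_lt e2 h1, h2⟩
        · exact ⟨h1, h2.trans e3⟩
    rw [h1, sum_union]
    rw [Finset.disjoint_left]
    intro b hb hb'
    unfold Wn at hb
    unfold bk at hb'
    rw [mem_filter, mem_Ioc] at hb hb'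
    have e1 : 2 * ((x : ℝ) / 2 ^ (I + 1)) = (x : ℝ) / 2 ^ I := by rw [pow_succ]; field_simp
    rw [e1, hfl, hfl] at hb'
    exact absurd hb.1.1 (not_lt.2 hb'.1.2)

theorem vf_near {x I : ℕ} (hI : (x : ℝ) ^ (2 / 3 : ℝ) * 2 ^ I ≤ x) {f : ℕ → ℝ} (hf : ∀ n, |f n| ≤ 1) {k : ℕ}
    (hk : 1 ≤ k) {b : ℕ} (hb : b ∈ Wn x I) : |vf x I f b - vs x I f (T^[k] b)| ≤ k := by
  classical
  obtain ⟨J, hJ⟩ := exists_nat_ge (8 * Real.log x)
  unfold vf vs
  rw [← sum_sub_distrib]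
  have h1 : ∀ c ∈ Wn x I, |(if c ≠ b ∧ Vis b c then f c else 0) - (if Vis (T^[k] b) c then f c else 0)|
      ≤ if c ∈ (range k).image (fun i => T^[i] b) then 1 else 0 := by
    intro c _
    by_cases h : Vis (T^[k] b) c
    · have h2 : c ≠ b := by
        obtain ⟨j, hj⟩ := h
        rintro rfl
        apply nice_aper (Wn_nice hI hJ) (mem_coe.2 hb) (Wn_pos hb) (show 0 < j + k by omega)
        rw [Function.iterate_add_apply, hj]
      have h3 : Vis b c := vis_trans ⟨k, rfl⟩ h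
      rw [if_pos ⟨h2, h3⟩, if_pos h, sub_self, abs_zero]
      split_ifs <;> norm_num
    · rw [if_neg h, sub_zero]
      by_cases h2 : c ≠ b ∧ Vis b c
      · rw [if_pos h2]
        obtain ⟨j, hj⟩ := h2.2
        have h3 : j < k := by
          by_contra hcon
          apply h
          exact ⟨j - k, by rw [← Function.iterate_add_apply, Nat.sub_add_cancel (by omega), hj]⟩
        rw [if_pos (mem_image.2 ⟨j, mem_range.2 h3, hj⟩)]
        exact hf c
      · rw [if_neg h2, abs_zero]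
        split_ifs <;> norm_num
  refine (abs_sum_le_sum_abs _ _).trans ((sum_le_sum h1).trans ?_)
  rw [← sum_filter, sum_const, nsmul_eq_mul, mul_one]
  have h2 : (Wn x I).filter (fun c => c ∈ (range k).image (fun i => T^[i] b)) ⊆ (range k).image (fun i => T^[i] b) := by
    intro c hc
    exact (mem_filter.1 hc).2
  have h3 := (card_le_card h2).trans card_image_le
  rw [card_range] at h3
  exact_mod_cast h3

theorem second_le {f : ℕ → ℝ} (hf1 : ∀ n, |f n| ≤ 1) (hf : Nul f) {D : ℕ → ℝ} (hD : IsD D) (ε : ℝ) (hε : 0 < ε) :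
    ∃ x0 : ℕ, ∀ x : ℕ, x0 ≤ x → ∀ I : ℕ, (x : ℝ) ^ (2 / 3 : ℝ) * 2 ^ I ≤ x →
      ∑ b ∈ Wn x I, D b * (f b ^ 2 + 2 * (f b * vf x I f b)) ≤ ε * Real.log x ^ 2 := by
  classical
  obtain ⟨k, hk1, δ, hδ, hA⟩ := lemA hf1 hf hD (ε / 40) (by positivity)
  obtain ⟨C, hC, hmass⟩ := block_mass hD
  obtain ⟨y0, hy0⟩ := eventually_atTop.1 (hA.and (hmass.and (bk_miss δ hδ)))
  have e1 : ∀ᶠ x : ℕ in atTop, max y0 1 ≤ (x : ℝ) ^ (2 / 3 : ℝ) :=
    ((tendsto_rpow_atTop (by norm_num : (0 : ℝ) < 2 / 3)).comp tendsto_natCast_atTop_atTop).eventually_ge_atTop _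
  have e2 : ∀ᶠ x : ℕ in atTop, max 1 (2 * (C * (1 + 2 * k)) / ε) ≤ Real.log x :=
    (Real.tendsto_log_atTop.comp tendsto_natCast_atTop_atTop).eventually_ge_atTop _
  obtain ⟨x0, hx0⟩ := eventually_atTop.1 (e1.and (e2.and (eventually_ge_atTop 1)))
  refine ⟨x0, fun x hx I hI => ?_⟩
  obtain ⟨h1, h2, h3⟩ := hx0 x hx
  have hxR : (1 : ℝ) ≤ x := by exact_mod_cast h3
  have hx0' : (0 : ℝ) < x := by linarith
  have hL1 : 1 ≤ Real.log x := (le_max_left _ _).trans h2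
  have hL2 : 2 * (C * (1 + 2 * k)) / ε ≤ Real.log x := (le_max_right _ _).trans h2
  set L := Real.log x with hL
  -- the number of blocks
  have hIL : (I : ℝ) ≤ L := by
    have h4 := Real.log_le_log (by positivity) hI
    rw [Real.log_mul (by positivity) (by positivity), Real.log_rpow hx0', Real.log_pow] at h4
    have h5 := Real.log_two_gt_d9
    have h6 : (0 : ℝ) ≤ I := Nat.cast_nonneg _
    nlinarith
  obtain ⟨J, hJ⟩ : ∃ J : ℕ, J = ⌈8 * L⌉₊ := ⟨_, rfl⟩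
  have hJ1 : 8 * L ≤ J := by rw [hJ]; exact Nat.le_ceil _
  have hJ2 : (J : ℝ) ≤ 9 * L := by
    rw [hJ]
    have := Nat.ceil_lt_add_one (by positivity : 0 ≤ 8 * L)
    linarith
  have hJ0 : (0 : ℝ) < J := by linarith
  -- the blocks
  have hblk : ∀ i ∈ range I, max y0 1 ≤ (x : ℝ) / 2 ^ (i + 1) ∧ (x : ℝ) ^ (2 / 3 : ℝ) ≤ (x : ℝ) / 2 ^ (i + 1) ∧
      2 * ((x : ℝ) / 2 ^ (i + 1)) ≤ x := by
    intro i hi
    rw [mem_range] at hi
    have h4 : (2 : ℝ) ^ (i + 1) ≤ 2 ^ I := pow_le_pow_right₀ (by norm_num) (by omega)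
    have h5 : (x : ℝ) ^ (2 / 3 : ℝ) ≤ (x : ℝ) / 2 ^ (i + 1) := by
      rw [le_div_iff₀ (by positivity)]
      exact (mul_le_mul_of_nonneg_left h4 (by positivity)).trans hI
    refine ⟨h1.trans h5, h5, ?_⟩
    rw [pow_succ]
    have h6 : (1 : ℝ) ≤ 2 ^ i := one_le_pow₀ (by norm_num)
    have h7 : 2 * ((x : ℝ) / (2 ^ i * 2)) = x / 2 ^ i := by field_simp
    rw [h7]
    exact div_le_self hx0'.le h6
  have hsumD : ∑ b ∈ Wn x I, D b ≤ I * C := by
    rw [Wn_sum]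
    calc ∑ i ∈ range I, ∑ b ∈ bk x ((x : ℝ) / 2 ^ (i + 1)), D b ≤ ∑ i ∈ range I, C := by
          apply sum_le_sum
          intro i hi
          obtain ⟨g1, g2, g3⟩ := hblk i hi
          exact (hy0 _ ((le_max_left _ _).trans g1)).2.1 _ (bk_Gd (by linarith [(le_max_right y0 1).trans g1]) g2)
      _ = I * C := by rw [sum_const, card_range, nsmul_eq_mul]
  have hcross : |∑ b ∈ Wn x I, D b * (f b * vs x I f (T^[k] b))| ≤ I * (J * (ε / 40)) := by
    rw [Wn_sum]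
    refine (abs_sum_le_sum_abs _ _).trans ?_
    calc ∑ i ∈ range I, |∑ b ∈ bk x ((x : ℝ) / 2 ^ (i + 1)), D b * (f b * vs x I f (T^[k] b))|
        ≤ ∑ i ∈ range I, J * (ε / 40) := by
          apply sum_le_sum
          intro i hi
          obtain ⟨g1, g2, g3⟩ := hblk i hi
          have hyy := hy0 _ ((le_max_left _ _).trans g1)
          have h4 := hyy.1 _ (bk_Gd (by linarith [(le_max_right y0 1).trans g1]) g2) (hyy.2.2 x g3)
            (fun z => vs x I f z / J) (fun z => by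
              rw [abs_div, abs_of_pos hJ0, div_le_one hJ0]
              exact vs_abs hI hJ1 hf1 z)
          have h5 : ∑ b ∈ bk x ((x : ℝ) / 2 ^ (i + 1)), D b * (f b * vs x I f (T^[k] b))
              = J * ∑ b ∈ bk x ((x : ℝ) / 2 ^ (i + 1)), D b * (f b * (vs x I f (T^[k] b) / J)) := by
            rw [mul_sum]
            apply sum_congr rfl
            intro b _
            field_simp
          rw [h5, abs_mul, abs_of_pos hJ0]
          exact mul_le_mul_of_nonneg_left h4 hJ0.le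
      _ = I * (J * (ε / 40)) := by rw [sum_const, card_range, nsmul_eq_mul]
  have hpt : ∀ b ∈ Wn x I, D b * (f b ^ 2 + 2 * (f b * vf x I f b))
      ≤ (1 + 2 * k) * D b + 2 * (D b * (f b * vs x I f (T^[k] b))) := by
    intro b hb
    have h4 := vf_near hI hf1 hk1 hb
    have h5 := hf1 b
    have h6 := hD.nonneg b
    have h7 : f b ^ 2 ≤ 1 := by
      rw [← sq_abs]
      exact pow_le_one₀ (abs_nonneg _) h5
    have h8 : f b * (vf x I f b - vs x I f (T^[k] b)) ≤ k := by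
      calc f b * (vf x I f b - vs x I f (T^[k] b)) ≤ |f b * (vf x I f b - vs x I f (T^[k] b))| := le_abs_self _
        _ = |f b| * |vf x I f b - vs x I f (T^[k] b)| := abs_mul _ _
        _ ≤ 1 * k := mul_le_mul h5 h4 (abs_nonneg _) zero_le_one
        _ = k := one_mul _
    have h9 : f b ^ 2 + 2 * (f b * vf x I f b) ≤ (1 + 2 * k) + 2 * (f b * vs x I f (T^[k] b)) := by
      have : f b * (vf x I f b - vs x I f (T^[k] b)) = f b * vf x I f b - f b * vs x I f (T^[k] b) := by ring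
      linarith
    calc D b * (f b ^ 2 + 2 * (f b * vf x I f b)) ≤ D b * ((1 + 2 * k) + 2 * (f b * vs x I f (T^[k] b))) :=
          mul_le_mul_of_nonneg_left h9 h6
      _ = _ := by ring
  have hfin : ∑ b ∈ Wn x I, D b * (f b ^ 2 + 2 * (f b * vf x I f b))
      ≤ (1 + 2 * k) * (I * C) + 2 * (I * (J * (ε / 40))) := by
    refine (sum_le_sum hpt).trans ?_
    rw [sum_add_distrib, ← mul_sum, ← mul_sum]
    have h4 := (abs_le.1 hcross).2
    have h5 : (1 + 2 * (k : ℝ)) * ∑ b ∈ Wn x I, D b ≤ (1 + 2 * k) * (I * C) :=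
      mul_le_mul_of_nonneg_left hsumD (by positivity)
    linarith
  refine hfin.trans ?_
  have h4 : (1 + 2 * (k : ℝ)) * (I * C) ≤ ε / 2 * L ^ 2 := by
    rw [div_le_iff₀ hε] at hL2
    have h5 : (I : ℝ) * (C * (1 + 2 * k)) ≤ L * (C * (1 + 2 * k)) := mul_le_mul_of_nonneg_right hIL (by positivity)
    have h6 : L * (C * (1 + 2 * k)) ≤ L * (L * ε / 2) := mul_le_mul_of_nonneg_left (by linarith) (by linarith)
    nlinarith
  have h5 : 2 * ((I : ℝ) * (J * (ε / 40))) ≤ ε / 2 * L ^ 2 := by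
    have h6 : (I : ℝ) * J ≤ L * (9 * L) := mul_le_mul hIL hJ2 hJ0.le (by linarith)
    have h7 : (I : ℝ) * J * ε ≤ L * (9 * L) * ε := mul_le_mul_of_nonneg_right h6 hε.le
    nlinarith [mul_nonneg (sq_nonneg L) hε.le]
  linarith

/-- THE SUM OVER A WINDOW IS SMALL -/
theorem window {f : ℕ → ℝ} (hf1 : ∀ n, |f n| ≤ 1) (hf : Nul f) {θ : ℝ} (hθ : 1 < θ) (ε : ℝ) (hε : 0 < ε) :
    ∃ x0 : ℕ, ∀ x : ℕ, x0 ≤ x → ∀ I : ℕ, (x : ℝ) ^ (2 / 3 : ℝ) * 2 ^ I ≤ x → ∀ N : ℕ, (x : ℝ) ^ θ ≤ N →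
      (cN (fun n => ε * Real.log x < |vs x I f n|) N : ℝ) ≤ ε * N := by
  choose D hD using fun a : ℕ => dens_exists a
  have hD' : IsD D := hD
  obtain ⟨x1, hx1⟩ := second_le hf1 hf hD' (ε ^ 2 * (ε / 2)) (by positivity)
  obtain ⟨x2, hx2⟩ := stabR hθ (ε / 2) (by positivity)
  refine ⟨max (max x1 x2) 3, fun x hx I hI N hN => ?_⟩
  have hxx1 : x1 ≤ x := (le_max_left _ _).trans ((le_max_left _ _).trans hx)
  have hxx2 : x2 ≤ x := (le_max_right _ _).trans ((le_max_left _ _).trans hx)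
  have hx3 : 3 ≤ x := (le_max_right _ _).trans hx
  have hxR : (3 : ℝ) ≤ x := by exact_mod_cast hx3
  have hL : 0 < Real.log x := Real.log_pos (by linarith)
  obtain ⟨δ, hδ, hst⟩ := hx2 x hxx2 _ (vs_AP x I f (ε * Real.log x))
  have h1 := cheb hI f hD' (by positivity : 0 ≤ ε * Real.log x) hδ
  have h2 := h1.trans (hx1 x hxx1 I hI)
  have h3 : δ ≤ ε / 2 := by
    have h4 : 0 < (ε * Real.log x) ^ 2 := by positivity
    have h5 : (ε * Real.log x) ^ 2 * δ ≤ (ε * Real.log x) ^ 2 * (ε / 2) := by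
      refine h2.trans (le_of_eq ?_)
      ring
    exact le_of_mul_le_mul_left h5 h4
  have h4 := hst N hN
  have hN0 : (0 : ℝ) < N := lt_of_lt_of_le (by positivity) hN
  rw [abs_le] at h4
  have h5 : (cN (fun n => ε * Real.log x < |vs x I f n|) N : ℝ) / N ≤ ε := by linarith [h4.2]
  rwa [div_le_iff₀ hN0] at h5

end Pool.Agent.V11311.GT
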