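import Pool.Agent.V11311.GT.D

/-! Generic trajectories, part E: the trajectories meet only good integers of a window. -/

set_option autoImplicit false

namespace Pool.Agent.V11311.GT

open Finset Filter Topology Pool.Agent.V11311.PD Pool.Agent.V11311.PL Pool.Agent.V11311.FP

open Pool.Agent.Helper894.Collatz (T od)

open Pool.Agent.H377R2 (iter_pos)

open Pool.Agent.H319R2.Lln (mu Prof lln mu_lower mu_upper mu_eq)

theorem typ_cardR (ε A ρ : ℝ) (hε : 0 < ε) (hA : 0 ≤ A) (hρ : 0 < ρ) : ∀ᶠ X : ℝ in atTop, ∀ S : Finset ℕ,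
    (∀ n ∈ S, 1 ≤ n ∧ (n : ℝ) ≤ X ∧ ¬ Typ ε (X ^ ρ) n) →
    (S.card : ℝ) ≤ 2 * (X / Real.log X ^ A) := by
  obtain ⟨B, hB, hl⟩ := lln ε A hε hA
  have e1 : ∀ᶠ X : ℝ in atTop, ‖Real.log X ^ B‖ ≤ 1 * ‖X ^ ρ‖ :=
    (isLittleO_log_rpow_rpow_atTop B hρ).bound one_pos
  have e2 : ∀ᶠ X : ℝ in atTop, ‖Real.log X ^ (A + 4)‖ ≤ 1 * ‖X ^ (2 : ℝ)‖ :=
    (isLittleO_log_rpow_rpow_atTop (A + 4) (by norm_num : (0 : ℝ) < 2)).bound one_pos
  filter_upwards [hl, e1, e2, eventually_ge_atTop 3] with X h1 h2 h3 h4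
  intro S hS
  have hX0 : 0 < X := by linarith
  have hlog : 0 < Real.log X := Real.log_pos (by linarith)
  rw [Real.norm_of_nonneg (by positivity), Real.norm_of_nonneg (by positivity), one_mul] at h2 h3
  have hV : X ≤ X ^ 3 := by nlinarith [sq_nonneg X, sq_nonneg (X - 1)]
  have h5 := h1 (X ^ 3) hV S (fun n hn => by
    obtain ⟨a1, a2, a3⟩ := hS n hn
    refine ⟨a1, a2, fun hp => a3 ?_⟩
    obtain ⟨m0, b1, b2⟩ := hp
    exact ⟨m0, b1.trans h2, fun m hm => (b2 m hm).1⟩)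
  refine h5.trans ?_
  have h6 : X ^ 2 * Real.log X ^ 4 / X ^ 3 ≤ X / Real.log X ^ A := by
    rw [div_le_div_iff₀ (by positivity) (by positivity)]
    have h7 : Real.log X ^ (4 : ℕ) * Real.log X ^ A = Real.log X ^ (A + 4) := by
      rw [Real.rpow_add hlog, mul_comm]
      congr 1
      rw [← Real.rpow_natCast]
      norm_num
    have h8 : X ^ (2 : ℝ) = X ^ (2 : ℕ) := by norm_cast
    rw [h8] at h3
    calc X ^ 2 * Real.log X ^ 4 * Real.log X ^ A = X ^ 2 * (Real.log X ^ 4 * Real.log X ^ A) := by ring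
      _ = X ^ 2 * Real.log X ^ (A + 4) := by rw [h7]
      _ ≤ X ^ 2 * X ^ 2 := mul_le_mul_of_nonneg_left h3 (by positivity)
      _ = X * X ^ 3 := by ring
  linarith

theorem pre_card (m : ℕ) : ∀ A E : Finset ℕ, (∀ n ∈ A, T^[m] n ∈ E) → A.card ≤ 2 ^ m * E.card := by
  classical
  induction m with
  | zero =>
    intro A E h
    rw [pow_zero, one_mul]
    exact card_le_card fun n hn => by simpa using h n hn
  | succ m ih =>
    intro A E h
    have h1 := ih (A.image T) E (fun n hn => by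
      obtain ⟨n', hn', rfl⟩ := mem_image.1 hn
      have := h n' hn'
      rwa [Function.iterate_succ_apply] at this)
    have h2 : A.card ≤ 2 * (A.image T).card := by
      apply card_le_mul_card_image
      intro a _
      have h3 : A.filter (fun x => T x = a) ⊆ {2 * a, (2 * a - 1) / 3} := by
        intro x hx
        rw [mem_filter] at hx
        have h4 := hx.2
        rw [mem_insert, mem_singleton]
        unfold T at h4
        split_ifs at h4 with h5
        · left; omega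
        · right; omega
      exact (card_le_card h3).trans card_le_two
    calc A.card ≤ 2 * (A.image T).card := h2
      _ ≤ 2 * (2 ^ m * E.card) := Nat.mul_le_mul_left 2 h1
      _ = 2 ^ (m + 1) * E.card := by rw [pow_succ]; ring

/-- the trajectory meets a bad integer of the window before falling below `x ^ (2 / 5)` -/
def Qb (x I n : ℕ) : Prop := ∃ m : ℕ, (x / 2 ^ I < T^[m] n ∧ T^[m] n ≤ x) ∧ ¬ good x (T^[m] n) ∧
  ∀ i ≤ m, (x : ℝ) ^ (2 / 5 : ℝ) < (T^[i] n : ℕ)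

theorem Qb_AP {x : ℕ} (hx : 1 ≤ x) (I : ℕ) : AP x (Qb x I) := by
  have hxR : (1 : ℝ) ≤ x := by exact_mod_cast hx
  intro n hn
  constructor
  · rintro ⟨m, h1, h2, h3⟩
    cases m with
    | zero =>
      simp only [Function.iterate_zero, id] at h1
      omega
    | succ m =>
      refine ⟨m, ?_, ?_, ?_⟩
      · rwa [Function.iterate_succ_apply] at h1
      · rwa [Function.iterate_succ_apply] at h2
      · intro i hi
        have := h3 (i + 1) (by omega)
        rwa [Function.iterate_succ_apply] at this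
  · rintro ⟨m, h1, h2, h3⟩
    refine ⟨m + 1, ?_, ?_, ?_⟩
    · rwa [Function.iterate_succ_apply]
    · rwa [Function.iterate_succ_apply]
    · intro i hi
      cases i with
      | zero =>
        simp only [Function.iterate_zero, id]
        calc (x : ℝ) ^ (2 / 5 : ℝ) ≤ (x : ℝ) ^ (1 : ℝ) := Real.rpow_le_rpow_of_exponent_le hxR (by norm_num)
          _ = x := Real.rpow_one _
          _ < n := by exact_mod_cast hn
      | succ i =>
        rw [Function.iterate_succ_apply]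
        exact h3 i (by omega)

theorem mu_low : 0.142 ≤ mu := by
  have h1 := mu_lower
  have h2 := Real.log_two_gt_d9
  linarith

theorem Qb_count {θ : ℝ} (hθ : 1 < θ) (hθ2 : θ ≤ 1.02) (ε : ℝ) (hε : 0 < ε) : ∀ᶠ x : ℕ in atTop, ∀ I : ℕ,
    (x : ℝ) ^ (0.98 : ℝ) * 2 ^ I ≤ x → (cN (Qb x I) ⌈(x : ℝ) ^ θ⌉₊ : ℝ) ≤ ε * ⌈(x : ℝ) ^ θ⌉₊ := by
  classical
  have hid : Tendsto (fun x : ℕ => (x : ℝ)) atTop atTop := tendsto_natCast_atTop_atTop
  have hN0 : Tendsto (fun x : ℕ => ((⌈(x : ℝ) ^ θ⌉₊ : ℕ) : ℝ)) atTop atTop :=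
    tendsto_natCast_atTop_atTop.comp (tendsto_nat_ceil_atTop.comp ((tendsto_rpow_atTop (by linarith)).comp hid))
  have e1 := hN0.eventually (typ_cardR (1 / 40) 1 (1 / 4) (by norm_num) (by norm_num) (by norm_num))
  have e2 : ∀ᶠ x : ℕ in atTop, max 100 (4 / ε) ≤ Real.log x :=
    (Real.tendsto_log_atTop.comp hid).eventually_ge_atTop _
  have e3 : ∀ᶠ x : ℕ in atTop, ‖Real.log x‖ ≤ 1 * ‖(x : ℝ) ^ (0.1 : ℝ)‖ :=
    hid.eventually ((isLittleO_log_rpow_atTop (by norm_num : (0 : ℝ) < 0.1)).bound one_pos)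
  have e4 : ∀ᶠ x : ℕ in atTop, 9 * Real.exp 5 * 2 / ε ≤ (x : ℝ) ^ (0.07 : ℝ) :=
    ((tendsto_rpow_atTop (by norm_num : (0 : ℝ) < 0.07)).comp hid).eventually_ge_atTop _
  filter_upwards [e1, e2, e3, e4, eventually_ge_atTop 1] with x h1 h2 h3 h4 h5
  intro I hI
  set N0 := ⌈(x : ℝ) ^ θ⌉₊ with hN0def
  set L := Real.log x with hL
  have hL100 : 100 ≤ L := (le_max_left _ _).trans h2
  have hLε : 4 / ε ≤ L := (le_max_right _ _).trans h2
  have hx1 : (1 : ℝ) ≤ x := by exact_mod_cast h5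
  have hx0 : (0 : ℝ) < x := by linarith
  have hxθ : (x : ℝ) ≤ (x : ℝ) ^ θ := by
    calc (x : ℝ) = (x : ℝ) ^ (1 : ℝ) := (Real.rpow_one _).symm
      _ ≤ _ := Real.rpow_le_rpow_of_exponent_le hx1 hθ.le
  have hN1 : (x : ℝ) ^ θ ≤ N0 := Nat.le_ceil _
  have hxN : (x : ℝ) ≤ N0 := hxθ.trans hN1
  have hN0pos : (0 : ℝ) < N0 := by linarith
  have hN2 : (N0 : ℝ) ≤ 2 * (x : ℝ) ^ θ := by
    have := Nat.ceil_lt_add_one (by positivity : 0 ≤ (x : ℝ) ^ θ)
    linarith
  have hlogN : Real.log N0 ≤ 1.02 * L + 0.7 := by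
    have h6 := Real.log_le_log hN0pos hN2
    rw [Real.log_mul (by norm_num) (by positivity), Real.log_rpow hx0] at h6
    have h7 := Real.log_two_lt_d9
    nlinarith
  have hlogN1 : L ≤ Real.log N0 := Real.log_le_log hx0 hxN
  have hlower : ∀ b : ℕ, x / 2 ^ I < b → (x : ℝ) ^ (0.98 : ℝ) ≤ b := by
    intro b hb
    have h6 := div_lt_real (by positivity) hb
    push_cast at h6
    rw [← le_div_iff₀ (by positivity)] at hI
    linarith
  have hloglower : ∀ b : ℕ, x / 2 ^ I < b → 0.98 * L ≤ Real.log b := by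
    intro b hb
    have h6 := Real.log_le_log (by positivity) (hlower b hb)
    rwa [Real.log_rpow hx0] at h6
  -- comparisons of powers
  have hN14 : (N0 : ℝ) ^ (1 / 4 : ℝ) ≤ (x : ℝ) ^ (1 / 3 : ℝ) := by
    rw [Real.rpow_def_of_pos hN0pos, Real.rpow_def_of_pos hx0]
    apply Real.exp_le_exp.2
    rw [← hL]
    linarith
  have hx13 : (x : ℝ) ^ (1 / 3 : ℝ) ≤ (x : ℝ) ^ (2 / 5 : ℝ) := Real.rpow_le_rpow_of_exponent_le hx1 (by norm_num)
  -- the exceptional set
  set E := (Ioc (x / 2 ^ I) x).filter fun b => Typ (1 / 10) ((x : ℝ) ^ (1 / 3 : ℝ)) b ∧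
    ∃ b' : ℕ, 0 < b' ∧ (b' : ℝ) ≤ Real.sqrt b ∧ ∃ j : ℕ, T^[j] b' = b with hE
  obtain ⟨J, hJ⟩ : ∃ J : ℕ, J = ⌈8 * L⌉₊ := ⟨_, rfl⟩
  have hJ1 : 8 * L ≤ J := by rw [hJ]; exact Nat.le_ceil _
  have hJ2 : (J : ℝ) ≤ 9 * L := by
    rw [hJ]
    have := Nat.ceil_lt_add_one (by positivity : 0 ≤ 8 * L)
    linarith
  have hEcard : (E.card : ℝ) ≤ Real.sqrt x * J := by
    apply reached_card (Real.sqrt_nonneg _) E
    · intro a ha
      rw [hE, mem_filter, mem_Ioc] at ha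
      have h6 := hloglower a ha.1.1
      have ha0 : (0 : ℝ) < a := lt_of_lt_of_le (by positivity) (hlower a ha.1.1)
      rw [Real.sqrt_eq_rpow, Real.rpow_def_of_pos hx0]
      calc Real.exp (Real.log x * (1 / 2)) < Real.exp (Real.log a) := by
            apply Real.exp_lt_exp.2
            rw [← hL]
            linarith
        _ = a := Real.exp_log ha0
    · intro a ha
      rw [hE, mem_filter, mem_Ioc] at ha
      have ha0 : 0 < a := lt_of_le_of_lt (Nat.zero_le _) ha.1.1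
      obtain ⟨m0, g1, g2, _⟩ := ha.2.1.time ha0 le_rfl
      refine ⟨m0, ?_, g2.trans ?_⟩
      · have h6 : Real.log a ≤ L := Real.log_le_log (by exact_mod_cast ha0) (by exact_mod_cast ha.1.2)
        have : (m0 : ℝ) ≤ J := by linarith
        exact_mod_cast this
      · rw [Real.sqrt_eq_rpow]
        exact Real.rpow_le_rpow_of_exponent_le hx1 (by norm_num)
    · intro a ha
      rw [hE, mem_filter, mem_Ioc] at ha
      obtain ⟨b', g1, g2, g3⟩ := ha.2.2
      exact ⟨b', g1, g2.trans (Real.sqrt_le_sqrt (by exact_mod_cast ha.1.2)), g3⟩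
  -- the time
  obtain ⟨M, hM⟩ : ∃ M : ℕ, M = ⌊0.47 * L + 6⌋₊ := ⟨_, rfl⟩
  set B1 := (Icc 1 N0).filter fun n => ¬ Typ (1 / 40) ((N0 : ℝ) ^ (1 / 4 : ℝ)) n with hB1
  set B2 := (range (M + 1)).biUnion fun m => (Icc 1 N0).filter fun n => T^[m] n ∈ E with hB2
  have hsub : (Icc 1 N0).filter (Qb x I) ⊆ B1 ∪ B2 := by
    intro n hn
    rw [mem_filter, mem_Icc] at hn
    obtain ⟨⟨hn1, hn2⟩, m, ⟨g1, g2⟩, g3, g4⟩ := hn
    rw [mem_union]
    by_cases hT : Typ (1 / 40) ((N0 : ℝ) ^ (1 / 4 : ℝ)) n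
    · right
      obtain ⟨m0, k1, k2⟩ := hT
      have hmm0 : m < m0 := by
        by_contra hcon
        push Not at hcon
        have := g4 m0 hcon
        linarith
      have hn0 : (0 : ℝ) < n := by exact_mod_cast hn1
      have hlogn : Real.log n ≤ 1.02 * L + 0.7 :=
        (Real.log_le_log hn0 (by exact_mod_cast hn2)).trans hlogN
      have hlogn0 : 0 ≤ Real.log n := Real.log_natCast_nonneg n
      set b := T^[m] n with hb
      have hlb := hloglower b g1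
      have hkm := k2 m hmm0.le
      rw [← hb] at hkm
      rw [abs_le] at hkm
      have hTypb : Typ (1 / 10) ((x : ℝ) ^ (1 / 3 : ℝ)) b := by
        refine ⟨m0 - m, ?_, ?_⟩
        · rw [hb, ← Function.iterate_add_apply, Nat.sub_add_cancel hmm0.le]
          exact k1.trans hN14
        · intro j hj
          have h6 := k2 (j + m) (by omega)
          rw [Function.iterate_add_apply, ← hb] at h6
          push_cast at h6
          rw [abs_le] at h6 ⊢
          constructor <;> linarith [h6.1, h6.2, hkm.1, hkm.2]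
      have hbE : b ∈ E := by
        rw [hE, mem_filter, mem_Ioc]
        refine ⟨⟨g1, g2⟩, hTypb, ?_⟩
        by_contra hcon
        apply g3
        refine ⟨hTypb, fun b' hb'0 hb' j hj => hcon ⟨b', hb'0, hb', j, hj⟩⟩
      rw [hB2, mem_biUnion]
      refine ⟨m, ?_, ?_⟩
      · rw [mem_range, Nat.lt_succ_iff, hM]
        apply Nat.le_floor
        have h7 := mu_low
        have h8 : mu * m ≤ 0.0655 * L + 0.72 := by linarith [hkm.1, hkm.2]
        have h9 : (0 : ℝ) ≤ m := Nat.cast_nonneg _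
        have h10 : 0.142 * (m : ℝ) ≤ mu * m := mul_le_mul_of_nonneg_right h7 h9
        linarith
      · rw [mem_filter, mem_Icc]
        exact ⟨⟨hn1, hn2⟩, hbE⟩
    · left
      rw [hB1, mem_filter, mem_Icc]
      exact ⟨⟨hn1, hn2⟩, hT⟩
  have hc1 : (B1.card : ℝ) ≤ ε / 2 * N0 := by
    have h6 := h1 B1 (fun n hn => by
      rw [hB1, mem_filter, mem_Icc] at hn
      exact ⟨hn.1.1, by exact_mod_cast hn.1.2, hn.2⟩)
    rw [Real.rpow_one] at h6
    refine h6.trans ?_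
    rw [← mul_div_assoc, div_le_iff₀ (by linarith)]
    rw [div_le_iff₀ hε] at hLε
    have h7 : 4 ≤ Real.log N0 * ε := hLε.trans (mul_le_mul_of_nonneg_right hlogN1 hε.le)
    have h8 : (N0 : ℝ) / 2 * 4 ≤ N0 / 2 * (Real.log N0 * ε) := mul_le_mul_of_nonneg_left h7 (by positivity)
    linarith
  have hc2 : (B2.card : ℝ) ≤ ε / 2 * N0 := by
    have h6 : B2.card ≤ 2 ^ (M + 1) * E.card := by
      calc B2.card ≤ ∑ m ∈ range (M + 1), ((Icc 1 N0).filter fun n => T^[m] n ∈ E).card := card_biUnion_le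
        _ ≤ ∑ m ∈ range (M + 1), 2 ^ m * E.card := by
            apply sum_le_sum
            intro m _
            exact pre_card m _ E (fun n hn => (mem_filter.1 hn).2)
        _ = (∑ m ∈ range (M + 1), 2 ^ m) * E.card := by rw [sum_mul]
        _ ≤ 2 ^ (M + 1) * E.card := by
            apply Nat.mul_le_mul_right
            have := Nat.geomSum_eq (m := 2) le_rfl (M + 1)
            rw [this]
            norm_num
    have h7 : (2 : ℝ) ^ (M + 1) ≤ (x : ℝ) ^ (0.33 : ℝ) * Real.exp 5 := by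
      have h8 : (M : ℝ) ≤ 0.47 * L + 6 := by rw [hM]; exact Nat.floor_le (by linarith)
      have h9 : (2 : ℝ) ^ (M + 1) = Real.exp (Real.log 2 * ((M + 1 : ℕ) : ℝ)) := by
        rw [mul_comm, Real.exp_nat_mul, Real.exp_log (by norm_num)]
      rw [h9, Real.rpow_def_of_pos hx0, ← Real.exp_add]
      apply Real.exp_le_exp.2
      push_cast
      rw [← hL]
      have h10 := Real.log_two_lt_d9
      have h11 : (0 : ℝ) ≤ (M : ℝ) + 1 := by positivity
      have h12 : Real.log 2 * ((M : ℝ) + 1) ≤ 0.6932 * ((M : ℝ) + 1) := mul_le_mul_of_nonneg_right (by linarith) h11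
      linarith
    rw [Real.norm_of_nonneg (by linarith), Real.norm_of_nonneg (by positivity), one_mul] at h3
    have h8 : (B2.card : ℝ) ≤ (x : ℝ) ^ (0.33 : ℝ) * Real.exp 5 * (Real.sqrt x * (9 * (x : ℝ) ^ (0.1 : ℝ))) := by
      calc (B2.card : ℝ) ≤ 2 ^ (M + 1) * E.card := by exact_mod_cast h6
        _ ≤ (x : ℝ) ^ (0.33 : ℝ) * Real.exp 5 * (Real.sqrt x * (9 * (x : ℝ) ^ (0.1 : ℝ))) := by
            apply mul_le_mul h7 _ (Nat.cast_nonneg _) (by positivity)
            refine hEcard.trans (mul_le_mul_of_nonneg_left ?_ (Real.sqrt_nonneg _))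
            linarith
    have h9 : (x : ℝ) ^ (0.33 : ℝ) * Real.exp 5 * (Real.sqrt x * (9 * (x : ℝ) ^ (0.1 : ℝ)))
        = 9 * Real.exp 5 * (x : ℝ) ^ (0.93 : ℝ) := by
      rw [Real.sqrt_eq_rpow]
      have h10 : (x : ℝ) ^ (0.93 : ℝ) = (x : ℝ) ^ (0.33 : ℝ) * (x : ℝ) ^ (1 / 2 : ℝ) * (x : ℝ) ^ (0.1 : ℝ) := by
        rw [← Real.rpow_add hx0, ← Real.rpow_add hx0]
        norm_num
      rw [h10]
      ring
    have h10 : (x : ℝ) = (x : ℝ) ^ (0.93 : ℝ) * (x : ℝ) ^ (0.07 : ℝ) := by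
      rw [← Real.rpow_add hx0]
      norm_num
    rw [h9] at h8
    rw [div_le_iff₀ hε] at h4
    have h11 : (x : ℝ) ^ (0.93 : ℝ) * (9 * Real.exp 5 * 2) ≤ (x : ℝ) ^ (0.93 : ℝ) * ((x : ℝ) ^ (0.07 : ℝ) * ε) :=
      mul_le_mul_of_nonneg_left h4 (by positivity)
    have h12 : (x : ℝ) ^ (0.93 : ℝ) * ((x : ℝ) ^ (0.07 : ℝ) * ε) = x * ε := by
      rw [← mul_assoc, ← h10]
    have h13 : ε / 2 * (x : ℝ) ≤ ε / 2 * N0 := mul_le_mul_of_nonneg_left hxN (by positivity)
    linarith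
  have hc : (cN (Qb x I) N0 : ℝ) ≤ B1.card + B2.card := by
    unfold cN
    have := (card_le_card hsub).trans (card_union_le _ _)
    have h6 : ((Icc 1 N0).filter (Qb x I)).card ≤ B1.card + B2.card := this
    have h7 : (@Finset.filter ℕ (Qb x I) (fun a => Classical.propDecidable _) (Icc 1 N0)).card
        = ((Icc 1 N0).filter (Qb x I)).card := by congr
    rw [h7]
    exact_mod_cast h6
  linarith

/-- THE TRAJECTORIES MEET ONLY GOOD INTEGERS -/
theorem Qb_window {θ : ℝ} (hθ : 1 < θ) (hθ2 : θ ≤ 1.02) (ε : ℝ) (hε : 0 < ε) : ∃ x0 : ℕ, ∀ x : ℕ, x0 ≤ x →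
    ∀ I : ℕ, (x : ℝ) ^ (0.98 : ℝ) * 2 ^ I ≤ x → ∀ N : ℕ, (x : ℝ) ^ θ ≤ N → (cN (Qb x I) N : ℝ) ≤ ε * N := by
  obtain ⟨x1, hx1⟩ := eventually_atTop.1 (Qb_count hθ hθ2 (ε / 3) (by positivity))
  obtain ⟨x2, hx2⟩ := stabR hθ (ε / 3) (by positivity)
  refine ⟨max (max x1 x2) 1, fun x hx I hI N hN => ?_⟩
  have hxx1 : x1 ≤ x := (le_max_left _ _).trans ((le_max_left _ _).trans hx)
  have hxx2 : x2 ≤ x := (le_max_right _ _).trans ((le_max_left _ _).trans hx)
  have hx3 : 1 ≤ x := (le_max_right _ _).trans hx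
  have hxR : (1 : ℝ) ≤ x := by exact_mod_cast hx3
  obtain ⟨δ, hδ, hst⟩ := hx2 x hxx2 _ (Qb_AP hx3 I)
  have h1 := hx1 x hxx1 I hI
  have hpos : 0 < (x : ℝ) ^ θ := by positivity
  have hN0 : (0 : ℝ) < N := lt_of_lt_of_le hpos hN
  have h2 := hst ⌈(x : ℝ) ^ θ⌉₊ (Nat.le_ceil _)
  have h3 := hst N hN
  have hc0 : (0 : ℝ) < ⌈(x : ℝ) ^ θ⌉₊ := lt_of_lt_of_le hpos (Nat.le_ceil _)
  rw [← div_le_iff₀ hc0] at h1
  rw [abs_le] at h2 h3
  rw [← div_le_iff₀ hN0]
  linarith [h2.1, h3.2]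

end Pool.Agent.V11311.GT
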