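import Pool.Agent.V11311.GT.E

/-! Generic trajectories, part F: from the windows to the partial sums. -/

set_option autoImplicit false

namespace Pool.Agent.V11311.GT

open Finset Filter Topology Pool.Agent.V11311.PD Pool.Agent.V11311.PL Pool.Agent.V11311.FP

open Pool.Agent.Helper894.Collatz (T od)

open Pool.Agent.H377R2 (iter_pos)

open Pool.Agent.H319R2.Lln (mu Prof lln mu_lower mu_upper mu_eq)

/-- the window sum is a sum over times -/
theorem vs_times {x I n m0 : ℕ} (hn : 0 < n) (hI : (x : ℝ) ^ (2 / 3 : ℝ) * 2 ^ I ≤ x) (f : ℕ → ℝ)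
    (h2 : ∀ j ≤ m0, x / 2 ^ I < T^[j] n → T^[j] n ≤ x → good x (T^[j] n))
    (h3 : ((T^[m0] n : ℕ) : ℝ) ^ 2 ≤ ((x / 2 ^ I : ℕ) : ℝ)) :
    vs x I f n = ∑ j ∈ (range (m0 + 1)).filter (fun j => x / 2 ^ I < T^[j] n ∧ T^[j] n ≤ x), f (T^[j] n) := by
  classical
  obtain ⟨J, hJ⟩ := exists_nat_ge (8 * Real.log x)
  have himg : (Wn x I).filter (fun b => Vis n b)
      = ((range (m0 + 1)).filter (fun j => x / 2 ^ I < T^[j] n ∧ T^[j] n ≤ x)).image (fun j => T^[j] n) := by
    ext b
    rw [mem_filter, mem_image]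
    constructor
    · rintro ⟨hb, j, hj⟩
      obtain ⟨hb1, hb2⟩ := Wn_mem.1 hb
      refine ⟨j, ?_, hj⟩
      rw [mem_filter, mem_range, hj]
      refine ⟨?_, hb1⟩
      by_contra hcon
      push Not at hcon
      apply hb2.2 (T^[m0] n) (iter_pos hn m0) _ (j - m0)
      · rw [← Function.iterate_add_apply, Nat.sub_add_cancel (by omega), hj]
      · apply Real.le_sqrt_of_sq_le
        refine h3.trans ?_
        exact_mod_cast hb1.1.le
    · rintro ⟨j, hj, rfl⟩
      rw [mem_filter, mem_range] at hj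
      exact ⟨Wn_mem.2 ⟨hj.2, h2 j (by omega) hj.2.1 hj.2.2⟩, j, rfl⟩
  unfold vs
  rw [← sum_filter, himg, sum_image]
  intro j hj j' hj' hjj'
  have hmem : ∀ i, i ∈ (range (m0 + 1)).filter (fun j => x / 2 ^ I < T^[j] n ∧ T^[j] n ≤ x) → T^[i] n ∈ Wn x I := by
    intro i hi
    rw [mem_filter, mem_range] at hi
    exact Wn_mem.2 ⟨hi.2, h2 i (by omega) hi.2.1 hi.2.2⟩
  have key : ∀ i i', T^[i] n ∈ Wn x I → i < i' → T^[i] n ≠ T^[i'] n := by
    intro i i' hi hii' h
    apply nice_aper (Wn_nice hI hJ) (mem_coe.2 hi) (Wn_pos hi) (show 0 < i' - i by omega)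
    rw [← Function.iterate_add_apply, Nat.sub_add_cancel hii'.le]
    exact h.symm
  have e1 := hmem j (mem_coe.1 hj)
  have e2 := hmem j' (mem_coe.1 hj')
  rcases lt_trichotomy j j' with h | h | h
  · exact absurd hjj' (key j j' e1 h)
  · exact h
  · exact absurd hjj'.symm (key j' j e2 h)

theorem card_le_len (A : Finset ℕ) {lo hi : ℝ} (hlh : lo ≤ hi) (h : ∀ j ∈ A, lo ≤ j ∧ (j : ℝ) ≤ hi) :
    (A.card : ℝ) ≤ hi - lo + 1 := by
  rcases A.eq_empty_or_nonempty with h0 | hne
  · rw [h0]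
    simp only [card_empty, Nat.cast_zero]
    linarith
  · have h1 : A ⊆ Icc (A.min' hne) (A.max' hne) := fun a ha => mem_Icc.2 ⟨min'_le _ _ ha, le_max' _ _ ha⟩
    have h2 := card_le_card h1
    rw [Nat.card_Icc] at h2
    have h3 := (h _ (A.min'_mem hne)).1
    have h4 := (h _ (A.max'_mem hne)).2
    have h5 : A.min' hne ≤ A.max' hne := A.min'_le _ (A.max'_mem hne)
    have h6 : ((A.max' hne + 1 - A.min' hne : ℕ) : ℝ) = (A.max' hne : ℝ) + 1 - A.min' hne := by
      rw [Nat.cast_sub (by omega)]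
      push_cast
      ring
    calc (A.card : ℝ) ≤ ((A.max' hne + 1 - A.min' hne : ℕ) : ℝ) := by exact_mod_cast h2
      _ = (A.max' hne : ℝ) + 1 - A.min' hne := h6
      _ ≤ hi - lo + 1 := by linarith

theorem sum_diff_le {g : ℕ → ℝ} (hg : ∀ j, |g j| ≤ 1) (A B : Finset ℕ) :
    |∑ j ∈ A, g j - ∑ j ∈ B, g j| ≤ ((A \ B).card : ℝ) + ((B \ A).card : ℝ) := by
  classical
  have h1 : ∑ j ∈ A, g j = ∑ j ∈ A \ B, g j + ∑ j ∈ A ∩ B, g j := by
    rw [add_comm]
    exact (sum_inter_add_sum_sdiff A B g).symm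
  have h2 : ∑ j ∈ B, g j = ∑ j ∈ B \ A, g j + ∑ j ∈ A ∩ B, g j := by
    rw [add_comm, inter_comm]
    exact (sum_inter_add_sum_sdiff B A g).symm
  have h3 : ∀ S : Finset ℕ, |∑ j ∈ S, g j| ≤ S.card := by
    intro S
    refine (abs_sum_le_sum_abs _ _).trans ?_
    calc ∑ j ∈ S, |g j| ≤ ∑ j ∈ S, (1 : ℝ) := sum_le_sum fun j _ => hg j
      _ = S.card := by simp
  rw [h1, h2, add_sub_add_right_eq_sub]
  exact (abs_sub _ _).trans (add_le_add (h3 _) (h3 _))

/-- comparison of the partial sums with the sums over the windows -/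
theorem compare {n m0 K t : ℕ} (hn : 0 < n) {X : ℕ → ℕ} (hX : ∀ i ≤ K, 0 < X i) {η e ρ ρ2 : ℝ}
    (he : 0 ≤ e) (hη : 0 ≤ η) (hρ : 0 ≤ ρ) (hρ2 : 0 ≤ ρ2)
    (hprof : ∀ j ≤ m0, |Real.log (T^[j] n : ℕ) - Real.log n + mu * j| ≤ e)
    (hm0 : Real.log (T^[m0] n : ℕ) ≤ ρ2) (ht : mu * t ≤ Real.log n)
    (hX0 : Real.log n - Real.log (X 0) ≤ η) (hstep : ∀ i < K, Real.log (X i) - Real.log (X (i + 1)) ≤ η)
    (hXK : Real.log (X K) ≤ ρ) {g : ℕ → ℝ} (hg : ∀ j, |g j| ≤ 1) : ∃ k ≤ K,
    |∑ j ∈ range t, g j - ∑ j ∈ (range (m0 + 1)).filter (fun j => X k < T^[j] n ∧ T^[j] n ≤ X 0), g j|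
      ≤ (2 * η + 5 * e + ρ + ρ2) / mu + 4 := by
  classical
  have hmu : 0 < mu := lt_of_lt_of_le (by norm_num) mu_low
  set s := Real.log n - mu * t with hs
  have hs0 : 0 ≤ s := by linarith
  -- the index
  have hex : ∃ k, k = K ∨ Real.log (X k) ≤ s := ⟨K, Or.inl rfl⟩
  set k := Nat.find hex with hk
  have hk1 : k = K ∨ Real.log (X k) ≤ s := Nat.find_spec hex
  have hkK : k ≤ K := Nat.find_min' hex (Or.inl rfl)
  have hkmin : ∀ i < k, s < Real.log (X i) := by
    intro i hi
    have := Nat.find_min hex hi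
    push Not at this
    exact this.2
  refine ⟨k, hkK, ?_⟩
  refine (sum_diff_le hg _ _).trans ?_
  have hTpos : ∀ j, 0 < T^[j] n := fun j => iter_pos hn j
  have hloglt : ∀ i j, i ≤ K → X i < T^[j] n → Real.log (X i) < Real.log (T^[j] n : ℕ) := fun i j hi h =>
    Real.log_lt_log (by exact_mod_cast hX i hi) (by exact_mod_cast h)
  have hlogle : ∀ i j, T^[j] n ≤ X i → Real.log (T^[j] n : ℕ) ≤ Real.log (X i) := fun i j h =>
    Real.log_le_log (by exact_mod_cast hTpos j) (by exact_mod_cast h)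
  set B := (range (m0 + 1)).filter (fun j => X k < T^[j] n ∧ T^[j] n ≤ X 0) with hB
  set A1 := (range t \ B).filter (fun j => j ≤ m0 ∧ X 0 < T^[j] n) with hA1
  set A2 := (range t \ B).filter (fun j => j ≤ m0 ∧ T^[j] n ≤ X k) with hA2
  set A3 := (range t \ B).filter (fun j => m0 < j) with hA3
  have hsub : range t \ B ⊆ A1 ∪ (A2 ∪ A3) := by
    intro j hj
    have hj' := Finset.mem_sdiff.1 hj
    rw [mem_union, mem_union, hA1, hA2, hA3, mem_filter, mem_filter, mem_filter]
    rcases lt_or_ge m0 j with h | h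
    · exact Or.inr (Or.inr ⟨hj, h⟩)
    · by_cases h1 : X 0 < T^[j] n
      · exact Or.inl ⟨hj, h, h1⟩
      · by_cases h2 : T^[j] n ≤ X k
        · exact Or.inr (Or.inl ⟨hj, h, h2⟩)
        · exfalso
          apply hj'.2
          rw [hB, mem_filter, mem_range]
          exact ⟨by omega, by omega, by omega⟩
  have c1 : (A1.card : ℝ) ≤ (η + e) / mu + 1 := by
    have := card_le_len A1 (lo := 0) (hi := (η + e) / mu) (by positivity) (fun j hj => by
      rw [hA1, mem_filter] at hj
      refine ⟨Nat.cast_nonneg _, ?_⟩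
      rw [le_div_iff₀ hmu]
      have h1 := hprof j hj.2.1
      have h2 := hloglt 0 j (Nat.zero_le _) hj.2.2
      rw [abs_le] at h1
      linarith [h1.1, h1.2])
    linarith
  have c2 : (A2.card : ℝ) ≤ (ρ + e) / mu + 1 := by
    have := card_le_len A2 (lo := (Real.log n - (s + ρ + e)) / mu) (hi := (Real.log n - s) / mu)
      (div_le_div_of_nonneg_right (by linarith) hmu.le) (fun j hj => by
      rw [hA2, mem_filter, Finset.mem_sdiff, mem_range] at hj
      have h1 := hprof j hj.2.1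
      have h2 := hlogle k j hj.2.2
      rw [abs_le] at h1
      constructor
      · rw [div_le_iff₀ hmu]
        have h3 : Real.log (X k) ≤ s + ρ := by
          rcases hk1 with h3 | h3
          · rw [h3]; linarith
          · linarith
        linarith [h1.1, h1.2]
      · rw [le_div_iff₀ hmu, hs]
        have h3 : (j : ℝ) ≤ t := by exact_mod_cast hj.1.1.le
        have h4 : mu * j ≤ mu * t := mul_le_mul_of_nonneg_left h3 hmu.le
        linarith)
    have e1 : (Real.log n - s) / mu - (Real.log n - (s + ρ + e)) / mu = (ρ + e) / mu := by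
      rw [← sub_div]; congr 1; ring
    linarith
  have c3 : (A3.card : ℝ) ≤ (ρ2 + e) / mu + 1 := by
    have := card_le_len A3 (lo := (Real.log n - (s + ρ2 + e)) / mu) (hi := (Real.log n - s) / mu)
      (div_le_div_of_nonneg_right (by linarith) hmu.le) (fun j hj => by
      rw [hA3, mem_filter, Finset.mem_sdiff, mem_range] at hj
      have h1 := hprof m0 le_rfl
      rw [abs_le] at h1
      constructor
      · rw [div_le_iff₀ hmu]
        have h3 : (m0 : ℝ) ≤ j := by exact_mod_cast hj.2.le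
        have h4 : mu * m0 ≤ mu * j := mul_le_mul_of_nonneg_left h3 hmu.le
        linarith [h1.1, h1.2]
      · rw [le_div_iff₀ hmu, hs]
        have h3 : (j : ℝ) ≤ t := by exact_mod_cast hj.1.1.le
        have h4 : mu * j ≤ mu * t := mul_le_mul_of_nonneg_left h3 hmu.le
        linarith)
    have e1 : (Real.log n - s) / mu - (Real.log n - (s + ρ2 + e)) / mu = (ρ2 + e) / mu := by
      rw [← sub_div]; congr 1; ring
    linarith
  have c4 : ((B \ range t).card : ℝ) ≤ (η + 2 * e) / mu + 1 := by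
    have := card_le_len (B \ range t) (lo := (Real.log n - s) / mu) (hi := (Real.log n - (s - η - 2 * e)) / mu)
      (div_le_div_of_nonneg_right (by linarith) hmu.le) (fun j hj => by
      rw [Finset.mem_sdiff, hB, mem_filter, mem_range, mem_range] at hj
      have h1 := hprof j (by omega)
      have h2 := hloglt k j hkK hj.1.2.1
      rw [abs_le] at h1
      constructor
      · rw [div_le_iff₀ hmu, hs]
        have h3 : (t : ℝ) ≤ j := by exact_mod_cast not_lt.1 hj.2
        have h4 : mu * t ≤ mu * j := mul_le_mul_of_nonneg_left h3 hmu.le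
        linarith
      · rw [le_div_iff₀ hmu]
        have h3 : s - η - e ≤ Real.log (X k) := by
          rcases Nat.eq_zero_or_pos k with h3 | h3
          · exfalso
            have h4 := hj.1.2
            rw [h3] at h4
            omega
          · have h4 := hkmin (k - 1) (by omega)
            have h5 := hstep (k - 1) (by omega)
            rw [Nat.sub_add_cancel h3] at h5
            linarith
        linarith [h1.1, h1.2])
    have e1 : (Real.log n - (s - η - 2 * e)) / mu - (Real.log n - s) / mu = (η + 2 * e) / mu := by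
      rw [← sub_div]; congr 1; ring
    linarith
  have c5 : ((range t \ B).card : ℝ) ≤ A1.card + (A2.card + A3.card) := by
    have h1 := (card_le_card hsub).trans ((card_union_le _ _).trans (Nat.add_le_add_left (card_union_le _ _) _))
    exact_mod_cast h1
  have e2 : (2 * η + 5 * e + ρ + ρ2) / mu = (η + e) / mu + (ρ + e) / mu + (ρ2 + e) / mu + (η + 2 * e) / mu := by
    rw [← add_div, ← add_div, ← add_div]; congr 1; ring
  rw [e2]
  linarith

/-- telescoping of the windows -/
theorem tele (n m0 : ℕ) (X : ℕ → ℕ) (f : ℕ → ℝ) (k : ℕ) (hmono : ∀ i < k, X (i + 1) ≤ X i) :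
    ∑ i ∈ range k, ∑ j ∈ (range (m0 + 1)).filter (fun j => X (i + 1) < T^[j] n ∧ T^[j] n ≤ X i), f (T^[j] n)
      = ∑ j ∈ (range (m0 + 1)).filter (fun j => X k < T^[j] n ∧ T^[j] n ≤ X 0), f (T^[j] n) := by
  classical
  induction k with
  | zero =>
    rw [sum_range_zero]
    symm
    apply sum_eq_zero
    intro j hj
    rw [mem_filter] at hj
    omega
  | succ k ih =>
    rw [sum_range_succ, ih (fun i hi => hmono i (by omega))]
    have hk1 : ∀ d', d' ≤ k + 1 → X d' ≤ X 0 := by
      intro d'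
      induction d' with
      | zero => intro _; rfl
      | succ d' ih' =>
        intro h
        exact (hmono d' (by omega)).trans (ih' (by omega))
    have h1 := hk1 k (by omega)
    have h2 := hmono k (Nat.lt_succ_self k)
    have e1 : (range (m0 + 1)).filter (fun j => X (k + 1) < T^[j] n ∧ T^[j] n ≤ X 0)
        = (range (m0 + 1)).filter (fun j => X k < T^[j] n ∧ T^[j] n ≤ X 0)
          ∪ (range (m0 + 1)).filter (fun j => X (k + 1) < T^[j] n ∧ T^[j] n ≤ X k) := by
      ext j
      rw [mem_union, mem_filter, mem_filter, mem_filter]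
      constructor
      · rintro ⟨h3, h4, h5⟩
        rcases lt_or_ge (X k) (T^[j] n) with h6 | h6
        · exact Or.inl ⟨h3, h6, h5⟩
        · exact Or.inr ⟨h3, h4, h6⟩
      · rintro (⟨h3, h4, h5⟩ | ⟨h3, h4, h5⟩)
        · exact ⟨h3, by omega, h5⟩
        · exact ⟨h3, h4, by omega⟩
    rw [e1, sum_union]
    rw [Finset.disjoint_left]
    intro j hj hj'
    rw [mem_filter] at hj hj'
    omega

theorem cN_or {P Q R : ℕ → Prop} (N : ℕ) (h : ∀ n, 1 ≤ n → n ≤ N → P n → Q n ∨ R n) :
    cN P N ≤ cN Q N + cN R N := by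
  classical
  unfold cN
  refine (card_le_card ?_).trans (card_union_le _ _)
  intro n hn
  rw [mem_filter, mem_Icc] at hn
  rw [mem_union, mem_filter, mem_filter, mem_Icc]
  rcases h n hn.1.1 hn.1.2 hn.2 with h1 | h1
  · exact Or.inl ⟨hn.1, h1⟩
  · exact Or.inr ⟨hn.1, h1⟩

theorem cN_ex (P : ℕ → ℕ → Prop) (K N : ℕ) : cN (fun n => ∃ i < K, P i n) N ≤ ∑ i ∈ range K, cN (P i) N := by
  classical
  induction K with
  | zero =>
    have : cN (fun n => ∃ i < 0, P i n) N ≤ cN (fun _ => False) N := cN_mono (fun n _ h => by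
      obtain ⟨i, hi, _⟩ := h
      omega) N
    refine this.trans ?_
    unfold cN
    simp
  | succ K ih =>
    rw [sum_range_succ]
    refine (cN_or (Q := fun n => ∃ i < K, P i n) (R := P K) N ?_).trans (Nat.add_le_add_right ih _)
    rintro n _ _ ⟨i, hi, h⟩
    rcases Nat.lt_succ_iff_lt_or_eq.1 hi with h1 | h1
    · exact Or.inl ⟨i, h1, h⟩
    · subst h1
      exact Or.inr h

end Pool.Agent.V11311.GT
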