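import Pool.Agent.V11311.GT.F

/-! Generic trajectories, part G: the levels, and the theorem. -/

set_option autoImplicit false

namespace Pool.Agent.V11311.GT

open Finset Filter Topology Pool.Agent.V11311.PD Pool.Agent.V11311.PL Pool.Agent.V11311.FP

open Pool.Agent.Helper894.Collatz (T od)

open Pool.Agent.H377R2 (iter_pos)

open Pool.Agent.H319R2.Lln (mu Prof lln mu_lower mu_upper mu_eq)

/-- the number of blocks of a window -/
noncomputable def II (η : ℝ) (x : ℕ) : ℕ := ⌊η * Real.log x⌋₊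

/-- the next level -/
noncomputable def nx (η : ℝ) (x : ℕ) : ℕ := x / 2 ^ II η x

/-- the levels -/
noncomputable def lv (η : ℝ) (N : ℕ) : ℕ → ℕ
  | 0 => ⌊(N : ℝ) ^ (1 / (1 + η))⌋₊
  | i + 1 => nx η (lv η N i)

/-- the properties of one window -/
structure Step (η : ℝ) (x : ℕ) : Prop where
  pos : 0 < nx η x
  low : (1 - η) * Real.log x ≤ Real.log (nx η x)
  up : Real.log (nx η x) ≤ (1 - η / 2) * Real.log x
  p98 : (x : ℝ) ^ (0.98 : ℝ) * 2 ^ II η x ≤ x
  p23 : (x : ℝ) ^ (2 / 3 : ℝ) * 2 ^ II η x ≤ x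

theorem step_ev {η : ℝ} (hη : 0 < η) (hη1 : η ≤ 1 / 100) : ∀ᶠ x : ℕ in atTop, Step η x := by
  have e1 : ∀ᶠ x : ℕ in atTop, 4 / η ≤ Real.log x :=
    (Real.tendsto_log_atTop.comp tendsto_natCast_atTop_atTop).eventually_ge_atTop _
  filter_upwards [e1, eventually_ge_atTop 1] with x h1 hx
  have hx1 : (1 : ℝ) ≤ x := by exact_mod_cast hx
  have hx0 : (0 : ℝ) < x := by linarith
  set L := Real.log x with hL
  rw [div_le_iff₀ hη] at h1
  have hL0 : 0 < L := by
    by_contra hcon
    push Not at hcon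
    nlinarith
  have l1 := Real.log_two_gt_d9
  have l2 := Real.log_two_lt_d9
  have hI1 : (II η x : ℝ) ≤ η * L := Nat.floor_le (by positivity)
  have hI2 : η * L < II η x + 1 := Nat.lt_floor_add_one _
  set I := II η x with hI
  have hI0 : (0 : ℝ) ≤ I := Nat.cast_nonneg _
  have hexp : (2 : ℝ) ^ I = Real.exp (Real.log 2 * I) := by
    rw [mul_comm, Real.exp_nat_mul, Real.exp_log (by norm_num)]
  have hIl : Real.log 2 * (I : ℝ) ≤ 0.6932 * (η * L) := by
    calc Real.log 2 * (I : ℝ) ≤ 0.6932 * I := mul_le_mul_of_nonneg_right (by linarith) hI0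
      _ ≤ 0.6932 * (η * L) := mul_le_mul_of_nonneg_left hI1 (by norm_num)
  have hηL : η * L ≤ 1 / 100 * L := mul_le_mul_of_nonneg_right hη1 hL0.le
  have hx98 : (x : ℝ) ^ (0.98 : ℝ) * 2 ^ I ≤ x := by
    rw [hexp, Real.rpow_def_of_pos hx0, ← Real.exp_add]
    calc Real.exp (Real.log x * 0.98 + Real.log 2 * I) ≤ Real.exp (Real.log x) := by
          apply Real.exp_le_exp.2
          rw [← hL]
          linarith
      _ = x := Real.exp_log hx0
  have hx23 : (x : ℝ) ^ (2 / 3 : ℝ) * 2 ^ I ≤ x := by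
    refine le_trans (mul_le_mul_of_nonneg_right ?_ (by positivity)) hx98
    exact Real.rpow_le_rpow_of_exponent_le hx1 (by norm_num)
  have h2x : (2 : ℝ) ^ I ≤ x := by
    refine le_trans (le_mul_of_one_le_left (by positivity) ?_) hx98
    exact Real.one_le_rpow hx1 (by norm_num)
  have h2x' : 2 ^ I ≤ x := by exact_mod_cast h2x
  have hpos : 0 < nx η x := Nat.div_pos h2x' (by positivity)
  have hposR : (0 : ℝ) < nx η x := by exact_mod_cast hpos
  refine ⟨hpos, ?_, ?_, hx98, hx23⟩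
  · have h3 : x < 2 ^ I * (x / 2 ^ I + 1) := Nat.lt_mul_div_succ x (by positivity)
    have h4 : x < 2 ^ I * (nx η x + 1) := h3
    have h5 : x ≤ 2 ^ (I + 1) * nx η x := by
      calc x ≤ 2 ^ I * (nx η x + 1) := h4.le
        _ ≤ 2 ^ I * (2 * nx η x) := Nat.mul_le_mul_left _ (by omega)
        _ = 2 ^ (I + 1) * nx η x := by rw [pow_succ]; ring
    have h6 : (x : ℝ) ≤ 2 ^ (I + 1) * nx η x := by exact_mod_cast h5
    have h7 := Real.log_le_log hx0 h6
    rw [Real.log_mul (by positivity) hposR.ne', Real.log_pow] at h7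
    push_cast at h7
    rw [← hL] at h7
    have h8 : ((I : ℝ) + 1) * Real.log 2 ≤ 0.6932 * (η * L) + 0.6932 := by nlinarith
    have h9 : (1 - η) * L = L - η * L := by ring
    rw [h9]
    linarith
  · have h3 : nx η x * 2 ^ I ≤ x := Nat.div_mul_le_self x (2 ^ I)
    have h4 : (nx η x : ℝ) * 2 ^ I ≤ x := by exact_mod_cast h3
    have h5 := Real.log_le_log (by positivity) h4
    rw [Real.log_mul hposR.ne' (by positivity), Real.log_pow, ← hL] at h5
    have h6 : 0.693 * (I : ℝ) ≤ I * Real.log 2 := by nlinarith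
    have h7 : (1 - η / 2) * L = L - η * L / 2 := by ring
    rw [h7]
    linarith

theorem nx_tendsto {η : ℝ} (hη : 0 < η) (hη1 : η ≤ 1 / 100) : Tendsto (nx η) atTop atTop := by
  have h1 : Tendsto (fun x : ℕ => ((nx η x : ℕ) : ℝ)) atTop atTop := by
    have h2 : Tendsto (fun x : ℕ => Real.exp ((1 - η) * Real.log x)) atTop atTop :=
      Real.tendsto_exp_atTop.comp ((Real.tendsto_log_atTop.comp tendsto_natCast_atTop_atTop).const_mul_atTop
        (by linarith : (0 : ℝ) < 1 - η))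
    apply tendsto_atTop_mono' _ _ h2
    filter_upwards [step_ev hη hη1] with x hx
    have h3 : (0 : ℝ) < nx η x := by exact_mod_cast hx.pos
    calc Real.exp ((1 - η) * Real.log x) ≤ Real.exp (Real.log (nx η x)) := Real.exp_le_exp.2 hx.low
      _ = nx η x := Real.exp_log h3
  exact tendsto_natCast_atTop_iff.1 h1

theorem lv_tendsto {η : ℝ} (hη : 0 < η) (hη1 : η ≤ 1 / 100) (i : ℕ) : Tendsto (fun N => lv η N i) atTop atTop := by
  induction i with
  | zero =>
    unfold lv
    exact tendsto_nat_floor_atTop.comp ((tendsto_rpow_atTop (by positivity)).comp tendsto_natCast_atTop_atTop)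
  | succ i ih =>
    have : (fun N => lv η N (i + 1)) = nx η ∘ fun N => lv η N i := rfl
    rw [this]
    exact (nx_tendsto hη hη1).comp ih

theorem lv_mono (η : ℝ) (N i : ℕ) : lv η N (i + 1) ≤ lv η N i := by
  show nx η (lv η N i) ≤ lv η N i
  exact Nat.div_le_self _ _

theorem lv_le (η : ℝ) (N i : ℕ) : lv η N i ≤ lv η N 0 := by
  induction i with
  | zero => rfl
  | succ i ih => exact (lv_mono η N i).trans ih

/-- THE PARTIAL SUMS ARE SMALL -/
theorem core {f : ℕ → ℝ} (hf1 : ∀ n, |f n| ≤ 1) (hf : Nul f) (ε : ℝ) (hε : 0 < ε) (hε1 : ε ≤ 1) (ε' : ℝ) (hε' : 0 < ε') :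
    ∀ᶠ N : ℕ in atTop, (cN (fun n => ∃ t : ℕ, mu * t ≤ Real.log n ∧
      ε * Real.log n < |∑ j ∈ range t, f (T^[j] n)|) N : ℝ) ≤ ε' * N := by
  classical
  set η : ℝ := ε / 400 with hη
  have hη0 : 0 < η := by positivity
  have hη1 : η ≤ 1 / 100 := by rw [hη]; linarith
  obtain ⟨K, hK⟩ := exists_pow_lt_of_lt_one hη0 (by linarith : 1 - η / 2 < 1)
  set κ : ℝ := (1 - η) ^ K / 8 with hκ
  have hκ0 : 0 < κ := by
    have : 0 < 1 - η := by linarith
    positivity
  have hκη : κ ≤ η / 8 := by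
    have : (1 - η) ^ K ≤ (1 - η / 2) ^ K := pow_le_pow_left₀ (by linarith) (by linarith) K
    rw [hκ]; linarith
  have hK0 : (0 : ℝ) ≤ K := Nat.cast_nonneg _
  set ε2 : ℝ := min (ε / (4 * (K + 1))) (ε' / (8 * (K + 1))) with hε2
  have hε20 : 0 < ε2 := by positivity
  have hε2K : K * ε2 ≤ ε / 4 := by
    have h1 : ε2 ≤ ε / (4 * (K + 1)) := min_le_left _ _
    calc K * ε2 ≤ (K + 1) * (ε / (4 * (K + 1))) := mul_le_mul (by linarith) h1 hε20.le (by linarith)
      _ = ε / 4 := by field_simp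
  have hε2K' : K * ε2 ≤ ε' / 8 := by
    have h1 : ε2 ≤ ε' / (8 * (K + 1)) := min_le_right _ _
    calc K * ε2 ≤ (K + 1) * (ε' / (8 * (K + 1))) := mul_le_mul (by linarith) h1 hε20.le (by linarith)
      _ = ε' / 8 := by field_simp
  have hθ : 1 < 1 + η := by linarith
  obtain ⟨x1, hx1⟩ := window hf1 hf hθ ε2 hε20
  obtain ⟨x2, hx2⟩ := Qb_window hθ (by linarith) ε2 hε20
  -- the eventual properties
  have hid : Tendsto (fun N : ℕ => (N : ℝ)) atTop atTop := tendsto_natCast_atTop_atTop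
  have e1 : ∀ᶠ N : ℕ in atTop, ∀ i ∈ range (K + 1), Step η (lv η N i) ∧ max x1 x2 ≤ lv η N i ∧ 1 ≤ lv η N i := by
    rw [eventually_all_finset]
    intro i _
    exact (lv_tendsto hη0 hη1 i).eventually ((step_ev hη0 hη1).and ((eventually_ge_atTop _).and (eventually_ge_atTop _)))
  have e2 := hid.eventually (typ_cardR (κ / 2) 1 κ (by positivity) (by norm_num) hκ0)
  have e3 : ∀ᶠ N : ℕ in atTop, max (8 / ε') (max (1 / η) (20 / ε)) ≤ Real.log N :=
    (Real.tendsto_log_atTop.comp hid).eventually_ge_atTop _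
  have e4 : ∀ᶠ N : ℕ in atTop, 4 / ε' ≤ (N : ℝ) ^ η := ((tendsto_rpow_atTop hη0).comp hid).eventually_ge_atTop _
  filter_upwards [e1, e2, e3, e4, eventually_ge_atTop 1] with N h1 h2 h3 h4 h5
  have hN1 : (1 : ℝ) ≤ N := by exact_mod_cast h5
  have hN0 : (0 : ℝ) < N := by linarith
  set Λ := Real.log N with hΛ
  have hΛ1 : 8 / ε' ≤ Λ := (le_max_left _ _).trans h3
  have hΛ2 : 1 / η ≤ Λ := (le_max_left _ _).trans ((le_max_right _ _).trans h3)
  have hΛ3 : 20 / ε ≤ Λ := (le_max_right _ _).trans ((le_max_right _ _).trans h3)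
  rw [div_le_iff₀ (by assumption)] at hΛ1 hΛ2 hΛ3
  have hΛ0 : 0 < Λ := by
    by_contra hcon
    push Not at hcon
    nlinarith
  set X : ℕ → ℕ := lv η N with hX
  have hstep : ∀ i ≤ K, Step η (X i) := fun i hi => (h1 i (mem_range.2 (by omega))).1
  have hXge : ∀ i ≤ K, max x1 x2 ≤ X i := fun i hi => (h1 i (mem_range.2 (by omega))).2.1
  have hXpos : ∀ i ≤ K, 0 < X i := fun i hi => (h1 i (mem_range.2 (by omega))).2.2
  have hX0le : (X 0 : ℝ) ≤ (N : ℝ) ^ (1 / (1 + η)) := Nat.floor_le (by positivity)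
  have hXθ : ∀ i, (X i : ℝ) ^ (1 + η) ≤ N := by
    intro i
    have h6 : (X i : ℝ) ≤ X 0 := by exact_mod_cast lv_le η N i
    calc (X i : ℝ) ^ (1 + η) ≤ ((N : ℝ) ^ (1 / (1 + η))) ^ (1 + η) :=
          Real.rpow_le_rpow (Nat.cast_nonneg _) (h6.trans hX0le) (by linarith)
      _ = N := by
          rw [← Real.rpow_mul hN0.le, one_div, inv_mul_cancel₀ (by linarith), Real.rpow_one]
  have hXN : ∀ i, (X i : ℝ) ≤ N := by
    intro i
    rcases Nat.eq_zero_or_pos (X i) with h6 | h6
    · rw [h6]; simp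
    · have h7 : (1 : ℝ) ≤ X i := by exact_mod_cast h6
      calc (X i : ℝ) = (X i : ℝ) ^ (1 : ℝ) := (Real.rpow_one _).symm
        _ ≤ (X i : ℝ) ^ (1 + η) := Real.rpow_le_rpow_of_exponent_le h7 (by linarith)
        _ ≤ N := hXθ i
  have hXΛ : ∀ i ≤ K, Real.log (X i) ≤ Λ := fun i hi =>
    Real.log_le_log (by exact_mod_cast hXpos i hi) (hXN i)
  have hX0log : (1 - η) * Λ - 0.7 ≤ Real.log (X 0) := by
    have h6 : (N : ℝ) ^ (1 / (1 + η)) < X 0 + 1 := Nat.lt_floor_add_one _
    have h7 : (1 : ℝ) ≤ X 0 := by exact_mod_cast hXpos 0 (Nat.zero_le _)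
    have h8 : (N : ℝ) ^ (1 / (1 + η)) ≤ 2 * X 0 := by linarith
    have h9 := Real.log_le_log (by positivity) h8
    rw [Real.log_rpow hN0, Real.log_mul (by norm_num) (by linarith)] at h9
    have h10 : (1 - η) * Λ ≤ 1 / (1 + η) * Λ := by
      apply mul_le_mul_of_nonneg_right _ hΛ0.le
      rw [le_div_iff₀ (by linarith)]
      nlinarith [sq_nonneg η]
    have := Real.log_two_lt_d9
    linarith
  have hXlow : ∀ i ≤ K, (1 - η) ^ i * (Λ / 2) ≤ Real.log (X i) := by
    intro i
    induction i with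
    | zero =>
      intro _
      rw [pow_zero, one_mul]
      have : η * Λ ≤ 1 / 100 * Λ := mul_le_mul_of_nonneg_right hη1 hΛ0.le
      nlinarith
    | succ i ih =>
      intro hi
      have h6 := ih (by omega)
      have h7 := (hstep i (by omega)).low
      calc (1 - η) ^ (i + 1) * (Λ / 2) = (1 - η) * ((1 - η) ^ i * (Λ / 2)) := by rw [pow_succ]; ring
        _ ≤ (1 - η) * Real.log (X i) := mul_le_mul_of_nonneg_left h6 (by linarith)
        _ ≤ Real.log (X (i + 1)) := h7
  have hXlow' : ∀ i ≤ K, 4 * κ * Λ ≤ Real.log (X i) := by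
    intro i hi
    refine le_trans ?_ (hXlow i hi)
    have h6 : (1 - η) ^ K ≤ (1 - η) ^ i := pow_le_pow_of_le_one (by linarith) (by linarith) hi
    have h7 : 4 * κ * Λ = (1 - η) ^ K * (Λ / 2) := by rw [hκ]; ring
    rw [h7]
    exact mul_le_mul_of_nonneg_right h6 (by linarith)
  have hXup : ∀ i ≤ K, Real.log (X i) ≤ (1 - η / 2) ^ i * Λ := by
    intro i
    induction i with
    | zero => intro _; rw [pow_zero, one_mul]; exact hXΛ 0 (Nat.zero_le _)
    | succ i ih =>
      intro hi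
      have h6 := ih (by omega)
      have h7 := (hstep i (by omega)).up
      calc Real.log (X (i + 1)) ≤ (1 - η / 2) * Real.log (X i) := h7
        _ ≤ (1 - η / 2) * ((1 - η / 2) ^ i * Λ) := mul_le_mul_of_nonneg_left h6 (by linarith)
        _ = (1 - η / 2) ^ (i + 1) * Λ := by rw [pow_succ]; ring
  -- the exceptional sets
  set P1 : ℕ → Prop := fun n => (n : ℝ) < (N : ℝ) ^ (1 - η) with hP1
  set P2 : ℕ → Prop := fun n => ¬ Typ (κ / 2) ((N : ℝ) ^ κ) n with hP2
  set P3 : ℕ → Prop := fun n => ∃ i < K, ε2 * Real.log (X i) < |vs (X i) (II η (X i)) f n| with hP3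
  set P4 : ℕ → Prop := fun n => ∃ i < K, Qb (X i) (II η (X i)) n with hP4
  have c1 : (cN P1 N : ℝ) ≤ ε' / 4 * N := by
    have h6 : cN P1 N ≤ ⌊(N : ℝ) ^ (1 - η)⌋₊ := by
      unfold cN
      calc ((Icc 1 N).filter P1).card ≤ (Icc 1 ⌊(N : ℝ) ^ (1 - η)⌋₊).card := by
            apply card_le_card
            intro n hn
            rw [mem_filter, mem_Icc] at hn
            rw [mem_Icc]
            exact ⟨hn.1.1, Nat.le_floor hn.2.le⟩
        _ = _ := by rw [Nat.card_Icc, Nat.add_sub_cancel]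
    have h7 : (cN P1 N : ℝ) ≤ (N : ℝ) ^ (1 - η) := by
      calc (cN P1 N : ℝ) ≤ (⌊(N : ℝ) ^ (1 - η)⌋₊ : ℝ) := by exact_mod_cast h6
        _ ≤ _ := Nat.floor_le (by positivity)
    have h8 : (N : ℝ) ^ (1 - η) * (N : ℝ) ^ η = N := by
      rw [← Real.rpow_add hN0, sub_add_cancel, Real.rpow_one]
    rw [div_le_iff₀ hε'] at h4
    have h9 : (N : ℝ) ^ (1 - η) * 4 ≤ (N : ℝ) ^ (1 - η) * ((N : ℝ) ^ η * ε') :=
      mul_le_mul_of_nonneg_left h4 (by positivity)
    rw [← mul_assoc, h8] at h9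
    linarith
  have c2 : (cN P2 N : ℝ) ≤ ε' / 4 * N := by
    have h6 := h2 ((Icc 1 N).filter P2) (fun n hn => by
      rw [mem_filter, mem_Icc] at hn
      exact ⟨hn.1.1, by exact_mod_cast hn.1.2, hn.2⟩)
    rw [Real.rpow_one] at h6
    have h7 : (cN P2 N : ℝ) = (((Icc 1 N).filter P2).card : ℝ) := by
      unfold cN
      congr!
    rw [h7]
    refine h6.trans ?_
    rw [← mul_div_assoc, div_le_iff₀ hΛ0]
    nlinarith
  have c3 : (cN P3 N : ℝ) ≤ ε' / 8 * N := by
    have h6 := cN_ex (fun i n => ε2 * Real.log (X i) < |vs (X i) (II η (X i)) f n|) K N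
    have h7 : ∀ i ∈ range K, (cN (fun n => ε2 * Real.log (X i) < |vs (X i) (II η (X i)) f n|) N : ℝ) ≤ ε2 * N := by
      intro i hi
      rw [mem_range] at hi
      exact hx1 (X i) ((le_max_left _ _).trans (hXge i hi.le)) _ (hstep i hi.le).p23 N (hXθ i)
    have h8 : (cN P3 N : ℝ) ≤ ∑ i ∈ range K, (cN (fun n => ε2 * Real.log (X i) < |vs (X i) (II η (X i)) f n|) N : ℝ) := by
      exact_mod_cast h6
    refine h8.trans ((sum_le_sum h7).trans ?_)
    rw [sum_const, card_range, nsmul_eq_mul, ← mul_assoc]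
    exact mul_le_mul_of_nonneg_right hε2K' hN0.le
  have c4 : (cN P4 N : ℝ) ≤ ε' / 8 * N := by
    have h6 := cN_ex (fun i n => Qb (X i) (II η (X i)) n) K N
    have h7 : ∀ i ∈ range K, (cN (fun n => Qb (X i) (II η (X i)) n) N : ℝ) ≤ ε2 * N := by
      intro i hi
      rw [mem_range] at hi
      exact hx2 (X i) ((le_max_right _ _).trans (hXge i hi.le)) _ (hstep i hi.le).p98 N (hXθ i)
    have h8 : (cN P4 N : ℝ) ≤ ∑ i ∈ range K, (cN (fun n => Qb (X i) (II η (X i)) n) N : ℝ) := by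
      exact_mod_cast h6
    refine h8.trans ((sum_le_sum h7).trans ?_)
    rw [sum_const, card_range, nsmul_eq_mul, ← mul_assoc]
    exact mul_le_mul_of_nonneg_right hε2K' hN0.le
  -- the main claim
  have claim : ∀ n, 1 ≤ n → n ≤ N → (∃ t : ℕ, mu * t ≤ Real.log n ∧ ε * Real.log n < |∑ j ∈ range t, f (T^[j] n)|) →
      P1 n ∨ (P2 n ∨ (P3 n ∨ P4 n)) := by
    rintro n hn1 hnN ⟨t, ht, hbig⟩
    by_contra hcon
    push Not at hcon
    obtain ⟨q1, q2, q3, q4⟩ := hcon
    have q1' : (N : ℝ) ^ (1 - η) ≤ n := not_lt.1 q1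
    have q2' : Typ (κ / 2) ((N : ℝ) ^ κ) n := not_not.1 q2
    have q3' : ∀ i < K, |vs (X i) (II η (X i)) f n| ≤ ε2 * Real.log (X i) := by
      intro i hi
      by_contra h
      exact q3 ⟨i, hi, not_le.1 h⟩
    have q4' : ∀ i < K, ¬ Qb (X i) (II η (X i)) n := fun i hi h => q4 ⟨i, hi, h⟩
    have hn0 : (0 : ℝ) < n := by exact_mod_cast hn1
    have hlogn : Real.log n ≤ Λ := Real.log_le_log hn0 (by exact_mod_cast hnN)
    have hlogn1 : (1 - η) * Λ ≤ Real.log n := by
      have h6 := Real.log_le_log (by positivity) q1'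
      rwa [Real.log_rpow hN0] at h6
    have hlogn0 : 0 ≤ Real.log n := Real.log_natCast_nonneg n
    obtain ⟨m0, k1, k2⟩ := q2'
    set e := κ / 2 * Real.log n with he
    have he0 : 0 ≤ e := by positivity
    have heΛ : e ≤ κ / 2 * Λ := mul_le_mul_of_nonneg_left hlogn (by positivity)
    have hTpos : ∀ j, (0 : ℝ) < (T^[j] n : ℕ) := fun j => by exact_mod_cast iter_pos hn1 j
    have hm0log : Real.log (T^[m0] n : ℕ) ≤ κ * Λ := by
      have h6 := Real.log_le_log (hTpos m0) k1
      rwa [Real.log_rpow hN0] at h6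
    have hηΛ : η * Λ ≤ 1 / 100 * Λ := mul_le_mul_of_nonneg_right hη1 hΛ0.le
    have hκΛ : κ * Λ ≤ η / 8 * Λ := mul_le_mul_of_nonneg_right hκη hΛ0.le
    obtain ⟨k, hkK, hcmp⟩ := compare (n := n) (m0 := m0) (K := K) (t := t) hn1 (X := X) hXpos
      (η := 2 * η * Λ) (e := e) (ρ := η * Λ) (ρ2 := κ * Λ) he0 (by positivity) (by positivity) (by positivity)
      (fun j hj => k2 j hj) hm0log ht (by nlinarith) (fun i hi => by
        have h6 := (hstep i hi.le).low
        have h7 := hXΛ i hi.le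
        have h8 : η * Real.log (X i) ≤ η * Λ := mul_le_mul_of_nonneg_left h7 hη0.le
        have h9 : Real.log (X i) - Real.log (X (i + 1)) ≤ η * Real.log (X i) := by
          have : Real.log (X (i + 1)) = Real.log (nx η (X i)) := rfl
          rw [this]
          linarith
        nlinarith) (by
        have h6 := hXup K le_rfl
        exact h6.trans (mul_le_mul_of_nonneg_right hK.le hΛ0.le)) (g := fun j => f (T^[j] n)) (fun j => hf1 _)
    -- the sums over the windows
    have hwin : ∀ i < K, vs (X i) (II η (X i)) f n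
        = ∑ j ∈ (range (m0 + 1)).filter (fun j => X (i + 1) < T^[j] n ∧ T^[j] n ≤ X i), f (T^[j] n) := by
      intro i hi
      have hlow1 := (hstep i hi.le).low
      have hXi1 : X (i + 1) = X i / 2 ^ II η (X i) := rfl
      have hXi1' : nx η (X i) = X (i + 1) := rfl
      rw [hXi1'] at hlow1
      have hlb := hXlow' i hi.le
      have hlb1 := hXlow' (i + 1) hi
      rw [hXi1]
      apply vs_times hn1 (hstep i hi.le).p23
      · intro j hj g1 g2
        by_contra hng
        apply q4' i hi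
        refine ⟨j, ⟨g1, g2⟩, hng, fun i' hi' => ?_⟩
        have p1 := k2 i' (by omega)
        have p2 := k2 j hj
        rw [abs_le] at p1 p2
        have g3 : Real.log (X (i + 1)) ≤ Real.log (T^[j] n : ℕ) := by
          apply Real.log_le_log (by exact_mod_cast hXpos (i + 1) hi)
          exact_mod_cast (show X (i + 1) < T^[j] n from g1).le
        have g4 : mu * (i' : ℝ) ≤ mu * j := by
          apply mul_le_mul_of_nonneg_left _ (by linarith [mu_low])
          exact_mod_cast hi'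
        have hXi0 : (0 : ℝ) < X i := by exact_mod_cast hXpos i hi.le
        rw [Real.rpow_def_of_pos hXi0]
        calc Real.exp (Real.log (X i) * (2 / 5)) < Real.exp (Real.log (T^[i'] n : ℕ)) := by
              apply Real.exp_lt_exp.2
              have h6 : η * Real.log (X i) ≤ 1 / 100 * Real.log (X i) := by
                apply mul_le_mul_of_nonneg_right hη1
                have : 0 ≤ κ * Λ := by positivity
                linarith
              have h7 : (1 - η) * Real.log (X i) = Real.log (X i) - η * Real.log (X i) := by ring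
              rw [h7] at hlow1
              have h8 : 0 < κ * Λ := by positivity
              linarith [p1.1, p1.2, p2.1, p2.2]
          _ = _ := Real.exp_log (hTpos i')
      · have h6 : ((T^[m0] n : ℕ) : ℝ) ^ 2 ≤ (X (i + 1) : ℝ) := by
          have hXpos1 : (0 : ℝ) < X (i + 1) := by exact_mod_cast hXpos (i + 1) hi
          rw [← Real.log_le_log_iff (by have := hTpos m0; positivity) hXpos1, Real.log_pow]
          push_cast
          have : 0 ≤ κ * Λ := by positivity
          linarith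
        exact h6
    have htel : ∑ j ∈ (range (m0 + 1)).filter (fun j => X k < T^[j] n ∧ T^[j] n ≤ X 0), f (T^[j] n)
        = ∑ i ∈ range k, vs (X i) (II η (X i)) f n := by
      rw [← tele n m0 X f k (fun i _ => lv_mono η N i)]
      apply sum_congr rfl
      intro i hi
      rw [mem_range] at hi
      exact (hwin i (by omega)).symm
    have hsmall : |∑ j ∈ (range (m0 + 1)).filter (fun j => X k < T^[j] n ∧ T^[j] n ≤ X 0), f (T^[j] n)| ≤ ε / 4 * Λ := by
      rw [htel]
      refine (abs_sum_le_sum_abs _ _).trans ?_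
      calc ∑ i ∈ range k, |vs (X i) (II η (X i)) f n| ≤ ∑ i ∈ range k, ε2 * Λ := by
            apply sum_le_sum
            intro i hi
            rw [mem_range] at hi
            exact (q3' i (by omega)).trans (mul_le_mul_of_nonneg_left (hXΛ i (by omega)) hε20.le)
        _ = k * ε2 * Λ := by rw [sum_const, card_range, nsmul_eq_mul, mul_assoc]
        _ ≤ K * ε2 * Λ := by
            apply mul_le_mul_of_nonneg_right _ hΛ0.le
            apply mul_le_mul_of_nonneg_right _ hε20.le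
            exact_mod_cast hkK
        _ ≤ ε / 4 * Λ := mul_le_mul_of_nonneg_right hε2K hΛ0.le
    have herr : (2 * (2 * η * Λ) + 5 * e + η * Λ + κ * Λ) / mu + 4 ≤ ε / 2 * Λ := by
      have hmu := mu_low
      have hmu0 : 0 < mu := by linarith
      have h6 : (2 * (2 * η * Λ) + 5 * e + η * Λ + κ * Λ) / mu ≤ 40 * (η * Λ) := by
        rw [div_le_iff₀ hmu0]
        have h7 : 40 * (η * Λ) * 0.142 ≤ 40 * (η * Λ) * mu := mul_le_mul_of_nonneg_left hmu (by positivity)
        have h8 : 0 ≤ η * Λ := by positivity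
        nlinarith
      have h9 : 40 * (η * Λ) = ε / 10 * Λ := by rw [hη]; ring
      rw [h9] at h6
      have h10 : 4 ≤ ε / 5 * Λ := by linarith
      have h11 : 0 ≤ ε * Λ := by positivity
      linarith
    have htot : |∑ j ∈ range t, f (T^[j] n)| ≤ ε / 4 * Λ + ε / 2 * Λ := by
      have h6 := hcmp.trans herr
      rw [abs_le] at h6 hsmall ⊢
      constructor <;> linarith [h6.1, h6.2, hsmall.1, hsmall.2]
    have h6 : ε / 4 * Λ + ε / 2 * Λ ≤ ε * Real.log n := by
      have h7 : ε * ((1 - η) * Λ) ≤ ε * Real.log n := mul_le_mul_of_nonneg_left hlogn1 hε.le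
      have h8 : ε * (η * Λ) ≤ ε * (1 / 100 * Λ) := mul_le_mul_of_nonneg_left hηΛ hε.le
      have h9 : 0 ≤ ε * Λ := by positivity
      nlinarith
    linarith
  have d1 := cN_or (P := fun n => ∃ t : ℕ, mu * t ≤ Real.log n ∧ ε * Real.log n < |∑ j ∈ range t, f (T^[j] n)|)
    (Q := P1) (R := fun n => P2 n ∨ (P3 n ∨ P4 n)) N claim
  have d2 := cN_or (P := fun n => P2 n ∨ (P3 n ∨ P4 n)) (Q := P2) (R := fun n => P3 n ∨ P4 n) N (fun n _ _ h => h)
  have d3 := cN_or (P := fun n => P3 n ∨ P4 n) (Q := P3) (R := P4) N (fun n _ _ h => h)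
  have d4 : (cN (fun n => ∃ t : ℕ, mu * t ≤ Real.log n ∧ ε * Real.log n < |∑ j ∈ range t, f (T^[j] n)|) N : ℝ)
      ≤ cN P1 N + (cN P2 N + (cN P3 N + cN P4 N)) := by
    have : cN (fun n => ∃ t : ℕ, mu * t ≤ Real.log n ∧ ε * Real.log n < |∑ j ∈ range t, f (T^[j] n)|) N
      ≤ cN P1 N + (cN P2 N + (cN P3 N + cN P4 N)) := by omega
    exact_mod_cast this
  have hε'N : 0 ≤ ε' * N := by positivity
  linarith

end Pool.Agent.V11311.GT
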