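import Pool.Agent.V11311.GT.B

/-! Generic trajectories, part H: functions with small means over short intervals. -/

set_option autoImplicit false

namespace Pool.Agent.V11311.GT

open Finset Filter Topology Pool.Agent.V11311.PD Pool.Agent.V11311.PL Pool.Agent.V11311.FP

theorem run_const {Φ : ℕ → ℝ} {x H : ℕ} (h : ∀ i, x < i → i < x + H → Φ i = Φ (i + 1)) :
    ∀ i, 1 ≤ i → i ≤ H → Φ (x + i) = Φ (x + 1) := by
  intro i hi
  induction i, hi using Nat.le_induction with
  | base => intro _; rfl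
  | succ i hi ih =>
    intro hH
    rw [← ih (by omega), ← add_assoc]
    exact (h (x + i) (by omega) (by omega)).symm

open scoped Classical in
theorem chg_windows (Φ : ℕ → ℝ) (N H : ℕ) :
    ((range N).filter fun x => ∃ i, x < i ∧ i < x + H ∧ Φ i ≠ Φ (i + 1)).card ≤ H + H * chg Φ N := by
  have hsub : ((range N).filter fun x => ∃ i, x < i ∧ i < x + H ∧ Φ i ≠ Φ (i + 1)) ⊆
      Ico (N - H) N ∪ (range H ×ˢ (Icc 1 N).filter fun i => Φ i ≠ Φ (i + 1)).image (fun p => p.2 - 1 - p.1) := by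
    intro x hx
    rw [mem_filter, mem_range] at hx
    obtain ⟨hxN, i, h1, h2, h3⟩ := hx
    rw [mem_union, mem_Ico, mem_image]
    by_cases hi : i ≤ N
    · right
      refine ⟨(i - 1 - x, i), ?_, ?_⟩
      · rw [mem_product, mem_range, mem_filter, mem_Icc]
        exact ⟨by simp only; omega, ⟨by simp only; omega, hi⟩, h3⟩
      · simp only
        omega
    · left
      omega
  refine (card_le_card hsub).trans ((card_union_le _ _).trans ?_)
  rw [Nat.card_Ico]
  apply Nat.add_le_add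
  · omega
  · refine card_image_le.trans ?_
    rw [card_product, card_range]
    exact le_rfl

theorem shift_sum {u : ℕ → ℝ} (hu : ∀ n, |u n| ≤ 1) (N i : ℕ) :
    |∑ n ∈ Icc 1 N, u n - ∑ x ∈ range N, u (x + i)| ≤ 2 * i + 2 := by
  have h1 : ∑ x ∈ range N, u (x + i) = ∑ n ∈ Ico i (N + i), u n := by
    rw [Finset.sum_Ico_eq_sum_range]
    rw [Nat.add_sub_cancel]
    exact sum_congr rfl fun x _ => by rw [add_comm]
  have h2 : ∑ n ∈ Icc 1 N, u n = ∑ n ∈ Ico 1 (N + 1), u n := rfl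
  have e0 : ∀ k : ℕ, ∑ n ∈ range k, u n = ∑ n ∈ Ico 0 k, u n := fun k => by rw [range_eq_Ico]
  have h3 : ∑ n ∈ Ico 1 (N + 1), u n = ∑ n ∈ range (N + i + 1), u n - ∑ n ∈ Ico (N + 1) (N + i + 1), u n - u 0 := by
    have a1 := sum_range_add_sum_Ico u (show N + 1 ≤ N + i + 1 by omega)
    have a2 := sum_range_add_sum_Ico u (show 1 ≤ N + 1 by omega)
    rw [sum_range_one] at a2
    linarith
  have h4 : ∑ n ∈ Ico i (N + i), u n = ∑ n ∈ range (N + i + 1), u n - ∑ n ∈ range i, u n - u (N + i) := by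
    have a1 := sum_range_add_sum_Ico u (show i ≤ N + i by omega)
    rw [sum_range_succ]
    linarith
  have b1 : |∑ n ∈ Ico (N + 1) (N + i + 1), u n| ≤ i := by
    refine (abs_sum_le_sum_abs _ _).trans ?_
    calc ∑ n ∈ Ico (N + 1) (N + i + 1), |u n| ≤ ∑ n ∈ Ico (N + 1) (N + i + 1), (1 : ℝ) := sum_le_sum fun n _ => hu n
      _ = i := by
        rw [sum_const, Nat.card_Ico, nsmul_eq_mul, mul_one]
        congr 1
        omega
  have b2 : |∑ n ∈ range i, u n| ≤ i := by
    refine (abs_sum_le_sum_abs _ _).trans ?_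
    calc ∑ n ∈ range i, |u n| ≤ ∑ n ∈ range i, (1 : ℝ) := sum_le_sum fun n _ => hu n
      _ = i := by simp
  have b3 := hu 0
  have b4 := hu (N + i)
  rw [h1, h2, h3, h4]
  rw [abs_le] at b1 b2 b3 b4 ⊢
  constructor <;> linarith [b1.1, b1.2, b2.1, b2.2, b3.1, b3.2, b4.1, b4.2]

/-- the sum over the short interval `(x, x + H]` -/
noncomputable def shs (g : ℕ → ℝ) (H x : ℕ) : ℝ := ∑ n ∈ Ioc x (x + H), g n

theorem shs_eq (g : ℕ → ℝ) (H x : ℕ) : shs g H x = ∑ i ∈ Icc 1 H, g (x + i) := by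
  unfold shs
  have : Ioc x (x + H) = (Icc 1 H).image (fun i => x + i) := by
    ext n
    rw [mem_Ioc, mem_image]
    constructor
    · intro h
      exact ⟨n - x, by rw [mem_Icc]; omega, by omega⟩
    · rintro ⟨i, hi, rfl⟩
      rw [mem_Icc] at hi
      omega
  rw [this, sum_image]
  intro i _ j _ h
  simpa using h

theorem short_bound {g : ℕ → ℝ} (hg : ∀ n, |g n| ≤ 1) {H : ℕ} (hH : 1 ≤ H) {ε : ℝ} (hε : 0 < ε) {N : ℕ}
    (hN : (cN (fun x => ε * H < |shs g H x|) N : ℝ) ≤ ε * N) {Φ : ℕ → ℝ} (hΦ : ∀ n, |Φ n| ≤ 1) :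
    |∑ n ∈ Icc 1 N, g n * Φ n| ≤ 2 * ε * N + H * chg Φ N + 5 * H + 1 := by
  classical
  have hH0 : (0 : ℝ) < H := by exact_mod_cast hH
  have hu : ∀ n, |g n * Φ n| ≤ 1 := fun n => by
    rw [abs_mul]
    calc |g n| * |Φ n| ≤ 1 * 1 := mul_le_mul (hg n) (hΦ n) (abs_nonneg _) (by norm_num)
      _ = 1 := one_mul 1
  set S := ∑ n ∈ Icc 1 N, g n * Φ n with hS
  -- averaging over the shifts
  have h1 : |H * S - ∑ x ∈ range N, ∑ i ∈ Icc 1 H, g (x + i) * Φ (x + i)| ≤ H * (2 * H + 2) := by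
    rw [sum_comm]
    have e1 : (H : ℝ) * S = ∑ i ∈ Icc 1 H, S := by
      rw [sum_const, Nat.card_Icc, Nat.add_sub_cancel, nsmul_eq_mul]
    rw [e1, ← sum_sub_distrib]
    refine (abs_sum_le_sum_abs _ _).trans ?_
    calc ∑ i ∈ Icc 1 H, |S - ∑ x ∈ range N, g (x + i) * Φ (x + i)| ≤ ∑ i ∈ Icc 1 H, (2 * (H : ℝ) + 2) := by
          apply sum_le_sum
          intro i hi
          rw [mem_Icc] at hi
          have h2 := shift_sum (u := fun n => g n * Φ n) hu N i
          refine h2.trans ?_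
          have : (i : ℝ) ≤ H := by exact_mod_cast hi.2
          linarith
      _ = H * (2 * H + 2) := by rw [sum_const, Nat.card_Icc, Nat.add_sub_cancel, nsmul_eq_mul]
  -- the sums over the short intervals
  set B1 := (range N).filter fun x => ∃ i, x < i ∧ i < x + H ∧ Φ i ≠ Φ (i + 1) with hB1
  set B2 := (range N).filter fun x => ε * H < |shs g H x| with hB2
  have htriv : ∀ x, |∑ i ∈ Icc 1 H, g (x + i) * Φ (x + i)| ≤ H := by
    intro x
    refine (abs_sum_le_sum_abs _ _).trans ?_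
    calc ∑ i ∈ Icc 1 H, |g (x + i) * Φ (x + i)| ≤ ∑ i ∈ Icc 1 H, (1 : ℝ) := sum_le_sum fun i _ => hu _
      _ = H := by rw [sum_const, Nat.card_Icc, Nat.add_sub_cancel, nsmul_eq_mul, mul_one]
  have h2 : ∀ x ∈ range N, |∑ i ∈ Icc 1 H, g (x + i) * Φ (x + i)| ≤
      ε * H + (if x ∈ B1 then (H : ℝ) else 0) + (if x ∈ B2 then (H : ℝ) else 0) := by
    intro x hx
    have p1 : (0 : ℝ) ≤ ε * H := by positivity
    by_cases b1 : x ∈ B1
    · rw [if_pos b1]
      have := htriv x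
      split_ifs <;> linarith
    by_cases b2 : x ∈ B2
    · rw [if_pos b2]
      have := htriv x
      split_ifs <;> linarith
    rw [if_neg b1, if_neg b2, add_zero, add_zero]
    rw [hB1, mem_filter, not_and] at b1
    rw [hB2, mem_filter, not_and] at b2
    have c1 := b1 hx
    push Not at c1
    have c2 := not_lt.1 (b2 hx)
    have c3 := run_const (Φ := Φ) (x := x) (H := H) (fun i h1 h2 => c1 i h1 h2)
    have c4 : ∑ i ∈ Icc 1 H, g (x + i) * Φ (x + i) = shs g H x * Φ (x + 1) := by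
      rw [shs_eq, sum_mul]
      apply sum_congr rfl
      intro i hi
      rw [mem_Icc] at hi
      rw [c3 i hi.1 hi.2]
    rw [c4, abs_mul]
    calc |shs g H x| * |Φ (x + 1)| ≤ (ε * H) * 1 := mul_le_mul c2 (hΦ _) (abs_nonneg _) p1
      _ = ε * H := mul_one _
  have h3 : |∑ x ∈ range N, ∑ i ∈ Icc 1 H, g (x + i) * Φ (x + i)| ≤ N * (ε * H) + B1.card * H + B2.card * H := by
    refine (abs_sum_le_sum_abs _ _).trans ((sum_le_sum h2).trans ?_)
    rw [sum_add_distrib, sum_add_distrib, sum_const, card_range, nsmul_eq_mul, sum_ite_mem, sum_ite_mem, sum_const,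
      sum_const, nsmul_eq_mul, nsmul_eq_mul]
    have e1 : range N ∩ B1 = B1 := inter_eq_right.2 (filter_subset _ _)
    have e2 : range N ∩ B2 = B2 := inter_eq_right.2 (filter_subset _ _)
    rw [e1, e2]
  have h4 : (B1.card : ℝ) ≤ H + H * chg Φ N := by
    have := chg_windows Φ N H
    have e : B1.card ≤ H + H * chg Φ N := by
      rw [hB1]
      convert this
    exact_mod_cast e
  have h5 : (B2.card : ℝ) ≤ ε * N + 1 := by
    have : B2.card ≤ cN (fun x => ε * H < |shs g H x|) N + 1 := by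
      unfold cN
      have hs : B2 ⊆ insert 0 ((Icc 1 N).filter fun x => ε * H < |shs g H x|) := by
        intro x hx
        rw [hB2, mem_filter, mem_range] at hx
        rw [mem_insert, mem_filter, mem_Icc]
        by_cases h0 : x = 0
        · exact Or.inl h0
        · exact Or.inr ⟨by omega, hx.2⟩
      refine (card_le_card hs).trans ((card_insert_le _ _).trans ?_)
      apply Nat.add_le_add_right
      apply le_of_eq
      congr!
    have h6 : (B2.card : ℝ) ≤ cN (fun x => ε * H < |shs g H x|) N + 1 := by exact_mod_cast this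
    linarith
  have h6 : (H : ℝ) * |S| ≤ H * (2 * ε * N + H * chg Φ N + 5 * H + 1) := by
    have h7 : (H : ℝ) * |S| = |H * S| := by rw [abs_mul, abs_of_pos hH0]
    rw [h7]
    have h8 : |H * S| ≤ |H * S - ∑ x ∈ range N, ∑ i ∈ Icc 1 H, g (x + i) * Φ (x + i)| +
        |∑ x ∈ range N, ∑ i ∈ Icc 1 H, g (x + i) * Φ (x + i)| := by
      have := abs_add_le (H * S - ∑ x ∈ range N, ∑ i ∈ Icc 1 H, g (x + i) * Φ (x + i))
        (∑ x ∈ range N, ∑ i ∈ Icc 1 H, g (x + i) * Φ (x + i))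
      rwa [sub_add_cancel] at this
    have hH1 : (1 : ℝ) ≤ H := by exact_mod_cast hH
    have h9 : (B1.card : ℝ) * H ≤ (H + H * chg Φ N) * H := mul_le_mul_of_nonneg_right h4 hH0.le
    have h10 : (B2.card : ℝ) * H ≤ (ε * N + 1) * H := mul_le_mul_of_nonneg_right h5 hH0.le
    nlinarith
  exact le_of_mul_le_mul_left h6 hH0

/-- functions with small means over short intervals are orthogonal to almost locally constant ones -/
theorem nul_of_short {f : ℕ → ℝ} (hf : ∀ n, |f n| ≤ 1)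
    (h : ∀ m a : ℕ, 1 ≤ m → a < 3 ^ m → ¬ 3 ∣ a → ∀ ε : ℝ, 0 < ε → ∃ H : ℕ, 1 ≤ H ∧ ∀ᶠ N : ℕ in atTop,
      (cN (fun x => ε * H < |shs (fun n => if n % 3 ^ m = a then f n else 0) H x|) N : ℝ) ≤ ε * N) : Nul f := by
  intro m a hm ha h3 ε hε
  obtain ⟨H, hH, hev⟩ := h m a hm ha h3 (ε / 8) (by positivity)
  obtain ⟨N0, hN0⟩ := eventually_atTop.1 hev
  have hH0 : (0 : ℝ) < H := by exact_mod_cast hH
  refine ⟨ε / (8 * H), by positivity, max N0 ⌈8 * (5 * H + 1) / ε⌉₊, fun N hN Φ hΦ hc => ?_⟩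
  have hN1 : N0 ≤ N := (le_max_left _ _).trans hN
  have hN2 : 8 * (5 * (H : ℝ) + 1) / ε ≤ N :=
    (Nat.le_ceil _).trans (by exact_mod_cast (le_max_right _ _).trans hN)
  have hg : ∀ n, |(if n % 3 ^ m = a then f n else 0)| ≤ 1 := by
    intro n
    split_ifs
    · exact hf n
    · simp
  have h1 := short_bound hg hH (show 0 < ε / 8 by positivity) (hN0 N hN1) hΦ
  have e : cs f Φ m a N = ∑ n ∈ Icc 1 N, (if n % 3 ^ m = a then f n else 0) * Φ n := by
    unfold cs
    apply sum_congr rfl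
    intro n _
    split_ifs <;> simp
  rw [e]
  refine h1.trans ?_
  rw [div_le_iff₀ hε] at hN2
  have h2 : (H : ℝ) * chg Φ N ≤ ε / 8 * N := by
    calc (H : ℝ) * chg Φ N ≤ H * (ε / (8 * H) * N) := mul_le_mul_of_nonneg_left hc hH0.le
      _ = ε / 8 * N := by field_simp
  have hN3 : (0 : ℝ) ≤ N := Nat.cast_nonneg N
  nlinarith

/-- the sum over the class `a` modulo `q` in a short interval -/
noncomputable def shc (F : ℕ → ℂ) (q a H x : ℕ) : ℂ := ∑ n ∈ (Ioc x (x + H)).filter (fun n => n % q = a), F n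

/-- mean zero in almost all short intervals, in all residue classes -/
def MZ (F : ℕ → ℂ) : Prop := ∀ q a : ℕ, 0 < q → a < q → ∀ ε : ℝ, 0 < ε → ∃ H : ℕ, 1 ≤ H ∧ ∀ᶠ N : ℕ in atTop,
  (cN (fun x => ε * H < ‖shc F q a H x‖) N : ℝ) ≤ ε * N

theorem class_inter {q M a r n0 : ℕ} (h1 : n0 % q = a) (h2 : n0 % M = r) (n : ℕ) :
    (n % q = a ∧ n % M = r) ↔ n % Nat.lcm q M = n0 % Nat.lcm q M := by
  constructor
  · rintro ⟨h3, h4⟩
    have h5 : n0 ≡ n [MOD q] := by unfold Nat.ModEq; rw [h1, h3]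
    have h6 : n0 ≡ n [MOD M] := by unfold Nat.ModEq; rw [h2, h4]
    have h7 : n0 ≡ n [MOD Nat.lcm q M] := by
      rw [Nat.modEq_iff_dvd] at h5 h6 ⊢
      rw [Int.natCast_dvd] at h5 h6 ⊢
      exact Nat.lcm_dvd h5 h6
    exact h7.symm
  · intro h
    have h7 : n ≡ n0 [MOD Nat.lcm q M] := h
    refine ⟨?_, ?_⟩
    · rw [← h1]
      exact h7.of_dvd (Nat.dvd_lcm_left _ _)
    · rw [← h2]
      exact h7.of_dvd (Nat.dvd_lcm_right _ _)

theorem cN_mono' {P Q : ℕ → Prop} (h : ∀ n, P n → Q n) (N : ℕ) : (cN P N : ℝ) ≤ cN Q N := by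
  classical
  unfold cN
  exact Nat.cast_le.2 (card_le_card (monotone_filter_right _ fun n hn => h n))

theorem nul_mz {F : ℕ → ℂ} (h1 : ∀ n, ‖F n‖ ≤ 1) (hF : MZ F) {L : ℂ → ℝ} (hL0 : L 0 = 0)
    (hLa : ∀ (s : Finset ℕ) (u : ℕ → ℂ), L (∑ n ∈ s, u n) = ∑ n ∈ s, L (u n)) (hL : ∀ z, |L z| ≤ ‖z‖) (M r : ℕ) (hM : 0 < M) :
    Nul (fun n => L (if n % M = r then F n else 0)) := by
  classical
  apply nul_of_short
  · intro n
    refine (hL _).trans ?_
    split_ifs
    · exact h1 n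
    · simp
  intro m a hm ha h3 ε hε
  by_cases hex : ∃ n0, n0 % 3 ^ m = a ∧ n0 % M = r
  · obtain ⟨n0, e1, e2⟩ := hex
    have hl : 0 < Nat.lcm (3 ^ m) M := Nat.lcm_pos (by positivity) hM
    obtain ⟨H, hH, hev⟩ := hF (Nat.lcm (3 ^ m) M) (n0 % Nat.lcm (3 ^ m) M) hl (Nat.mod_lt _ hl) ε hε
    refine ⟨H, hH, hev.mono fun N hN => le_trans ?_ hN⟩
    apply cN_mono'
    intro x hx
    refine lt_of_lt_of_le hx ?_
    have e3 : shs (fun n => if n % 3 ^ m = a then L (if n % M = r then F n else 0) else 0) H x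
        = L (shc F (Nat.lcm (3 ^ m) M) (n0 % Nat.lcm (3 ^ m) M) H x) := by
      unfold shs shc
      rw [sum_filter, hLa]
      apply sum_congr rfl
      intro n _
      have := class_inter e1 e2 n
      show (if n % 3 ^ m = a then L (if n % M = r then F n else 0) else 0) = _
      by_cases c : n % Nat.lcm (3 ^ m) M = n0 % Nat.lcm (3 ^ m) M
      · obtain ⟨c1, c2⟩ := this.2 c
        rw [if_pos c1, if_pos c2, if_pos c]
      · rw [if_neg c, hL0]
        by_cases c1 : n % 3 ^ m = a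
        · have c2 : ¬ n % M = r := fun h => c (this.1 ⟨c1, h⟩)
          rw [if_pos c1, if_neg c2, hL0]
        · rw [if_neg c1]
    rw [e3]
    exact hL _
  · refine ⟨1, le_rfl, Eventually.of_forall fun N => ?_⟩
    have e3 : ∀ x, shs (fun n => if n % 3 ^ m = a then L (if n % M = r then F n else 0) else 0) 1 x = 0 := by
      intro x
      unfold shs
      apply sum_eq_zero
      intro n _
      show (if n % 3 ^ m = a then L (if n % M = r then F n else 0) else 0) = _
      by_cases c1 : n % 3 ^ m = a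
      · have c2 : ¬ n % M = r := fun h => hex ⟨n, c1, h⟩
        rw [if_pos c1, if_neg c2, hL0]
      · rw [if_neg c1]
    have e4 : cN (fun x => ε * ((1 : ℕ) : ℝ) < |shs (fun n => if n % 3 ^ m = a then L (if n % M = r then F n else 0) else 0) 1 x|) N = 0 := by
      unfold cN
      rw [card_eq_zero, filter_eq_empty_iff]
      intro x _
      rw [e3 x, abs_zero, Nat.cast_one, mul_one]
      exact not_lt.2 hε.le
    rw [e4, Nat.cast_zero]
    positivity

end Pool.Agent.V11311.GT
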