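import Pool.Agent.V11311.GT.G
import Pool.Agent.H499R2.NDLln3
import Pool.Agent.H499R2.NDCol

/-! Generic trajectories, part L: complete trajectories. -/

set_option autoImplicit false

namespace Pool.Agent.V11311.GT

open Finset Filter Topology Pool.Agent.V11311.PD Pool.Agent.V11311.PL Pool.Agent.V11311.FP

open Pool.Agent.Helper894.Collatz (T)
open Pool.Agent.H319R2.Lln (mu mu_lower mu_upper)
open Pool.Agent.H499R2.ND (Dn Tn Tn_eq Bas Bas_inv Bas_density bas_profile bas_zd dn_bas mu_pos' zd_iff cnt cnt_eq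
  zd_or zd_mono zd_log)

theorem core_dn {f : ℕ → ℝ} (hf1 : ∀ n, |f n| ≤ 1) (hf : Nul f) {ε : ℝ} (hε : 0 < ε) :
    Dn (fun n => ∃ t : ℕ, mu * t ≤ Real.log n ∧ ε * Real.log n < |∑ j ∈ range t, f (T^[j] n)|) 0 := by
  classical
  rw [zd_iff]
  intro ε' hε'
  filter_upwards [core hf1 hf (min ε 1) (lt_min hε one_pos) (min_le_right _ _) ε' hε'] with N hN
  rw [cnt_eq]
  refine le_trans ?_ hN
  unfold cN
  have h : ((Icc 1 N).filter fun n : ℕ => ∃ t : ℕ, mu * t ≤ Real.log n ∧ ε * Real.log n < |∑ j ∈ range t, f (T^[j] n)|) ⊆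
      ((Icc 1 N).filter fun n : ℕ => ∃ t : ℕ, mu * t ≤ Real.log n ∧ min ε 1 * Real.log n < |∑ j ∈ range t, f (T^[j] n)|) := by
    intro n hn
    rw [mem_filter] at hn ⊢
    obtain ⟨h1, t, h2, h3⟩ := hn
    refine ⟨h1, t, h2, lt_of_le_of_lt ?_ h3⟩
    exact mul_le_mul_of_nonneg_right (min_le_left _ _) (Real.log_natCast_nonneg n)
  have h2 := card_le_card h
  refine le_trans (Nat.cast_le.2 h2) (le_of_eq ?_)
  congr 2

/-- the sums of `F` along almost all trajectories are `o(log n)` -/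
def Gen (F : ℕ → ℂ) : Prop := ∀ ε : ℝ, 0 < ε →
  Dn (fun n => ¬ ∀ t : ℕ, mu * t ≤ Real.log n → ‖∑ j ∈ range t, F (T^[j] n)‖ ≤ ε * Real.log n) 0

theorem gen_of {F : ℕ → ℂ} (h1 : ∀ n, ‖F n‖ ≤ 1) (hre : Nul fun n => (F n).re) (him : Nul fun n => (F n).im) :
    Gen F := by
  intro ε hε
  have a1 := core_dn (f := fun n => (F n).re) (fun n => (Complex.abs_re_le_norm _).trans (h1 n)) hre (half_pos hε)
  have a2 := core_dn (f := fun n => (F n).im) (fun n => (Complex.abs_im_le_norm _).trans (h1 n)) him (half_pos hε)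
  refine zd_or a1 a2 fun n hn h => ?_
  by_contra hcon
  push Not at hcon
  apply h
  intro t ht
  have b1 := hcon.1 t ht
  have b2 := hcon.2 t ht
  refine (Complex.norm_le_abs_re_add_abs_im _).trans ?_
  rw [Complex.re_sum, Complex.im_sum]
  linarith

theorem gen_real {f : ℕ → ℝ} (h1 : ∀ n, |f n| ≤ 1) (hf : Nul f) : Gen (fun n => (f n : ℂ)) := by
  refine gen_of (fun n => by rw [Complex.norm_real]; exact h1 n) (by simpa using hf) ?_
  intro m a _ _ _ ε hε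
  refine ⟨1, one_pos, 0, fun N _ Φ _ _ => ?_⟩
  unfold cs
  simp only [Complex.ofReal_im, zero_mul, ite_self, sum_const_zero, abs_zero]
  positivity

/-- complete trajectories -/
theorem reach_gen {F : ℕ → ℂ} (h1 : ∀ n, ‖F n‖ ≤ 1) (hF : Gen F) {δ : ℝ} (hδ : Dn Bas δ) {ε : ℝ} (hε : 0 < ε) :
    Dn (fun n => ∃ τ : ℕ, T^[τ] n = 1 ∧ (∀ j < τ, T^[j] n ≠ 1) ∧
      |(τ : ℝ) - 2 / Real.log (4 / 3) * Real.log n| ≤ ε * Real.log n ∧
      ‖∑ j ∈ range τ, F (T^[j] n)‖ ≤ ε * τ) δ := by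
  have hmu := mu_pos'
  have hc : 2 / Real.log (4 / 3) = 1 / mu := by unfold mu; rw [one_div_div]
  have l2' := Real.log_two_lt_d9
  have hmu2 : mu ≤ 11 / 53 * Real.log 2 := mu_upper
  have hmu3 : mu ≤ 0.144 := by linarith
  set ε1 : ℝ := min (ε / 2) 1 with hε1
  have hε10 : 0 < ε1 := lt_min (by positivity) one_pos
  have hε1a : ε1 ≤ ε / 2 := min_le_left _ _
  have hε1b : ε1 ≤ 1 := min_le_right _ _
  refine dn_bas hδ (fun n hn h => ?_) ?_
  · obtain ⟨τ, h, _⟩ := h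
    rw [Tn_eq] at h
    exact ⟨τ, h⟩
  have z1 := bas_zd hδ (fun n hn h => by obtain ⟨t, ht, _⟩ := h; exact ⟨t, ht⟩) (bas_profile hδ hε10)
  have z2 := hF ε1 hε10
  have z3 := Pool.Agent.H499R2.ND.zd_log (1 / ε1)
  refine zd_or (zd_or z1 z2 (fun n _ h => h) (P := fun n => (_ ∨ _))) z3 fun n hn hP => ?_
  obtain ⟨hbas, hP⟩ := hP
  by_contra hcon
  push Not at hcon
  obtain ⟨⟨c1, c2⟩, c3⟩ := hcon
  obtain ⟨τ, hτ1, hτ2, hτ3, -⟩ := c1 hbas
  rw [← Tn_eq] at hτ1 hτ2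
  rw [hc] at hτ3
  have hlog : 0 < Real.log (n : ℝ) := lt_trans (by positivity) c3
  have hε1l : 1 ≤ ε1 * Real.log n := by
    rw [div_lt_iff₀ hε10] at c3
    linarith
  apply hP
  have hτb : (1 / mu - 1) * Real.log n ≤ τ := by
    have h2 := (abs_le.1 hτ3).1
    have h3 : ε1 * Real.log n ≤ 1 * Real.log n := mul_le_mul_of_nonneg_right hε1b hlog.le
    linarith
  have h6 : 5 * Real.log n ≤ τ := by
    have h7 : (6 : ℝ) ≤ 1 / mu := by
      rw [le_div_iff₀ hmu]; linarith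
    have h8 : 5 * Real.log n ≤ (1 / mu - 1) * Real.log n := mul_le_mul_of_nonneg_right (by linarith) hlog.le
    linarith
  refine ⟨τ, hτ1, hτ2, ?_, ?_⟩
  · rw [hc]
    refine hτ3.trans (mul_le_mul_of_nonneg_right (by linarith) hlog.le)
  · -- the allowed time
    set t0 : ℕ := min τ ⌊1 / mu * Real.log n⌋₊ with ht0
    have ht0τ : t0 ≤ τ := min_le_left _ _
    have hpos : 0 ≤ 1 / mu * Real.log n := by positivity
    have ht0b : mu * t0 ≤ Real.log n := by
      have h2 : (t0 : ℝ) ≤ 1 / mu * Real.log n := by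
        have h3 : (t0 : ℝ) ≤ (⌊1 / mu * Real.log n⌋₊ : ℝ) := by exact_mod_cast min_le_right τ _
        exact h3.trans (Nat.floor_le hpos)
      have h4 := mul_le_mul_of_nonneg_left h2 hmu.le
      have h5 : mu * (1 / mu * Real.log n) = Real.log n := by field_simp
      linarith
    have hdiff : (τ : ℝ) - t0 ≤ 2 * (ε1 * Real.log n) := by
      rcases le_total τ ⌊1 / mu * Real.log n⌋₊ with h | h
      · rw [ht0, min_eq_left h]
        have : 0 ≤ 2 * (ε1 * Real.log n) := by positivity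
        linarith
      · rw [ht0, min_eq_right h]
        have h2 := Nat.lt_floor_add_one (1 / mu * Real.log n)
        have h3 := (abs_le.1 hτ3).2
        linarith
    have v3 := c2 t0 ht0b
    have hsplit : ∑ j ∈ range τ, F (T^[j] n) = ∑ j ∈ range t0, F (T^[j] n) + ∑ j ∈ Ico t0 τ, F (T^[j] n) := by
      rw [sum_range_add_sum_Ico _ ht0τ]
    have v4 : ‖∑ j ∈ Ico t0 τ, F (T^[j] n)‖ ≤ (τ : ℝ) - t0 := by
      refine (norm_sum_le _ _).trans ?_
      calc ∑ j ∈ Ico t0 τ, ‖F (T^[j] n)‖ ≤ ∑ j ∈ Ico t0 τ, (1 : ℝ) := sum_le_sum fun j _ => h1 _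
        _ = (τ : ℝ) - t0 := by rw [sum_const, Nat.card_Ico, nsmul_eq_mul, mul_one, Nat.cast_sub ht0τ]
    have v6 : 5 * (ε1 * Real.log n) ≤ ε1 * τ := by
      have := mul_le_mul_of_nonneg_left h6 hε10.le
      linarith
    have v7 : ε1 * (τ : ℝ) ≤ ε * τ := mul_le_mul_of_nonneg_right (by linarith) (Nat.cast_nonneg _)
    rw [hsplit]
    have v8 := norm_add_le (∑ j ∈ range t0, F (T^[j] n)) (∑ j ∈ Ico t0 τ, F (T^[j] n))
    linarith

end Pool.Agent.V11311.GT
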