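import Pool.Agent.V11311.GT.L
import Pool.Agent.V11311.GT.H
import Pool.Agent.H84R3.WeylCrit

/-! Generic trajectories, part R: closure properties and uniform distribution modulo one. -/

set_option autoImplicit false

namespace Pool.Agent.V11311.GT

open Finset Filter Topology MeasureTheory Pool.Agent.V11311.PD Pool.Agent.V11311.PL Pool.Agent.V11311.FP

open Pool.Agent.Helper894.Collatz (T)
open Pool.Agent.H319R2.Lln (mu mu_lower mu_upper)
open Pool.Agent.H499R2.ND (Dn mu_pos' zd_iff cnt cnt_eq zd_or zd_mono zd_log)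
open Pool.Agent.H84R3 (ex ex_add norm_ex ex_int ex_zero Circ fourier_coe_eq integral_fourier_eq_zero)

theorem step_le {n t : ℕ} (ht : mu * t ≤ Real.log n) : (t : ℝ) ≤ 8 * Real.log n := by
  have l2 := Real.log_two_gt_d9
  have hmu : 7 / 34 * Real.log 2 ≤ mu := mu_lower
  have hmu' : (0.14 : ℝ) ≤ mu := by linarith
  have ht0 : (0 : ℝ) ≤ t := Nat.cast_nonneg t
  have h1 : 0.14 * (t : ℝ) ≤ mu * t := mul_le_mul_of_nonneg_right hmu' ht0
  linarith

theorem gen_mz {F : ℕ → ℂ} (h1 : ∀ n, ‖F n‖ ≤ 1) (hF : MZ F) {M : ℕ} (hM : 0 < M) (r : ℕ) :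
    Gen (fun n => if n % M = r then F n else 0) := by
  apply gen_of
  · intro n
    split_ifs
    · exact h1 n
    · simp
  · exact nul_mz h1 hF (L := Complex.re) Complex.zero_re (fun s u => Complex.re_sum _ _) Complex.abs_re_le_norm M r hM
  · exact nul_mz h1 hF (L := Complex.im) Complex.zero_im (fun s u => Complex.im_sum _ _) Complex.abs_im_le_norm M r hM

theorem Gen.add {F G : ℕ → ℂ} (hF : Gen F) (hG : Gen G) : Gen (fun n => F n + G n) := by
  intro ε hε
  refine zd_or (hF (ε / 2) (by positivity)) (hG (ε / 2) (by positivity)) fun n _ h => ?_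
  by_contra hcon
  push Not at hcon
  apply h
  intro t ht
  rw [sum_add_distrib]
  have := norm_add_le (∑ j ∈ range t, F (T^[j] n)) (∑ j ∈ range t, G (T^[j] n))
  linarith [hcon.1 t ht, hcon.2 t ht]

theorem Gen.const_mul {F : ℕ → ℂ} (hF : Gen F) (c : ℂ) : Gen (fun n => c * F n) := by
  intro ε hε
  refine zd_mono (hF (ε / (‖c‖ + 1)) (by positivity)) fun n _ h => ?_
  intro h2
  apply h
  intro t ht
  rw [← mul_sum, norm_mul]
  have h3 := h2 t ht
  have hlog : 0 ≤ Real.log (n : ℝ) := Real.log_natCast_nonneg n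
  calc ‖c‖ * ‖∑ j ∈ range t, F (T^[j] n)‖ ≤ (‖c‖ + 1) * (ε / (‖c‖ + 1) * Real.log n) :=
        mul_le_mul (by linarith) h3 (norm_nonneg _) (by positivity)
    _ = ε * Real.log n := by field_simp

theorem Gen.zero : Gen (fun _ => 0) := by
  intro ε hε
  refine zd_mono (zd_log 0) fun n _ h => ?_
  exfalso
  apply h
  intro t _
  simp only [sum_const_zero, norm_zero]
  have hlog : 0 ≤ Real.log (n : ℝ) := Real.log_natCast_nonneg n
  positivity

theorem gen_approx {F : ℕ → ℂ} (h : ∀ ε : ℝ, 0 < ε → ∃ G, Gen G ∧ ∀ n, ‖F n - G n‖ ≤ ε) : Gen F := by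
  intro ε hε
  obtain ⟨G, hG, h1⟩ := h (ε / 16) (by positivity)
  refine zd_mono (hG (ε / 2) (by positivity)) fun n _ h2 => ?_
  intro h3
  apply h2
  intro t ht
  have h4 := h3 t ht
  have h5 : ‖∑ j ∈ range t, (F (T^[j] n) - G (T^[j] n))‖ ≤ ε / 16 * t := by
    refine (norm_sum_le _ _).trans ((sum_le_sum fun j _ => h1 _).trans ?_)
    rw [sum_const, card_range, nsmul_eq_mul, mul_comm]
  have h6 : ∑ j ∈ range t, F (T^[j] n) = ∑ j ∈ range t, (F (T^[j] n) - G (T^[j] n)) + ∑ j ∈ range t, G (T^[j] n) := by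
    rw [← sum_add_distrib]
    exact sum_congr rfl fun j _ => by ring
  rw [h6]
  have h7 := norm_add_le (∑ j ∈ range t, (F (T^[j] n) - G (T^[j] n))) (∑ j ∈ range t, G (T^[j] n))
  have h8 := step_le ht
  have h9 : ε / 16 * (t : ℝ) ≤ ε / 16 * (8 * Real.log n) := mul_le_mul_of_nonneg_left h8 (by positivity)
  linarith

theorem gen_sandwich {f : ℕ → ℝ} (h : ∀ ε : ℝ, 0 < ε → ∃ g1 g2 : ℕ → ℝ, Gen (fun n => (g1 n : ℂ)) ∧
    Gen (fun n => (g2 n : ℂ)) ∧ ∀ n, g1 n - ε ≤ f n ∧ f n ≤ g2 n + ε) : Gen (fun n => (f n : ℂ)) := by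
  intro ε hε
  obtain ⟨g1, g2, hg1, hg2, h1⟩ := h (ε / 16) (by positivity)
  refine zd_or (hg1 (ε / 2) (by positivity)) (hg2 (ε / 2) (by positivity)) fun n _ h2 => ?_
  by_contra hcon
  push Not at hcon
  apply h2
  intro t ht
  have k1 := hcon.1 t ht
  have k2 := hcon.2 t ht
  rw [← Complex.ofReal_sum, Complex.norm_real, Real.norm_eq_abs] at k1 k2 ⊢
  have h8 := step_le ht
  have h9 : ε / 16 * (t : ℝ) ≤ ε / 16 * (8 * Real.log n) := mul_le_mul_of_nonneg_left h8 (by positivity)
  have k3 : ∑ j ∈ range t, f (T^[j] n) ≤ ∑ j ∈ range t, g2 (T^[j] n) + ε / 16 * t := by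
    have : ∑ j ∈ range t, f (T^[j] n) ≤ ∑ j ∈ range t, (g2 (T^[j] n) + ε / 16) := sum_le_sum fun j _ => (h1 _).2
    rw [sum_add_distrib, sum_const, card_range, nsmul_eq_mul, mul_comm (t : ℝ)] at this
    exact this
  have k4 : ∑ j ∈ range t, g1 (T^[j] n) - ε / 16 * t ≤ ∑ j ∈ range t, f (T^[j] n) := by
    have : ∑ j ∈ range t, (g1 (T^[j] n) - ε / 16) ≤ ∑ j ∈ range t, f (T^[j] n) := sum_le_sum fun j _ => (h1 _).1
    rw [sum_sub_distrib, sum_const, card_range, nsmul_eq_mul, mul_comm (t : ℝ)] at this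
    exact this
  rw [abs_le] at k1 k2 ⊢
  constructor <;> linarith [k1.1, k1.2, k2.1, k2.2]

theorem int_Circ (f : C(Circ, ℂ)) : Integrable (fun x => f x) (volume : Measure Circ) :=
  f.continuous.integrable_of_hasCompactSupport (HasCompactSupport.of_compactSpace _)

theorem int_le_norm (F : C(Circ, ℂ)) : ‖∫ x : Circ, F x‖ ≤ ‖F‖ := by
  calc ‖∫ x : Circ, F x‖ ≤ ‖F‖ * (volume : Measure Circ).real Set.univ := by
        apply norm_integral_le_of_norm_le_const
        filter_upwards with x
        exact F.norm_coe_le_norm x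
    _ = ‖F‖ := by simp [Measure.real]

/-- the function of `n` given by a continuous function on the circle -/
noncomputable def cf (u : ℕ → ℝ) (M r : ℕ) (h : C(Circ, ℂ)) (n : ℕ) : ℂ :=
  if n % M = r then h ((u n : ℝ) : Circ) - ∫ x : Circ, h x else 0

theorem cf_sub (u : ℕ → ℝ) (M r : ℕ) (h h' : C(Circ, ℂ)) (n : ℕ) : ‖cf u M r h n - cf u M r h' n‖ ≤ 2 * ‖h - h'‖ := by
  unfold cf
  split_ifs
  · have e : (h ((u n : ℝ) : Circ) - ∫ x : Circ, h x) - (h' ((u n : ℝ) : Circ) - ∫ x : Circ, h' x)
        = (h - h') ((u n : ℝ) : Circ) - ∫ x : Circ, (h - h') x := by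
      have : ∫ x : Circ, (h - h') x = (∫ x : Circ, h x) - ∫ x : Circ, h' x := by
        rw [← integral_sub (int_Circ h) (int_Circ h')]
        rfl
      rw [this, ContinuousMap.sub_apply]
      ring
    rw [e]
    have h1 := norm_sub_le ((h - h') ((u n : ℝ) : Circ)) (∫ x : Circ, (h - h') x)
    have h2 := (h - h').norm_coe_le_norm ((u n : ℝ) : Circ)
    have h3 := int_le_norm (h - h')
    linarith
  · simp

theorem gen_cont {u : ℕ → ℝ} {M r : ℕ} (hu : ∀ k : ℤ, k ≠ 0 → Gen (fun n => if n % M = r then ex (k * u n) else 0))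
    (h : C(Circ, ℂ)) : Gen (cf u M r h) := by
  have hmem : ∀ f ∈ (Submodule.span ℂ (Set.range <| @fourier 1)), Gen (cf u M r f) := by
    intro f hf
    induction hf using Submodule.span_induction with
    | mem f hf =>
      obtain ⟨k, rfl⟩ := hf
      by_cases hk : k = 0
      · subst hk
        have hint : ∫ x : Circ, (fourier 0 x : ℂ) = 1 := by
          simp [Measure.real]
        have e : cf u M r (fourier 0) = fun _ => 0 := by
          funext n
          unfold cf
          rw [hint, fourier_zero, sub_self, ite_self]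
        rw [e]
        exact Gen.zero
      · have e : cf u M r (fourier k) = fun n => if n % M = r then ex (k * u n) else 0 := by
          funext n
          unfold cf
          rw [integral_fourier_eq_zero hk, sub_zero, fourier_coe_eq]
        rw [e]
        exact hu k hk
    | zero =>
      have e : cf u M r 0 = fun _ => 0 := by
        funext n
        unfold cf
        simp
      rw [e]
      exact Gen.zero
    | add f g hf hg ihf ihg =>
      have e : cf u M r (f + g) = fun n => cf u M r f n + cf u M r g n := by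
        funext n
        unfold cf
        split_ifs
        · have : ∫ x : Circ, (f + g) x = (∫ x : Circ, f x) + ∫ x : Circ, g x := by
            rw [← integral_add (int_Circ f) (int_Circ g)]
            rfl
          rw [this, ContinuousMap.add_apply]
          ring
        · simp
      rw [e]
      exact ihf.add ihg
    | smul c f hf ihf =>
      have e : cf u M r (c • f) = fun n => c * cf u M r f n := by
        funext n
        unfold cf
        split_ifs
        · have : ∫ x : Circ, (c • f) x = c * ∫ x : Circ, f x := by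
            rw [← integral_const_mul]
            rfl
          rw [this, ContinuousMap.smul_apply, smul_eq_mul]
          ring
        · simp
      rw [e]
      exact ihf.const_mul c
  apply gen_approx
  intro ε hε
  have hcl : h ∈ (Submodule.span ℂ (Set.range <| @fourier 1)).topologicalClosure := by
    rw [span_fourier_closure_eq_top]; trivial
  rw [← SetLike.mem_coe, Submodule.topologicalClosure_coe, Metric.mem_closure_iff] at hcl
  obtain ⟨f, hf, hfd⟩ := hcl (ε / 2) (by positivity)
  refine ⟨_, hmem f hf, fun n => (cf_sub u M r h f n).trans ?_⟩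
  rw [dist_eq_norm] at hfd
  linarith

/-- a continuous majorant of an arc -/
theorem arc_major {a b : ℝ} (hab : a ≤ b) {ε : ℝ} (hε : 0 < ε) : ∃ g : C(Circ, ℝ), (∀ x, 0 ≤ g x) ∧ (∀ x, g x ≤ 1) ∧
    (∀ x : ℝ, a ≤ Int.fract x → Int.fract x ≤ b → g ((x : ℝ) : Circ) = 1) ∧ ∫ x : Circ, g x ≤ b - a + ε := by
  have hN : IsClosed (Metric.closedBall (((a + b) / 2 : ℝ) : Circ) ((b - a) / 2)) := Metric.isClosed_closedBall
  have hN0 : volume (Metric.closedBall (((a + b) / 2 : ℝ) : Circ) ((b - a) / 2)) ≤ ENNReal.ofReal (b - a) := by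
    rw [AddCircle.volume_closedBall]
    apply ENNReal.ofReal_le_ofReal
    refine (min_le_right _ _).trans (by linarith)
  set N := Metric.closedBall (((a + b) / 2 : ℝ) : Circ) ((b - a) / 2) with hNd
  have hba : 0 ≤ b - a := by linarith
  obtain ⟨U, hNU, hUo, hUv⟩ : ∃ U ⊇ N, IsOpen U ∧ volume U < ENNReal.ofReal (b - a + ε) :=
    N.exists_isOpen_lt_of_lt _ (lt_of_le_of_lt hN0
      ((ENNReal.ofReal_lt_ofReal_iff (by positivity)).2 (by linarith)))
  obtain ⟨g, hg0, hg1, hg01⟩ := exists_continuous_zero_one_of_isClosed hUo.isClosed_compl hN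
    (by rw [Set.disjoint_compl_left_iff_subset]; exact hNU)
  refine ⟨g, fun x => (hg01 x).1, fun x => (hg01 x).2, ?_, ?_⟩
  · intro x hm1 hm2
    have hx : ((x : ℝ) : Circ) ∈ N := by
      rw [hNd, Metric.mem_closedBall, dist_eq_norm]
      have h2 : ((x : ℝ) : Circ) = ((Int.fract x : ℝ) : Circ) := by
        rw [← sub_eq_zero, ← AddCircle.coe_sub, AddCircle.coe_eq_zero_iff]
        refine ⟨⌊x⌋, ?_⟩
        simp [Int.self_sub_fract]
      rw [h2, ← AddCircle.coe_sub]
      refine (QuotientAddGroup.norm_mk_le_norm).trans ?_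
      rw [Real.norm_eq_abs, abs_le]
      constructor <;> linarith
    have := hg1 hx
    simpa using this
  · have h2 : ∫ x : Circ, g x ≤ ∫ x : Circ, U.indicator (fun _ => (1 : ℝ)) x := by
      apply integral_mono
      · exact g.continuous.integrable_of_hasCompactSupport (HasCompactSupport.of_compactSpace _)
      · exact (integrable_indicator_iff hUo.measurableSet).2 (integrableOn_const (by simp) )
      · intro x
        by_cases hx : x ∈ U
        · simp only [hx, Set.indicator_of_mem]; exact (hg01 x).2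
        · simp only [hx, not_false_eq_true, Set.indicator_of_notMem]
          exact le_of_eq (hg0 hx)
    rw [integral_indicator hUo.measurableSet] at h2
    simp only [integral_const, MeasurableSet.univ, measureReal_restrict_apply, Set.univ_inter, smul_eq_mul, mul_one] at h2
    refine h2.trans ?_
    rw [Measure.real]
    exact ENNReal.toReal_le_of_le_ofReal (by positivity) hUv.le

/-- the complex version of a real continuous function -/
noncomputable def cc (g : C(Circ, ℝ)) : C(Circ, ℂ) := ⟨fun x => (g x : ℂ), by fun_prop⟩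

theorem cc_int (g : C(Circ, ℝ)) : ∫ x : Circ, cc g x = ((∫ x : Circ, g x : ℝ) : ℂ) := by
  simp only [cc, ContinuousMap.coe_mk]
  exact integral_ofReal

theorem cf_cc (u : ℕ → ℝ) (M r : ℕ) (g : C(Circ, ℝ)) (n : ℕ) :
    cf u M r (cc g) n = ((if n % M = r then g ((u n : ℝ) : Circ) - ∫ x : Circ, g x else 0 : ℝ) : ℂ) := by
  unfold cf
  rw [cc_int]
  split_ifs
  · push_cast
    rfl
  · simp

/-- uniform distribution modulo one along the trajectories -/
theorem gen_interval {u : ℕ → ℝ} {M r : ℕ} (hu : ∀ k : ℤ, k ≠ 0 → Gen (fun n => if n % M = r then ex (k * u n) else 0))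
    {a b : ℝ} (ha : 0 ≤ a) (hab : a ≤ b) (hb : b ≤ 1) :
    Gen (fun n => ((if n % M = r then (if a ≤ Int.fract (u n) ∧ Int.fract (u n) < b then 1 else 0) - (b - a) else 0 : ℝ) : ℂ)) := by
  apply gen_sandwich
  intro ε hε
  obtain ⟨g, g0, g1, g2, g3⟩ := arc_major hab (half_pos hε)
  obtain ⟨p, p0, p1, p2, p3⟩ := arc_major ha (half_pos hε)
  obtain ⟨q, q0, q1, q2, q3⟩ := arc_major hb (half_pos hε)
  have eg := gen_cont hu (cc g)
  have ep := gen_cont hu (cc p)
  have eq' := gen_cont hu (cc q)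
  refine ⟨fun n => -(if n % M = r then p ((u n : ℝ) : Circ) - ∫ x : Circ, p x else 0) +
      -(if n % M = r then q ((u n : ℝ) : Circ) - ∫ x : Circ, q x else 0),
    fun n => if n % M = r then g ((u n : ℝ) : Circ) - ∫ x : Circ, g x else 0, ?_, ?_, ?_⟩
  · have := (ep.const_mul (-1)).add (eq'.const_mul (-1))
    convert this using 2 with n
    rw [cf_cc, cf_cc]
    push_cast
    ring
  · convert eg using 2 with n
    rw [cf_cc]
  · intro n
    have f0 := Int.fract_nonneg (u n)
    have f1 := Int.fract_lt_one (u n)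
    by_cases h1 : n % M = r
    · simp only [if_pos h1]
      by_cases h2 : a ≤ Int.fract (u n) ∧ Int.fract (u n) < b
      · rw [if_pos h2]
        constructor
        · have := p0 ((u n : ℝ) : Circ)
          have := q0 ((u n : ℝ) : Circ)
          linarith
        · have := g2 (u n) h2.1 h2.2.le
          linarith
      · rw [if_neg h2]
        constructor
        · by_cases h3 : Int.fract (u n) < a
          · have := p2 (u n) f0 h3.le
            have := q0 ((u n : ℝ) : Circ)
            linarith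
          · have h4 : b ≤ Int.fract (u n) := by
              by_contra h5
              exact h2 ⟨not_lt.1 h3, not_le.1 h5⟩
            have := q2 (u n) h4 f1.le
            have := p0 ((u n : ℝ) : Circ)
            linarith
        · have := g0 ((u n : ℝ) : Circ)
          linarith
    · simp only [if_neg h1]
      constructor <;> linarith

/-- geometric sums -/
theorem shc_geom {θ : ℝ} (q a H x : ℕ) : ‖1 - ex (q * θ)‖ * ‖shc (fun n => ex (θ * n)) q a H x‖ ≤ 2 * q := by
  rw [← norm_mul]
  have e : (1 - ex (q * θ)) * shc (fun n => ex (θ * n)) q a H x =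
      ∑ n ∈ (Ioc x (x + H)).filter (fun n => n % q = a), ex (θ * n) -
      ∑ n ∈ (Ioc (x + q) (x + q + H)).filter (fun n => n % q = a), ex (θ * n) := by
    rw [sub_mul, one_mul]
    congr 1
    unfold shc
    rw [mul_sum]
    refine sum_bij' (fun n _ => n + q) (fun n _ => n - q) ?_ ?_ ?_ ?_ ?_
    · intro n hn
      rw [mem_filter, mem_Ioc] at hn ⊢
      refine ⟨by omega, ?_⟩
      rw [Nat.add_mod_right]
      exact hn.2
    · intro n hn
      rw [mem_filter, mem_Ioc] at hn ⊢
      refine ⟨by omega, ?_⟩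
      have h1 : n = (n - q) + q := by omega
      rw [h1, Nat.add_mod_right] at hn
      exact hn.2
    · intro n _
      simp
    · intro n hn
      rw [mem_filter, mem_Ioc] at hn
      omega
    · intro n _
      rw [← ex_add]
      congr 1
      push_cast
      ring
  rw [e]
  have e2 : ∀ A : Finset ℕ, ∀ B : Finset ℕ, ∑ n ∈ A, ex (θ * n) - ∑ n ∈ B, ex (θ * n) =
      ∑ n ∈ A \ B, ex (θ * n) - ∑ n ∈ B \ A, ex (θ * n) := by
    intro A B
    exact (sum_sdiff_sub_sum_sdiff).symm
  rw [e2]
  have hcard : ∀ A : Finset ℕ, ‖∑ n ∈ A, ex (θ * n)‖ ≤ A.card := by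
    intro A
    refine (norm_sum_le _ _).trans ?_
    simp [norm_ex]
  refine (norm_sub_le _ _).trans ?_
  have c1 : ((Ioc x (x + H)).filter (fun n => n % q = a) \ (Ioc (x + q) (x + q + H)).filter (fun n => n % q = a)).card ≤ q := by
    refine (card_le_card (t := Ioc x (x + q)) ?_).trans (by simp)
    intro n hn
    rw [Finset.mem_sdiff, mem_filter, mem_filter, mem_Ioc, mem_Ioc] at hn
    rw [mem_Ioc]
    refine ⟨hn.1.1.1, ?_⟩
    by_contra h
    exact hn.2 ⟨⟨by omega, by omega⟩, hn.1.2⟩
  have c2 : ((Ioc (x + q) (x + q + H)).filter (fun n => n % q = a) \ (Ioc x (x + H)).filter (fun n => n % q = a)).card ≤ q := by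
    refine (card_le_card (t := Ioc (x + H) (x + H + q)) ?_).trans (by simp)
    intro n hn
    rw [Finset.mem_sdiff, mem_filter, mem_filter, mem_Ioc, mem_Ioc] at hn
    rw [mem_Ioc]
    refine ⟨?_, by omega⟩
    by_contra h
    exact hn.2 ⟨⟨by omega, by omega⟩, hn.1.2⟩
  have d1 := (hcard ((Ioc x (x + H)).filter (fun n => n % q = a) \ (Ioc (x + q) (x + q + H)).filter (fun n => n % q = a))).trans
    (Nat.cast_le.2 c1)
  have d2 := (hcard ((Ioc (x + q) (x + q + H)).filter (fun n => n % q = a) \ (Ioc x (x + H)).filter (fun n => n % q = a))).trans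
    (Nat.cast_le.2 c2)
  linarith

theorem ex_ne_one {y : ℝ} (hy : ∀ k : ℤ, y ≠ k) : ex y ≠ 1 := by
  intro h
  unfold ex at h
  rw [Complex.exp_eq_one_iff] at h
  obtain ⟨k, hk⟩ := h
  apply hy k
  have h1 : (2 * Real.pi * Complex.I) ≠ 0 := by
    simp [Real.pi_ne_zero]
  have h2 : ((y : ℝ) : ℂ) * (2 * Real.pi * Complex.I) = (k : ℂ) * (2 * Real.pi * Complex.I) := by
    rw [← hk]
    push_cast
    ring
  have h3 := mul_right_cancel₀ h1 h2
  exact_mod_cast h3

theorem mz_rot {θ : ℝ} (hθ : Irrational θ) : MZ (fun n => ex (θ * n)) := by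
  intro q a hq _ ε hε
  have hne : ex (q * θ) ≠ 1 := by
    apply ex_ne_one
    intro k hk
    have h1 : Irrational (q * θ) := hθ.natCast_mul hq.ne'
    exact h1.ne_int k hk
  have hpos : 0 < ‖1 - ex (q * θ)‖ := norm_pos_iff.2 (sub_ne_zero.2 (Ne.symm hne))
  set H : ℕ := ⌈2 * q / ‖1 - ex (q * θ)‖ / ε⌉₊ + 1 with hH
  refine ⟨H, by omega, Eventually.of_forall fun N => ?_⟩
  have hHr : 2 * (q : ℝ) / ‖1 - ex (q * θ)‖ / ε ≤ H := by
    refine (Nat.le_ceil _).trans ?_
    exact Nat.cast_le.2 (by omega)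
  rw [div_le_iff₀ hε, div_le_iff₀ hpos] at hHr
  have hall : ∀ x, ‖shc (fun n => ex (θ * n)) q a H x‖ ≤ ε * H := by
    intro x
    have h1 := shc_geom (θ := θ) q a H x
    have h2 := h1.trans hHr
    rw [mul_comm] at h2
    have h3 := le_of_mul_le_mul_right h2 hpos
    linarith
  have e4 : cN (fun x => ε * H < ‖shc (fun n => ex (θ * n)) q a H x‖) N = 0 := by
    unfold cN
    rw [card_eq_zero, filter_eq_empty_iff]
    intro x _
    exact not_lt.2 (hall x)
  rw [e4, Nat.cast_zero]
  positivity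

theorem gen_rot {θ : ℝ} (hθ : Irrational θ) {M : ℕ} (hM : 0 < M) (r : ℕ) {a b : ℝ} (ha : 0 ≤ a) (hab : a ≤ b) (hb : b ≤ 1) :
    Gen (fun n => ((if n % M = r then (if a ≤ Int.fract (θ * n) ∧ Int.fract (θ * n) < b then 1 else 0) - (b - a)
      else 0 : ℝ) : ℂ)) := by
  refine gen_interval (u := fun n => θ * n) (fun k hk => ?_) ha hab hb
  have h1 : Irrational (k * θ) := hθ.intCast_mul hk
  have h2 := gen_mz (F := fun n => ex (k * θ * n)) (fun n => by rw [norm_ex]) (mz_rot h1) hM r
  convert h2 using 3 with n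
  rw [mul_assoc]

end Pool.Agent.V11311.GT
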